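import Pool.Agent.H890.C.Step

set_option autoImplicit false
set_option linter.unusedSectionVars false
set_option linter.unusedVariables false

/-! Asymptotics. -/

namespace Pool.Agent.H890.C

open Finset Filter Topology

theorem one_sub_exp_le (u : ℝ) : 1 - Real.exp (-u) ≤ u := by
  have := Real.add_one_le_exp (-u); linarith

theorem one_sub_exp_ge {u : ℝ} (hu : 0 ≤ u) : u / (1 + u) ≤ 1 - Real.exp (-u) := by
  have h1 := Real.add_one_le_exp u
  have h2 : 0 < 1 + u := by linarith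
  have h3 : Real.exp (-u) ≤ 1 / (1 + u) := by
    rw [Real.exp_neg, ← one_div]
    apply one_div_le_one_div_of_le h2
    linarith
  have h4 : u / (1 + u) = 1 - 1 / (1 + u) := by field_simp; ring
  rw [h4]; linarith

theorem geom_Icc_le {v : ℝ} (hv0 : 0 ≤ v) (hv1 : v < 1) (n : ℕ) :
    ∑ i ∈ Finset.Icc 1 n, v ^ i ≤ 1 / (1 - v) := by
  have h1 : ∑ i ∈ Finset.Icc 1 n, v ^ i ≤ ∑ i ∈ Finset.range (n+1), v ^ i := by
    refine Finset.sum_le_sum_of_subset_of_nonneg ?_ (fun i _ _ => pow_nonneg hv0 i)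
    intro i hi
    rw [Finset.mem_Icc] at hi
    rw [Finset.mem_range]; omega
  refine h1.trans ?_
  rw [geom_sum_eq hv1.ne, le_div_iff₀ (by linarith)]
  have h2 : (v ^ (n+1) - 1) / (v - 1) * (1 - v) = 1 - v ^ (n+1) := by
    have : v - 1 ≠ 0 := by linarith
    field_simp; ring
  rw [h2]
  have := pow_nonneg hv0 (n+1)
  linarith

theorem geom_Icc_le' {r : ℝ} (hr : 1 < r) (n : ℕ) :
    ∑ i ∈ Finset.Icc 1 n, r ^ i ≤ r / (r - 1) * r ^ n := by
  have h1 : ∑ i ∈ Finset.Icc 1 n, r ^ i ≤ ∑ i ∈ Finset.range (n+1), r ^ i := by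
    refine Finset.sum_le_sum_of_subset_of_nonneg ?_ (fun i _ _ => by positivity)
    intro i hi
    rw [Finset.mem_Icc] at hi
    rw [Finset.mem_range]; omega
  refine h1.trans ?_
  rw [geom_sum_eq hr.ne']
  have : r / (r - 1) * r ^ n = r ^ (n+1) / (r - 1) := by ring
  rw [this]
  apply div_le_div_of_nonneg_right _ (by linarith)
  linarith

theorem ev_small {x : ℝ} (h0 : 0 ≤ x) (h1 : x < 1) (C : ℝ) {ε : ℝ} (hε : 0 < ε) :
    ∀ᶠ n : ℕ in atTop, C * x ^ n ≤ ε := by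
  have h := (tendsto_pow_atTop_nhds_zero_of_lt_one h0 h1).const_mul C
  rw [mul_zero] at h
  exact (h.eventually (gt_mem_nhds hε)).mono fun n hn => le_of_lt hn

variable {T A A1 A2 : ℝ} {e : ℕ → ℝ}

theorem z_lower (hT : 2 ≤ T) (hA : 0 < A) (hA1 : 0 < A1) (hAT : A < T) {ρi : ℕ → ℝ}
    (hρ : ∀ i, 1 ≤ i → A1 / A ^ i ≤ ρi i ∧ ρi i ≤ A2 / A ^ i) {n : ℕ} (hn : 2 ≤ n) {z : ℝ}
    (hz : 0 < z)
    (hrow : ∑ i ∈ Finset.Icc 1 n, (T^i - T^(i-1)) * (1 - Real.exp (-(ρi i / z))) = 1) :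
    (A1/4) * (T/A)^n ≤ z := by
  have hT0 : 0 < T := by linarith
  have hT1 : 1 ≤ T := by linarith
  have hpos : ∀ i ∈ Finset.Icc 1 n, 0 ≤ (T^i - T^(i-1)) * (1 - Real.exp (-(ρi i / z))) := by
    intro i hi
    have hi' := (Finset.mem_Icc.1 hi).1
    have h1 : T^(i-1) ≤ T^i := pow_le_pow_right₀ hT1 (by omega)
    have h2 : 0 < ρi i := lt_of_lt_of_le (by positivity) (hρ i hi').1
    have h3 : Real.exp (-(ρi i / z)) ≤ 1 := by
      apply Real.exp_le_one_iff.2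
      have : 0 < ρi i / z := by positivity
      linarith
    exact mul_nonneg (by linarith) (by linarith)
  have h1 := Finset.single_le_sum hpos (Finset.mem_Icc.2 ⟨by omega, le_rfl⟩ : n ∈ Finset.Icc 1 n)
  rw [hrow] at h1
  have h2 : 0 < ρi n := lt_of_lt_of_le (by positivity) (hρ n (by omega)).1
  set u := ρi n / z with hu
  have hu0 : 0 < u := by positivity
  have h3 := one_sub_exp_ge hu0.le
  have h4 : T^n/2 ≤ T^n - T^(n-1) := by
    have : T^n = T * T^(n-1) := by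
      rw [← pow_succ']; congr 1; omega
    have h5 : 0 < T^(n-1) := by positivity
    rw [this]; nlinarith
  have h5 : (T^n/2) * (u/(1+u)) ≤ 1 :=
    (mul_le_mul h4 h3 (by positivity) (by linarith [h4, (by positivity : (0:ℝ) < T^n/2)])).trans h1
  have h6 : T^n/2 * u ≤ 1 + u := by
    have h7 : (T^n/2) * (u/(1+u)) = (T^n/2 * u)/(1+u) := by ring
    rw [h7, div_le_one (by linarith)] at h5
    exact h5
  have h7 : 4 ≤ T^n := by
    calc (4:ℝ) = 2^2 := by norm_num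
      _ ≤ T^2 := by apply pow_le_pow_left₀ (by norm_num) hT
      _ ≤ T^n := pow_le_pow_right₀ hT1 hn
  have h8 : u * T^n ≤ 4 := by nlinarith
  have h9 : ρi n * T^n ≤ 4 * z := by
    have : u * T^n = (ρi n * T^n)/z := by rw [hu]; ring
    rw [this, div_le_iff₀ hz] at h8
    exact h8
  have h10 : (T/A)^n = T^n / A^n := div_pow T A n
  rw [h10]
  have h11 : A1 / A^n * T^n ≤ ρi n * T^n :=
    mul_le_mul_of_nonneg_right (hρ n (by omega)).1 (by positivity)
  have h12 : A1/4 * (T^n/A^n) = (A1 / A^n * T^n)/4 := by ring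
  rw [h12]; linarith

theorem z_upper (hT : 2 ≤ T) (hA : 0 < A) (hA1 : 0 < A1) (hAT : A < T) {ρi : ℕ → ℝ}
    (hρ : ∀ i, 1 ≤ i → A1 / A ^ i ≤ ρi i ∧ ρi i ≤ A2 / A ^ i) {n : ℕ} {z : ℝ}
    (hz : 0 < z) (hA2 : 0 < A2)
    (hrow : ∑ i ∈ Finset.Icc 1 n, (T^i - T^(i-1)) * (1 - Real.exp (-(ρi i / z))) = 1) :
    z ≤ A2 * ((T/A) / (T/A - 1)) * (T/A)^n := by
  have hT0 : 0 < T := by linarith
  have hT1 : 1 ≤ T := by linarith
  have hr : 1 < T/A := by rw [one_lt_div hA]; exact hAT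
  have h1 : (1:ℝ) ≤ (A2/z) * ∑ i ∈ Finset.Icc 1 n, (T/A)^i := by
    rw [← hrow, Finset.mul_sum]
    refine Finset.sum_le_sum fun i hi => ?_
    have hi' := (Finset.mem_Icc.1 hi).1
    have h1 : T^(i-1) ≤ T^i := pow_le_pow_right₀ hT1 (by omega)
    have h0 : 0 < T^(i-1) := by positivity
    have h2 := one_sub_exp_le (ρi i / z)
    have h3 : ρi i / z ≤ (A2 / A^i)/z := div_le_div_of_nonneg_right (hρ i hi').2 hz.le
    have h4 : (T^i - T^(i-1)) * (1 - Real.exp (-(ρi i / z))) ≤ (T^i - T^(i-1)) * ((A2 / A^i)/z) :=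
      mul_le_mul_of_nonneg_left (by linarith) (by linarith)
    have h5 : (T^i - T^(i-1)) * ((A2 / A^i)/z) ≤ T^i * ((A2 / A^i)/z) :=
      mul_le_mul_of_nonneg_right (by linarith) (by positivity)
    refine h4.trans (h5.trans (le_of_eq ?_))
    rw [div_pow]; field_simp
  have h2 := geom_Icc_le' hr n
  have h3 : (1:ℝ) ≤ (A2/z) * ((T/A)/(T/A - 1) * (T/A)^n) :=
    h1.trans (mul_le_mul_of_nonneg_left h2 (by positivity))
  have h4 : (A2/z) * ((T/A)/(T/A - 1) * (T/A)^n) = (A2 * ((T/A)/(T/A - 1)) * (T/A)^n)/z := by ring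
  rw [h4, le_div_iff₀ hz, one_mul] at h3
  exact h3

theorem sq_sum_le (hT : 2 ≤ T) (hA : 0 < A) (hA1 : 0 < A1) {ρi : ℕ → ℝ} (hA2T : T < A^2)
    (hρ : ∀ i, 1 ≤ i → A1 / A ^ i ≤ ρi i ∧ ρi i ≤ A2 / A ^ i) {n : ℕ} {z : ℝ}
    (hz : 0 < z) :
    ∑ i ∈ Finset.Icc 1 n, (T^i - T^(i-1)) * (1 - Real.exp (-(ρi i / z)))^2
      ≤ (A2^2/z^2) * (1/(1 - T/A^2)) := by
  have hT0 : 0 < T := by linarith
  have hT1 : 1 ≤ T := by linarith
  have hv0 : 0 ≤ T/A^2 := by positivity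
  have hv1 : T/A^2 < 1 := by rw [div_lt_one (by positivity)]; exact hA2T
  have h1 : ∑ i ∈ Finset.Icc 1 n, (T^i - T^(i-1)) * (1 - Real.exp (-(ρi i / z)))^2
      ≤ (A2^2/z^2) * ∑ i ∈ Finset.Icc 1 n, (T/A^2)^i := by
    rw [Finset.mul_sum]
    refine Finset.sum_le_sum fun i hi => ?_
    have hi' := (Finset.mem_Icc.1 hi).1
    have h1 : T^(i-1) ≤ T^i := pow_le_pow_right₀ hT1 (by omega)
    have h0 : 0 < T^(i-1) := by positivity
    have hρ0 : 0 < ρi i := lt_of_lt_of_le (by positivity) (hρ i hi').1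
    have h2 := one_sub_exp_le (ρi i / z)
    have h3 : ρi i / z ≤ (A2 / A^i)/z := div_le_div_of_nonneg_right (hρ i hi').2 hz.le
    have h6 : 0 ≤ 1 - Real.exp (-(ρi i / z)) := by
      have : Real.exp (-(ρi i / z)) ≤ 1 := by
        apply Real.exp_le_one_iff.2
        have : 0 < ρi i / z := by positivity
        linarith
      linarith
    have h7 : (1 - Real.exp (-(ρi i / z)))^2 ≤ ((A2 / A^i)/z)^2 :=
      pow_le_pow_left₀ h6 (by linarith) 2
    have h4 : (T^i - T^(i-1)) * (1 - Real.exp (-(ρi i / z)))^2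
        ≤ (T^i - T^(i-1)) * ((A2 / A^i)/z)^2 :=
      mul_le_mul_of_nonneg_left h7 (by linarith)
    have h5 : (T^i - T^(i-1)) * ((A2 / A^i)/z)^2 ≤ T^i * ((A2 / A^i)/z)^2 :=
      mul_le_mul_of_nonneg_right (by linarith) (by positivity)
    refine h4.trans (h5.trans (le_of_eq ?_))
    rw [div_pow T, ← pow_mul A 2 i, mul_comm 2 i, pow_mul]; field_simp
  exact h1.trans (mul_le_mul_of_nonneg_left (geom_Icc_le hv0 hv1 n) (by positivity))

theorem exists_w {r B : ℝ} (hr : 1 < r) (hB : 1 < B) : ∃ w : ℝ, 1 < w ∧ w < r ∧ w^3 < B := by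
  have hm : 1 < min r B := lt_min hr hB
  refine ⟨(min r B)^((1:ℝ)/4), ?_, ?_, ?_⟩
  · exact Real.one_lt_rpow hm (by norm_num)
  · calc (min r B)^((1:ℝ)/4) < (min r B)^(1:ℝ) := Real.rpow_lt_rpow_of_exponent_lt hm (by norm_num)
      _ = min r B := Real.rpow_one _
      _ ≤ r := min_le_left _ _
  · rw [← Real.rpow_natCast, ← Real.rpow_mul (by linarith)]
    calc (min r B)^((1:ℝ)/4 * ((3:ℕ):ℝ)) < (min r B)^(1:ℝ) :=
          Real.rpow_lt_rpow_of_exponent_lt hm (by norm_num)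
      _ = min r B := Real.rpow_one _
      _ ≤ B := min_le_right _ _

theorem tendsto_exp_decay {T w κ : ℝ} (hT : 1 ≤ T) (hw : 1 < w) (hκ : 0 < κ) :
    Tendsto (fun n : ℕ => T^n * Real.exp (-(κ * w^n))) atTop (𝓝 0) := by
  obtain ⟨m, hm⟩ := pow_unbounded_of_one_lt T hw
  have h1 : Tendsto (fun n : ℕ => ((m.factorial : ℝ)/κ^m) * (T/w^m)^n) atTop (𝓝 0) := by
    have h2 := (tendsto_pow_atTop_nhds_zero_of_lt_one (r := T/w^m) (by positivity)
      (by rw [div_lt_one (by positivity)]; exact hm)).const_mul ((m.factorial : ℝ)/κ^m)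
    rwa [mul_zero] at h2
  refine squeeze_zero (fun n => by positivity) (fun n => ?_) h1
  have hx : 0 < κ * w^n := by positivity
  have h2 : (κ * w^n)^m / (m.factorial : ℝ) ≤ Real.exp (κ * w^n) :=
    Real.pow_div_factorial_le_exp _ hx.le m
  have h3 : Real.exp (-(κ * w^n)) ≤ (m.factorial : ℝ)/(κ * w^n)^m := by
    rw [Real.exp_neg]
    have hf : (0:ℝ) < m.factorial := by exact_mod_cast m.factorial_pos
    rw [inv_le_comm₀ (Real.exp_pos _) (by positivity), inv_div]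
    exact h2
  calc T^n * Real.exp (-(κ * w^n)) ≤ T^n * ((m.factorial : ℝ)/(κ * w^n)^m) :=
        mul_le_mul_of_nonneg_left h3 (by positivity)
    _ = ((m.factorial : ℝ)/κ^m) * (T/w^m)^n := by
        rw [div_pow, mul_pow, ← pow_mul, ← pow_mul, mul_comm n m]; field_simp

end Pool.Agent.H890.C
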