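import Mathlib

set_option autoImplicit false
set_option linter.unusedSectionVars false
set_option linter.unusedVariables false
set_option linter.unnecessarySeqFocus false

/-! Finite product Bernoulli probability. -/

namespace Pool.Agent.H890.C

open Finset

variable {E : Type} [Fintype E] [DecidableEq E]

/-- the weight of a configuration under independent Bernoulli coordinates -/
noncomputable def wt (p : E → ℝ) (ω : E → Bool) : ℝ := ∏ e, if ω e = true then p e else 1 - p e

/-- expectation of `f` under independent Bernoulli coordinates -/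
noncomputable def ex (p : E → ℝ) (f : (E → Bool) → ℝ) : ℝ := ∑ ω, wt p ω * f ω

/-- admissible edge probabilities -/
def Adm (p : E → ℝ) : Prop := ∀ e, 0 ≤ p e ∧ p e ≤ 1

theorem wt_nonneg {p : E → ℝ} (hp : Adm p) (ω : E → Bool) : 0 ≤ wt p ω := by
  unfold wt
  refine Finset.prod_nonneg fun e _ => ?_
  split_ifs
  · exact (hp e).1
  · linarith [(hp e).2]

theorem ex_prod (p : E → ℝ) (h : E → Bool → ℝ) :
    ex p (fun ω => ∏ e, h e (ω e)) = ∏ e, (p e * h e true + (1 - p e) * h e false) := by
  have h1 : ∀ e, (p e * h e true + (1 - p e) * h e false)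
      = ∑ b ∈ (univ : Finset Bool), (if b = true then p e else 1 - p e) * h e b := by
    intro e; simp
  simp_rw [h1]
  rw [Finset.prod_univ_sum]
  unfold ex wt
  rw [Fintype.piFinset_univ]
  refine Finset.sum_congr rfl fun ω _ => ?_
  rw [← Finset.prod_mul_distrib]

theorem ex_one (p : E → ℝ) : ex p (fun _ => 1) = 1 := by
  have := ex_prod p (fun _ _ => 1)
  simpa using this

theorem ex_const (p : E → ℝ) (c : ℝ) : ex p (fun _ => c) = c := by
  have := ex_one p
  unfold ex at *
  rw [← Finset.sum_mul]
  simp only [mul_one] at this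
  rw [this, one_mul]

theorem ex_add (p : E → ℝ) (f g : (E → Bool) → ℝ) :
    ex p (fun ω => f ω + g ω) = ex p f + ex p g := by
  unfold ex
  rw [← Finset.sum_add_distrib]
  exact Finset.sum_congr rfl fun ω _ => by ring

theorem ex_sub (p : E → ℝ) (f g : (E → Bool) → ℝ) :
    ex p (fun ω => f ω - g ω) = ex p f - ex p g := by
  unfold ex
  rw [← Finset.sum_sub_distrib]
  exact Finset.sum_congr rfl fun ω _ => by ring

theorem ex_smul (p : E → ℝ) (c : ℝ) (f : (E → Bool) → ℝ) :
    ex p (fun ω => c * f ω) = c * ex p f := by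
  unfold ex
  rw [Finset.mul_sum]
  exact Finset.sum_congr rfl fun ω _ => by ring

theorem ex_mul_const (p : E → ℝ) (c : ℝ) (f : (E → Bool) → ℝ) :
    ex p (fun ω => f ω * c) = ex p f * c := by
  unfold ex
  rw [Finset.sum_mul]
  exact Finset.sum_congr rfl fun ω _ => by ring

theorem ex_sum {ι : Type} (s : Finset ι) (p : E → ℝ) (f : ι → (E → Bool) → ℝ) :
    ex p (fun ω => ∑ i ∈ s, f i ω) = ∑ i ∈ s, ex p (f i) := by
  unfold ex
  rw [Finset.sum_comm]
  exact Finset.sum_congr rfl fun ω _ => by rw [Finset.mul_sum]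

theorem ex_mono {p : E → ℝ} (hp : Adm p) {f g : (E → Bool) → ℝ} (h : ∀ ω, f ω ≤ g ω) :
    ex p f ≤ ex p g := by
  unfold ex
  exact Finset.sum_le_sum fun ω _ => mul_le_mul_of_nonneg_left (h ω) (wt_nonneg hp ω)

theorem ex_nonneg {p : E → ℝ} (hp : Adm p) {f : (E → Bool) → ℝ} (h : ∀ ω, 0 ≤ f ω) :
    0 ≤ ex p f :=
  Finset.sum_nonneg fun ω _ => mul_nonneg (wt_nonneg hp ω) (h ω)

/-- glue two configurations along `I` -/
def glue (I : E → Prop) [DecidablePred I] (ω η : E → Bool) : E → Bool :=
  fun e => if I e then ω e else η e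

theorem wt_glue (p : E → ℝ) (I : E → Prop) [DecidablePred I] (ω η : E → Bool) :
    wt p (glue I ω η) * wt p (glue I η ω) = wt p ω * wt p η := by
  unfold wt glue
  rw [← Finset.prod_mul_distrib, ← Finset.prod_mul_distrib]
  refine Finset.prod_congr rfl fun e _ => ?_
  by_cases h : I e
  · simp [h]
  · simp only [h, if_false]; rw [mul_comm]

theorem ex_glue (p : E → ℝ) (I : E → Prop) [DecidablePred I] (f : (E → Bool) → ℝ) :
    ex p f = ex p (fun ω => ex p (fun η => f (glue I ω η))) := by
  have h1 : ex p (fun ω => ex p (fun η => f (glue I ω η)))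
      = ∑ x : (E → Bool) × (E → Bool), wt p x.1 * wt p x.2 * f (glue I x.1 x.2) := by
    unfold ex
    rw [Fintype.sum_prod_type]
    refine Finset.sum_congr rfl fun ω _ => ?_
    rw [Finset.mul_sum]
    refine Finset.sum_congr rfl fun η _ => ?_
    ring
  have h2 : ∑ x : (E → Bool) × (E → Bool), wt p x.1 * wt p x.2 * f (glue I x.1 x.2)
      = ∑ x : (E → Bool) × (E → Bool), wt p x.1 * wt p x.2 * f x.1 := by
    let σ : (E → Bool) × (E → Bool) → (E → Bool) × (E → Bool) :=
      fun x => (glue I x.1 x.2, glue I x.2 x.1)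
    have hσ : Function.Involutive σ := by
      intro x
      ext e
      · simp only [σ, glue]
        split_ifs <;> rfl
      · simp only [σ, glue]
        split_ifs <;> rfl
    have hc := Equiv.sum_comp (Function.Involutive.toPerm σ hσ)
      (fun x : (E → Bool) × (E → Bool) => wt p x.1 * wt p x.2 * f x.1)
    rw [← hc]
    refine Finset.sum_congr rfl fun x _ => ?_
    change _ = wt p (glue I x.1 x.2) * wt p (glue I x.2 x.1) * f (glue I x.1 x.2)
    rw [wt_glue p I x.1 x.2]
  have h3 : ∑ x : (E → Bool) × (E → Bool), wt p x.1 * wt p x.2 * f x.1 = ex p f := by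
    rw [Fintype.sum_prod_type]
    unfold ex
    refine Finset.sum_congr rfl fun ω _ => ?_
    have := ex_one p
    unfold ex at this
    simp only [mul_one] at this
    calc ∑ y, wt p ω * wt p y * f ω = (∑ y, wt p y) * (wt p ω * f ω) := by
          rw [Finset.sum_mul]; exact Finset.sum_congr rfl fun _ _ => by ring
      _ = _ := by rw [this, one_mul]
  rw [h1, h2, h3]

/-- independence of functions of disjoint sets of coordinates -/
theorem ex_indep (p : E → ℝ) (I : E → Prop) (f g : (E → Bool) → ℝ)
    (hf : ∀ ω η : E → Bool, (∀ e, I e → ω e = η e) → f ω = f η)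
    (hg : ∀ ω η : E → Bool, (∀ e, ¬ I e → ω e = η e) → g ω = g η) :
    ex p (fun ω => f ω * g ω) = ex p f * ex p g := by
  classical
  rw [ex_glue p I]
  have : ∀ ω, ex p (fun η => f (glue I ω η) * g (glue I ω η)) = f ω * ex p g := by
    intro ω
    rw [← ex_smul]
    congr 1
    ext η
    rw [hf (glue I ω η) ω (by intro e he; simp [glue, he]),
      hg (glue I ω η) η (by intro e he; simp [glue, he])]
  simp_rw [this]
  rw [ex_mul_const]

theorem ex_coord (p : E → ℝ) (e : E) :
    ex p (fun ω => if ω e = true then 1 else 0) = p e := by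
  have h := ex_prod p (fun e' b => if e' = e then (if b = true then 1 else 0) else 1)
  have h2 : (fun ω : E → Bool => ∏ e', (if e' = e then (if ω e' = true then (1:ℝ) else 0) else 1))
      = fun ω => if ω e = true then 1 else 0 := by
    ext ω
    rw [Finset.prod_ite_eq' univ e (fun e' => if ω e' = true then (1:ℝ) else 0)]
    simp
  rw [h2] at h
  rw [h]
  rw [Finset.prod_eq_single e]
  · simp
  · intro b _ hb
    simp [hb]
  · simp

/-- a coordinate is independent of a function that does not look at it -/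
theorem ex_coord_mul (p : E → ℝ) (e : E) (f : (E → Bool) → ℝ)
    (hf : ∀ ω η : E → Bool, (∀ e', e' ≠ e → ω e' = η e') → f ω = f η) :
    ex p (fun ω => (if ω e = true then 1 else 0) * f ω) = p e * ex p f := by
  rw [ex_indep p (fun e' => e' = e) (fun ω => if ω e = true then 1 else 0) f, ex_coord]
  · intro ω η h
    rw [h e rfl]
  · exact hf

theorem wt_modular (p : E → ℝ) (a b : E → Bool) :
    wt p a * wt p b = wt p (a ⊓ b) * wt p (a ⊔ b) := by
  unfold wt
  rw [← Finset.prod_mul_distrib, ← Finset.prod_mul_distrib]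
  refine Finset.prod_congr rfl fun e _ => ?_
  have key : ∀ x y : Bool, (if x = true then p e else 1 - p e) * (if y = true then p e else 1 - p e)
      = (if (x ⊓ y) = true then p e else 1 - p e) * (if (x ⊔ y) = true then p e else 1 - p e) := by
    intro x y
    cases x <;> cases y <;> simp [mul_comm]
  exact key (a e) (b e)

theorem ex_fkg {p : E → ℝ} (hp : Adm p) {f g : (E → Bool) → ℝ} (hf0 : ∀ ω, 0 ≤ f ω)
    (hg0 : ∀ ω, 0 ≤ g ω) (hf : Monotone f) (hg : Monotone g) :
    ex p f * ex p g ≤ ex p (fun ω => f ω * g ω) := by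
  have := fkg (α := E → Bool) (β := ℝ) f g (wt p) (fun ω => wt_nonneg hp ω) hf0 hg0 hf hg
    (fun a b => (wt_modular p a b).le)
  have h1 := ex_one p
  unfold ex at *
  simp only [mul_one] at h1
  rw [h1, one_mul] at this
  exact this

/-- FKG for decreasing functions with values in `[0,1]` -/
theorem ex_fkg_anti {p : E → ℝ} (hp : Adm p) {f g : (E → Bool) → ℝ} (hf1 : ∀ ω, f ω ≤ 1)
    (hg1 : ∀ ω, g ω ≤ 1) (hf : Antitone f) (hg : Antitone g) :
    ex p f * ex p g ≤ ex p (fun ω => f ω * g ω) := by
  have h := ex_fkg hp (f := fun ω => 1 - f ω) (g := fun ω => 1 - g ω)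
    (fun ω => by linarith [hf1 ω]) (fun ω => by linarith [hg1 ω])
    (fun a b hab => by linarith [hf hab]) (fun a b hab => by linarith [hg hab])
  have e1 : ex p (fun ω => 1 - f ω) = 1 - ex p f := by rw [ex_sub, ex_const]
  have e2 : ex p (fun ω => 1 - g ω) = 1 - ex p g := by rw [ex_sub, ex_const]
  have e3 : ex p (fun ω => (1 - f ω) * (1 - g ω))
      = 1 - ex p f - ex p g + ex p (fun ω => f ω * g ω) := by
    have : (fun ω => (1 - f ω) * (1 - g ω)) = fun ω => (1 - f ω - g ω) + f ω * g ω := by
      ext ω; ring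
    rw [this, ex_add, ex_sub, ex_sub, ex_const]
  rw [e1, e2, e3] at h
  nlinarith

theorem ex_fkg_prod {ι : Type} [DecidableEq ι] {p : E → ℝ} (hp : Adm p) (s : Finset ι)
    (f : ι → (E → Bool) → ℝ) (hf0 : ∀ i ω, 0 ≤ f i ω) (hf1 : ∀ i ω, f i ω ≤ 1)
    (hf : ∀ i, Antitone (f i)) :
    ∏ i ∈ s, ex p (f i) ≤ ex p (fun ω => ∏ i ∈ s, f i ω) := by
  induction s using Finset.induction_on with
  | empty => simp [ex_one]
  | insert a s ha ih =>
    rw [Finset.prod_insert ha]
    have h1 : ex p (f a) * ex p (fun ω => ∏ i ∈ s, f i ω)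
        ≤ ex p (fun ω => f a ω * ∏ i ∈ s, f i ω) := by
      refine ex_fkg_anti hp (hf1 a) (fun ω => ?_) (hf a) ?_
      · exact Finset.prod_le_one (fun i _ => hf0 i ω) (fun i _ => hf1 i ω)
      · intro x y hxy
        exact Finset.prod_le_prod (fun i _ => hf0 i y) (fun i _ => hf i hxy)
    calc ex p (f a) * ∏ i ∈ s, ex p (f i)
        ≤ ex p (f a) * ex p (fun ω => ∏ i ∈ s, f i ω) :=
          mul_le_mul_of_nonneg_left ih (ex_nonneg hp (hf0 a))
      _ ≤ _ := h1
      _ = _ := by
        congr 1; ext ω; rw [Finset.prod_insert ha]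

/-- thinning -/
theorem ex_thin (p r : E → ℝ) (f : (E → Bool) → ℝ) :
    ex (fun e => p e * r e) f = ex p (fun ω => ex r (fun ρ => f (fun e => ω e && ρ e))) := by
  have key : ∀ ζ : E → Bool, wt (fun e => p e * r e) ζ
      = ∑ ω : E → Bool, ∑ ρ : E → Bool, wt p ω * wt r ρ *
          (if (fun e => ω e && ρ e) = ζ then 1 else 0) := by
    intro ζ
    have h1 : ∀ e, (if ζ e = true then p e * r e else 1 - p e * r e)
        = ∑ ab ∈ (univ : Finset (Bool × Bool)),
          (if ab.1 = true then p e else 1 - p e) * (if ab.2 = true then r e else 1 - r e) *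
            (if (ab.1 && ab.2) = ζ e then 1 else 0) := by
      intro e
      rw [Fintype.sum_prod_type]
      cases ζ e <;> simp <;> ring
    unfold wt
    simp_rw [h1]
    rw [Finset.prod_univ_sum, Fintype.piFinset_univ]
    rw [← Fintype.sum_prod_type' (f := fun (ω : E → Bool) (ρ : E → Bool) =>
      (∏ e, if ω e = true then p e else 1 - p e) * (∏ e, if ρ e = true then r e else 1 - r e) *
          (if (fun e => ω e && ρ e) = ζ then (1:ℝ) else 0))]
    let φ : ((E → Bool × Bool)) ≃ (E → Bool) × (E → Bool) := Equiv.arrowProdEquivProdArrow _ _ _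
    rw [← Equiv.sum_comp φ]
    refine Finset.sum_congr rfl fun x _ => ?_
    rw [Finset.prod_mul_distrib, Finset.prod_mul_distrib]
    have e1 : (φ x).1 = fun e => (x e).1 := rfl
    have e2 : (φ x).2 = fun e => (x e).2 := rfl
    rw [e1, e2]
    congr 1
    by_cases h : (fun e => (x e).1 && (x e).2) = ζ
    · rw [if_pos h]
      refine Finset.prod_eq_one fun e _ => ?_
      rw [if_pos (congrFun h e)]
    · rw [if_neg h]
      have : ∃ e, ¬ ((x e).1 && (x e).2) = ζ e := by
        by_contra hcon
        push Not at hcon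
        exact h (funext hcon)
      obtain ⟨e, he⟩ := this
      exact Finset.prod_eq_zero (Finset.mem_univ e) (if_neg he)
  unfold ex
  simp_rw [key, Finset.sum_mul, Finset.mul_sum]
  rw [Finset.sum_comm]
  refine Finset.sum_congr rfl fun ω _ => ?_
  rw [Finset.sum_comm]
  refine Finset.sum_congr rfl fun ρ _ => ?_
  rw [Finset.sum_eq_single (fun e => ω e && ρ e)]
  · simp; ring
  · intro b _ hb
    rw [if_neg (Ne.symm hb)]; ring
  · simp

/-- monotonicity in the edge probabilities -/
theorem ex_le_of_le {p p' : E → ℝ} (hp : Adm p) (hp' : Adm p') (hpp : ∀ e, p e ≤ p' e)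
    {f : (E → Bool) → ℝ} (hf : Monotone f) : ex p f ≤ ex p' f := by
  have h1 : p = fun e => p' e * (if p' e = 0 then 0 else p e / p' e) := by
    ext e
    by_cases h : p' e = 0
    · simp only [h, if_true, mul_zero]
      have := hpp e
      have := (hp e).1
      linarith
    · simp only [h, if_false]
      field_simp
  rw [h1, ex_thin]
  refine ex_mono hp' fun ω => ?_
  have hr : Adm (fun e => if p' e = 0 then (0:ℝ) else p e / p' e) := by
    intro e
    by_cases h : p' e = 0
    · simp [h]
    · simp only [h, if_false]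
      have h2 : 0 < p' e := lt_of_le_of_ne (hp' e).1 (Ne.symm h)
      exact ⟨div_nonneg (hp e).1 h2.le, (div_le_one h2).2 (hpp e)⟩
  calc ex (fun e => if p' e = 0 then (0:ℝ) else p e / p' e) (fun ρ => f (fun e => ω e && ρ e))
      ≤ ex (fun e => if p' e = 0 then (0:ℝ) else p e / p' e) (fun _ => f ω) := by
        refine ex_mono hr fun ρ => hf ?_
        intro e
        change (ω e && ρ e) ≤ ω e
        cases ω e <;> cases ρ e <;> decide
    _ = f ω := ex_const _ _

end Pool.Agent.H890.C
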