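import Pool.Agent.H890.C.Ghost

set_option autoImplicit false
set_option linter.unusedSectionVars false
set_option linter.unusedVariables false

/-! Existence of large clusters. -/

namespace Pool.Agent.H890.C

open Finset Classical

variable {V : Type} [Fintype V] [DecidableEq V]

theorem big_nonneg (K : ℝ) (ω : Sym2 V → Bool) (x : V) : 0 ≤ big K ω x := by
  unfold big; split_ifs <;> norm_num

theorem big_sq (K : ℝ) (ω : Sym2 V → Bool) (x : V) : big K ω x * big K ω x = big K ω x := by
  unfold big; split_ifs <;> norm_num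

theorem big_prob {p : Sym2 V → ℝ} (hp : Adm p) {s : ℝ} (hs0 : 0 < s) (hs1 : s ≤ 1)
    (hrow : ∀ x, ∑ w, p s(x, w) = 1 - s)
    (hsq : ∀ x, ∑ w, p s(x, w) ^ 2 ≤ 1/8) (hhalf : ∀ e, p e ≤ 1/2) (hT : Trans p)
    (o : V) (hloss : loss p (Fintype.card V) o ≤ s/2)
    {K : ℝ} (hK : 1 ≤ K) (hK2 : 6 * Real.sqrt K ≤ 1/(4*s)) :
    s/16 ≤ ex p (fun ω => big K ω o) := by
  have hβ0 : 0 ≤ 1 - s := by linarith
  have hβ1 : 1 - s < 1 := by linarith
  have hrow' : ∀ x, ∑ w, p s(x, w) ≤ 1 := fun x => by rw [hrow]; linarith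
  have hrow'' : ∀ x, ∑ w, p s(x, w) ≤ 1 - s := fun x => (hrow x).le
  have h1 := chi_lower hp hβ0 hβ1 hrow hT o
  have h2 := m2_le hp hβ0 hβ1 hrow'' _ univ le_rfl o
  have h3 := trunc_le hp hrow' hsq hhalf hT hK o
  have hss : 1 - (1 - s) = s := by ring
  rw [hss] at h1 h2
  set χ := ex p (fun ω => ((cl ω univ o).card : ℝ)) with hχ
  have h4 : 1/2 ≤ s * χ := by
    have : (1/s) * loss p (Fintype.card V) o ≤ (1/s) * (s/2) :=
      mul_le_mul_of_nonneg_left hloss (by positivity)
    have h5 : (1/s) * (s/2) = 1/2 := by field_simp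
    linarith
  have h5 : 1/(2*s) ≤ χ := by
    rw [div_le_iff₀ (by positivity)]
    linarith
  have h6 : χ = ex p (fun ω => ((cl ω univ o).card : ℝ) * big K ω o)
      + ex p (fun ω => ((cl ω univ o).card : ℝ) * (1 - big K ω o)) := by
    rw [← ex_add, hχ]
    congr 1; funext ω; ring
  have h7 : 1/(4*s) ≤ ex p (fun ω => ((cl ω univ o).card : ℝ) * big K ω o) := by
    have : 1/(2*s) = 1/(4*s) + 1/(4*s) := by field_simp; ring
    linarith
  have h8 : ex p (fun ω => ((cl ω univ o).card : ℝ) * big K ω o)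
      ≤ (s^2/8) * (1/s)^3 + (2/s^2) * ex p (fun ω => big K ω o) := by
    have h9 : ∀ ω : Sym2 V → Bool, ((cl ω univ o).card : ℝ) * big K ω o
        ≤ (s^2/8) * ((cl ω univ o).card : ℝ)^2 + (2/s^2) * big K ω o := by
      intro ω
      have hb := big_sq K ω o
      set a := ((cl ω univ o).card : ℝ)
      set b := big K ω o
      have h10 : (2/s^2) * b = (2/s^2) * (b*b) := by rw [hb]
      rw [h10]
      have h11 : (s^2/8) * a^2 + (2/s^2) * (b*b) - a*b = (s*a/4 - b/s)^2 * 2 + (s^2/8 - s^2/8)*a^2 := by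
        field_simp; ring
      nlinarith [sq_nonneg (s*a/4 - b/s)]
    have := ex_mono hp h9
    rw [ex_add, ex_smul, ex_smul] at this
    have h12 := mul_le_mul_of_nonneg_left h2 (by positivity : (0:ℝ) ≤ s^2/8)
    linarith
  have h9 : (s^2/8) * (1/s)^3 = 1/(8*s) := by field_simp
  rw [h9] at h8
  have h10 : 1/(8*s) ≤ (2/s^2) * ex p (fun ω => big K ω o) := by
    have : 1/(4*s) = 1/(8*s) + 1/(8*s) := by field_simp; ring
    linarith
  have h11 : (2/s^2) * (s/16) = 1/(8*s) := by field_simp; ring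
  rw [← h11] at h10
  exact le_of_mul_le_mul_left h10 (by positivity)

theorem exists_big {p : Sym2 V → ℝ} (hp : Adm p) {s : ℝ} (hs0 : 0 < s) (hs1 : s ≤ 1)
    (hrow : ∀ x, ∑ w, p s(x, w) = 1 - s)
    (hsq : ∀ x, ∑ w, p s(x, w) ^ 2 ≤ 1/8) (hhalf : ∀ e, p e ≤ 1/2) (hT : Trans p)
    (o : V) (hloss : loss p (Fintype.card V) o ≤ s/2)
    {K : ℝ} (hK : 1 ≤ K) (hK2 : 6 * Real.sqrt K ≤ 1/(4*s)) :
    ex p (fun ω => if ∀ x, ((cl ω univ x).card : ℝ) ≤ K then 1 else 0)
      ≤ 256 / (s^3 * Fintype.card V) := by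
  have hβ0 : 0 ≤ 1 - s := by linarith
  have hβ1 : 1 - s < 1 := by linarith
  have hrow'' : ∀ x, ∑ w, p s(x, w) ≤ 1 - s := fun x => (hrow x).le
  have hss : 1 - (1 - s) = s := by ring
  set q := ex p (fun ω => big K ω o) with hq
  have hqx : ∀ x, ex p (fun ω => big K ω x) = q := fun x =>
    ex_card_eq hT (fun n => if K < (n : ℝ) then (1:ℝ) else 0) x o
  have hq1 : s/16 ≤ q := big_prob hp hs0 hs1 hrow hsq hhalf hT o hloss hK hK2
  set n : ℝ := (Fintype.card V : ℝ) with hn
  have hn0 : 0 < n := by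
    rw [hn]
    have : 0 < Fintype.card V := Fintype.card_pos_iff.2 ⟨o⟩
    exact_mod_cast this
  set N : (Sym2 V → Bool) → ℝ := fun ω => ∑ x, big K ω x with hN
  have hEN : ex p N = n * q := by
    rw [hN, ex_sum]
    simp_rw [hqx]
    rw [Finset.sum_const, Finset.card_univ, nsmul_eq_mul]
  have hEN2 : ex p (fun ω => N ω * N ω) ≤ n * (1/s) + (n*q)*(n*q) := by
    have h1 : ∀ ω : Sym2 V → Bool, N ω * N ω ≤ ∑ x, (((cl ω univ x).card : ℝ)
        + ∑ y, (if y ∈ cl ω univ x then 0 else
          (if K < ((cl ω univ x).card : ℝ) then (1:ℝ) else 0)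
            * (if K < ((cl ω univ y).card : ℝ) then (1:ℝ) else 0))) := by
      intro ω
      simp only [hN]
      rw [Finset.sum_mul_sum]
      refine Finset.sum_le_sum fun x _ => ?_
      have hc := card_cl ω univ x
      calc ∑ y, big K ω x * big K ω y
          ≤ ∑ y, (inC ω univ x y + (if y ∈ cl ω univ x then 0 else
          (if K < ((cl ω univ x).card : ℝ) then (1:ℝ) else 0)
            * (if K < ((cl ω univ y).card : ℝ) then (1:ℝ) else 0))) := by
            refine Finset.sum_le_sum fun y _ => ?_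
            unfold inC big
            split_ifs <;> norm_num
        _ = _ := by rw [Finset.sum_add_distrib, ← hc]
    refine (ex_mono hp h1).trans ?_
    rw [ex_sum]
    have h2 : ∀ x, ex p (fun ω => ((cl ω univ x).card : ℝ)
        + ∑ y, (if y ∈ cl ω univ x then 0 else
          (if K < ((cl ω univ x).card : ℝ) then (1:ℝ) else 0)
            * (if K < ((cl ω univ y).card : ℝ) then (1:ℝ) else 0))) ≤ 1/s + n * (q*q) := by
      intro x
      rw [ex_add, ex_sum]
      have h3 := m1_le hp hβ0 hβ1 hrow'' _ univ le_rfl x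
      rw [hss] at h3
      have h4 : ∀ y, ex p (fun ω => if y ∈ cl ω univ x then 0 else
          (if K < ((cl ω univ x).card : ℝ) then (1:ℝ) else 0)
            * (if K < ((cl ω univ y).card : ℝ) then (1:ℝ) else 0)) ≤ q * q := by
        intro y
        refine (decouple hp univ x y (fun S => if K < (S.card : ℝ) then (1:ℝ) else 0)
          (fun S => if K < (S.card : ℝ) then (1:ℝ) else 0)
          (fun S => by split_ifs <;> norm_num)
          (fun S => by split_ifs <;> norm_num) ?_).trans ?_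
        · intro S T hST
          have : (S.card : ℝ) ≤ T.card := by exact_mod_cast Finset.card_le_card hST
          split_ifs with ha hb hb
          · exact le_rfl
          · exact absurd (lt_of_lt_of_le ha this) hb
          · norm_num
          · exact le_rfl
        · have e1 : ex p (fun ω => if K < ((cl ω univ x).card : ℝ) then (1:ℝ) else 0) = q := hqx x
          have e2 : ex p (fun ω => if K < ((cl ω univ y).card : ℝ) then (1:ℝ) else 0) = q := hqx y
          rw [e1, e2]
      have h5 := Finset.sum_le_sum fun y (_ : y ∈ (univ : Finset V)) => h4 y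
      rw [Finset.sum_const, Finset.card_univ, nsmul_eq_mul] at h5
      linarith
    have h3 := Finset.sum_le_sum fun x (_ : x ∈ (univ : Finset V)) => h2 x
    rw [Finset.sum_const, Finset.card_univ, nsmul_eq_mul] at h3
    have h4 : (Fintype.card V : ℝ) * (1/s + n*(q*q)) = n*(1/s) + (n*q)*(n*q) := by
      rw [← hn]; ring
    linarith
  -- Chebyshev
  set P0 := ex p (fun ω => if ∀ x, ((cl ω univ x).card : ℝ) ≤ K then (1:ℝ) else 0) with hP0
  have h1 : (n*q)^2 * P0 ≤ n * (1/s) := by
    have h2 : ∀ ω : Sym2 V → Bool, (n*q)^2 * (if ∀ x, ((cl ω univ x).card : ℝ) ≤ K then (1:ℝ) else 0)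
        ≤ N ω * N ω - 2 * (n*q) * N ω + (n*q)^2 := by
      intro ω
      split_ifs with h
      · have : N ω = 0 := by
          simp only [hN]
          refine Finset.sum_eq_zero fun x _ => ?_
          unfold big
          rw [if_neg (not_lt.2 (h x))]
        rw [this]; linarith
      · nlinarith [sq_nonneg (N ω - n*q)]
    have h3 := ex_mono hp h2
    rw [ex_smul, ex_add, ex_sub, ex_smul, ex_const, hEN] at h3
    nlinarith
  have hnq : 0 < n * q := mul_pos hn0 (by linarith [hq1, (by positivity : (0:ℝ) < s/16)])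
  have hP0nn : 0 ≤ P0 := ex_nonneg hp fun ω => by split_ifs <;> norm_num
  have h2 : (n * (s/16))^2 * P0 ≤ n * (1/s) := by
    have : (n * (s/16))^2 ≤ (n*q)^2 := by
      apply pow_le_pow_left₀ (by positivity)
      exact mul_le_mul_of_nonneg_left hq1 hn0.le
    exact (mul_le_mul_of_nonneg_right this hP0nn).trans h1
  rw [le_div_iff₀ (by positivity)]
  have h3 : P0 * (s^3 * n) = ((n * (s/16))^2 * P0) * (256 * s / n) := by
    field_simp
    ring
  rw [h3]
  calc ((n * (s/16))^2 * P0) * (256 * s / n) ≤ (n * (1/s)) * (256 * s / n) :=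
        mul_le_mul_of_nonneg_right h2 (by positivity)
    _ = 256 := by field_simp

end Pool.Agent.H890.C
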