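import Pool.Agent.H890.C.Basic

set_option autoImplicit false
set_option linter.unusedSectionVars false
set_option linter.unusedVariables false

/-! Clusters of a random graph inside a vertex set. -/

namespace Pool.Agent.H890.C

open Finset Classical

variable {V : Type} [Fintype V] [DecidableEq V]

/-- reachability by open edges inside `A` -/
inductive Rch (ω : Sym2 V → Bool) (A : Finset V) (x : V) : V → Prop
  | refl (hx : x ∈ A) : Rch ω A x x
  | tail {y z : V} (h : Rch ω A x y) (hz : z ∈ A) (hne : y ≠ z) (ho : ω s(y, z) = true) :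
      Rch ω A x z

theorem Rch.left_mem {ω : Sym2 V → Bool} {A : Finset V} {x y : V} (h : Rch ω A x y) : x ∈ A := by
  induction h with
  | refl hx => exact hx
  | tail _ _ _ _ ih => exact ih

theorem Rch.right_mem {ω : Sym2 V → Bool} {A : Finset V} {x y : V} (h : Rch ω A x y) : y ∈ A := by
  cases h with
  | refl hx => exact hx
  | tail _ hz _ _ => exact hz

theorem Rch.trans {ω : Sym2 V → Bool} {A : Finset V} {x y z : V} (h : Rch ω A x y)
    (h' : Rch ω A y z) : Rch ω A x z := by
  induction h' with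
  | refl _ => exact h
  | tail _ hz hne ho ih => exact ih.tail hz hne ho

theorem Rch.head {ω : Sym2 V → Bool} {A : Finset V} {x y z : V} (hx : x ∈ A) (hne : x ≠ y)
    (ho : ω s(x, y) = true) (h : Rch ω A y z) : Rch ω A x z :=
  ((Rch.refl hx).tail h.left_mem hne ho).trans h

theorem Rch.symm {ω : Sym2 V → Bool} {A : Finset V} {x y : V} (h : Rch ω A x y) :
    Rch ω A y x := by
  induction h with
  | refl hx => exact Rch.refl hx
  | tail _ hz hne ho ih => exact Rch.head hz hne.symm (by rw [Sym2.eq_swap]; exact ho) ih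

theorem Rch.mono_set {ω : Sym2 V → Bool} {A B : Finset V} (hAB : A ⊆ B) {x y : V}
    (h : Rch ω A x y) : Rch ω B x y := by
  induction h with
  | refl hx => exact Rch.refl (hAB hx)
  | tail _ hz hne ho ih => exact ih.tail (hAB hz) hne ho

theorem Rch.mono_cfg {ω ω' : Sym2 V → Bool} {A : Finset V} (hω : ω ≤ ω') {x y : V}
    (h : Rch ω A x y) : Rch ω' A x y := by
  induction h with
  | refl hx => exact Rch.refl hx
  | @tail y z _ hz hne ho ih =>
    refine ih.tail hz hne ?_
    have := hω s(y, z)
    rw [ho] at this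
    exact top_le_iff.1 this

theorem Rch.congr_cfg {ω ω' : Sym2 V → Bool} {A : Finset V}
    (hω : ∀ u ∈ A, ∀ v ∈ A, ω s(u, v) = ω' s(u, v)) {x y : V}
    (h : Rch ω A x y) : Rch ω' A x y := by
  induction h with
  | refl hx => exact Rch.refl hx
  | tail hy hz hne ho ih =>
    refine ih.tail hz hne ?_
    rw [← hω _ hy.right_mem _ hz]
    exact ho

/-- the cluster of `x` inside `A` -/
noncomputable def cl (ω : Sym2 V → Bool) (A : Finset V) (x : V) : Finset V :=
  univ.filter (fun y => Rch ω A x y)

theorem mem_cl {ω : Sym2 V → Bool} {A : Finset V} {x y : V} : y ∈ cl ω A x ↔ Rch ω A x y := by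
  simp [cl]

theorem cl_mono_set {ω : Sym2 V → Bool} {A B : Finset V} (hAB : A ⊆ B) (x : V) :
    cl ω A x ⊆ cl ω B x := by
  intro y hy
  rw [mem_cl] at *
  exact hy.mono_set hAB

theorem cl_mono_cfg {ω ω' : Sym2 V → Bool} (A : Finset V) (hω : ω ≤ ω') (x : V) :
    cl ω A x ⊆ cl ω' A x := by
  intro y hy
  rw [mem_cl] at *
  exact hy.mono_cfg hω

theorem cl_congr {ω ω' : Sym2 V → Bool} {A : Finset V}
    (hω : ∀ u ∈ A, ∀ v ∈ A, ω s(u, v) = ω' s(u, v)) (x : V) : cl ω A x = cl ω' A x := by
  ext y
  rw [mem_cl, mem_cl]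
  exact ⟨fun h => h.congr_cfg hω, fun h => h.congr_cfg (fun u hu v hv => (hω u hu v hv).symm)⟩

theorem cl_subset (ω : Sym2 V → Bool) (A : Finset V) (x : V) : cl ω A x ⊆ A := by
  intro y hy
  rw [mem_cl] at hy
  exact hy.right_mem

theorem cl_eq_of_mem {ω : Sym2 V → Bool} {A : Finset V} {x y : V} (h : y ∈ cl ω A x) :
    cl ω A y = cl ω A x := by
  rw [mem_cl] at h
  ext z
  rw [mem_cl, mem_cl]
  exact ⟨fun h' => h.trans h', fun h' => h.symm.trans h'⟩

/-- vertex removal -/
theorem rch_iff {ω : Sym2 V → Bool} {A : Finset V} {x : V} (hx : x ∈ A) (y : V) :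
    Rch ω A x y ↔ y = x ∨ ∃ w, w ≠ x ∧ ω s(x, w) = true ∧ Rch ω (A.erase x) w y := by
  constructor
  · intro h
    induction h with
    | refl _ => left; rfl
    | @tail u z hu hz hne ho ih =>
      by_cases hzx : z = x
      · left; exact hzx
      right
      rcases ih with rfl | ⟨w, hw, how, hwr⟩
      · exact ⟨z, hzx, ho, Rch.refl (Finset.mem_erase.2 ⟨hzx, hz⟩)⟩
      · exact ⟨w, hw, how, hwr.tail (Finset.mem_erase.2 ⟨hzx, hz⟩) hne ho⟩
  · rintro (rfl | ⟨w, hw, how, hwr⟩)
    · exact Rch.refl hx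
    · exact Rch.head hx hw.symm how (hwr.mono_set (Finset.erase_subset _ _))

/-- if `w'` is not in the cluster of `w`, its cluster is the one in the complement -/
theorem cl_sdiff {ω : Sym2 V → Bool} {A S : Finset V} {w w' : V} (hS : cl ω A w = S)
    (hw : w' ∉ S) : cl ω A w' = cl ω (A \ S) w' := by
  refine Finset.Subset.antisymm ?_ (cl_mono_set Finset.sdiff_subset _)
  intro z hz
  rw [mem_cl] at *
  induction hz with
  | refl hx => exact Rch.refl (Finset.mem_sdiff.2 ⟨hx, hw⟩)
  | @tail y z hy hz hne ho ih =>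
    refine ih.tail (Finset.mem_sdiff.2 ⟨hz, ?_⟩) hne ho
    intro hzS
    have hyS : y ∉ S := (Finset.mem_sdiff.1 ih.right_mem).2
    apply hyS
    rw [← hS, mem_cl] at hzS ⊢
    exact hzS.tail hy.right_mem hne.symm (by rw [Sym2.eq_swap]; exact ho)

/-- the event that the cluster is `S` only depends on the edges touching `S` -/
theorem cl_eq_congr {ω ω' : Sym2 V → Bool} {A S : Finset V} {w : V}
    (h : ∀ u v : V, u ∈ S → ω s(u, v) = ω' s(u, v)) (hS : cl ω A w = S) : cl ω' A w = S := by
  rw [← hS]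
  ext z
  rw [mem_cl, mem_cl]
  constructor
  · intro hz
    induction hz with
    | refl hx => exact Rch.refl hx
    | @tail y z hy hz hne ho ih =>
      refine ih.tail hz hne ?_
      rw [h y z (by rw [← hS, mem_cl]; exact ih)]
      exact ho
  · intro hz
    induction hz with
    | refl hx => exact Rch.refl hx
    | @tail y z hy hz hne ho ih =>
      refine ih.tail hz hne ?_
      rw [← h y z (by rw [← hS, mem_cl]; exact hy)]
      exact ho

theorem decouple {p : Sym2 V → ℝ} (hp : Adm p) (A : Finset V) (w w' : V) (f g : Finset V → ℝ)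
    (hf0 : ∀ S, 0 ≤ f S) (hg0 : ∀ S, 0 ≤ g S) (hgm : ∀ S T, S ⊆ T → g S ≤ g T) :
    ex p (fun ω => if w' ∈ cl ω A w then 0 else f (cl ω A w) * g (cl ω A w'))
      ≤ ex p (fun ω => f (cl ω A w)) * ex p (fun ω => g (cl ω A w')) := by
  have h1 : ∀ ω : Sym2 V → Bool, (if w' ∈ cl ω A w then 0 else f (cl ω A w) * g (cl ω A w'))
      ≤ ∑ S : Finset V, ((if cl ω A w = S then f S else 0) * g (cl ω (A \ S) w')) := by
    intro ω
    have hnn : ∀ S ∈ (univ : Finset (Finset V)),
        0 ≤ ((if cl ω A w = S then f S else 0) * g (cl ω (A \ S) w')) := by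
      intro S _
      split_ifs
      · exact mul_nonneg (hf0 _) (hg0 _)
      · simp
    by_cases h : w' ∈ cl ω A w
    · rw [if_pos h]
      exact Finset.sum_nonneg hnn
    · rw [if_neg h]
      refine le_trans ?_ (Finset.single_le_sum hnn (Finset.mem_univ (cl ω A w)))
      rw [if_pos rfl, cl_sdiff rfl h]
  refine (ex_mono hp h1).trans ?_
  rw [ex_sum]
  have h2 : ∀ S : Finset V, ex p (fun ω => (if cl ω A w = S then f S else 0) * g (cl ω (A \ S) w'))
      ≤ ex p (fun ω => if cl ω A w = S then f S else 0) * ex p (fun ω => g (cl ω A w')) := by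
    intro S
    rw [ex_indep p (fun e => ∃ u ∈ S, u ∈ e)]
    · refine mul_le_mul_of_nonneg_left ?_ (ex_nonneg hp fun ω => by split_ifs <;> simp [hf0])
      exact ex_mono hp fun ω => hgm _ _ (cl_mono_set Finset.sdiff_subset _)
    · intro ω η h
      have : cl ω A w = S ↔ cl η A w = S := by
        constructor
        · exact cl_eq_congr fun u v hu => h _ ⟨u, hu, by simp⟩
        · exact cl_eq_congr fun u v hu => (h _ ⟨u, hu, by simp⟩).symm
      simp only [this]
    · intro ω η h
      have : cl ω (A \ S) w' = cl η (A \ S) w' := by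
        refine cl_congr (fun u hu v hv => h _ ?_) _
        rintro ⟨x, hx, hxe⟩
        rw [Sym2.mem_iff] at hxe
        rcases hxe with rfl | rfl
        · exact (Finset.mem_sdiff.1 hu).2 hx
        · exact (Finset.mem_sdiff.1 hv).2 hx
      simp only [this]
  calc ∑ S : Finset V, ex p (fun ω => (if cl ω A w = S then f S else 0) * g (cl ω (A \ S) w'))
      ≤ ∑ S : Finset V, ex p (fun ω => if cl ω A w = S then f S else 0) *
          ex p (fun ω => g (cl ω A w')) := Finset.sum_le_sum fun S _ => h2 S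
    _ = (∑ S : Finset V, ex p (fun ω => if cl ω A w = S then f S else 0)) *
          ex p (fun ω => g (cl ω A w')) := by rw [Finset.sum_mul]
    _ = _ := by
      rw [← ex_sum]
      congr 2
      ext ω
      simp

end Pool.Agent.H890.C
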