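import Pool.Agent.H890.C.Large

set_option autoImplicit false
set_option linter.unusedSectionVars false
set_option linter.unusedVariables false

/-! A large cluster contains a triangle inside a block. -/

namespace Pool.Agent.H890.C

open Finset Classical

variable {V : Type} [Fintype V] [DecidableEq V] {ι : Type} [Fintype ι] [DecidableEq ι]

/-- the pair `e` lies inside a block with index in `S` -/
def inI (blk : V → ι) (S : Finset ι) (e : Sym2 V) : Prop := ∃ i ∈ S, ∀ v ∈ e, blk v = i

/-- the three edges of the triangle at `v` are open -/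
def TriO (t1 t2 : V → V) (ω : Sym2 V → Bool) (v : V) : Prop :=
  ω s(v, t1 v) = true ∧ ω s(v, t2 v) = true ∧ ω s(t1 v, t2 v) = true

/-- the blocks in `S` touched by the cluster of `o` -/
noncomputable def touch (blk : V → ι) (S : Finset ι) (ω : Sym2 V → Bool) (o : V) : Finset ι :=
  S.filter (fun i => ∃ v ∈ cl ω univ o, blk v = i)

/-- the event: at least `k` blocks of `S` are touched and no triangle in them -/
def EvT (blk : V → ι) (t1 t2 : V → V) (S : Finset ι) (o : V) (k : ℕ) (ω : Sym2 V → Bool) : Prop :=
  k ≤ (touch blk S ω o).card ∧ ∀ v ∈ cl ω univ o, blk v ∈ S → ¬ TriO t1 t2 ω v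

theorem glue_glue (blk : V → ι) (S : Finset ι) {β : ι} (hβ : β ∈ S) (ω1 ω2 η : Sym2 V → Bool) :
    glue (inI blk S) (glue (inI blk {β}) ω1 ω2) η
      = glue (inI blk (S.erase β)) ω2 (glue (inI blk {β}) ω1 η) := by
  ext e
  unfold glue
  have hne : ∃ v, v ∈ e := by
    induction e using Sym2.ind with
    | _ x y => exact ⟨x, by simp⟩
  obtain ⟨v0, hv0⟩ := hne
  by_cases h1 : inI blk {β} e
  · have h2 : inI blk S e := by
      obtain ⟨i, hi, hv⟩ := h1
      rw [Finset.mem_singleton] at hi
      subst hi
      exact ⟨i, hβ, hv⟩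
    have h3 : ¬ inI blk (S.erase β) e := by
      rintro ⟨j, hj, hv'⟩
      obtain ⟨i, hi, hv⟩ := h1
      rw [Finset.mem_singleton] at hi
      subst hi
      have := (hv v0 hv0).symm.trans (hv' v0 hv0)
      exact (Finset.ne_of_mem_erase hj) this.symm
    simp [h1, h2, h3]
  · by_cases h2 : inI blk S e
    · have h3 : inI blk (S.erase β) e := by
        obtain ⟨j, hj, hv⟩ := h2
        refine ⟨j, Finset.mem_erase.2 ⟨?_, hj⟩, hv⟩
        rintro rfl
        exact h1 ⟨j, Finset.mem_singleton_self _, hv⟩
      simp [h1, h2, h3]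
    · have h3 : ¬ inI blk (S.erase β) e := by
        rintro ⟨j, hj, hv⟩
        exact h2 ⟨j, Finset.mem_of_mem_erase hj, hv⟩
      simp [h1, h2, h3]

theorem ev_bound {p : Sym2 V → ℝ} (hp : Adm p) (blk : V → ι) (t1 t2 : V → V) {q : ℝ}
    (hq0 : 0 ≤ q)
    (hb1 : ∀ v, blk (t1 v) = blk v) (hb2 : ∀ v, blk (t2 v) = blk v)
    (hq : ∀ v, ex p (fun ω => if TriO t1 t2 ω v then 0 else 1) ≤ 1 - q) (hq1 : q ≤ 1)
    (o : V) (n : ℕ) : ∀ (S : Finset ι), S.card ≤ n → ∀ (k : ℕ) (η : Sym2 V → Bool),
    ex p (fun ω => if EvT blk t1 t2 S o k (glue (inI blk S) ω η) then 1 else 0) ≤ (1 - q) ^ k := by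
  have hq' : 0 ≤ 1 - q := by linarith
  have hle1 : ∀ (S : Finset ι) (k : ℕ) (η : Sym2 V → Bool),
      ex p (fun ω => if EvT blk t1 t2 S o k (glue (inI blk S) ω η) then (1:ℝ) else 0) ≤ 1 := by
    intro S k η
    calc ex p (fun ω => if EvT blk t1 t2 S o k (glue (inI blk S) ω η) then (1:ℝ) else 0)
        ≤ ex p (fun _ => 1) := ex_mono hp fun ω => by split_ifs <;> norm_num
      _ = 1 := ex_const _ _
  induction n with
  | zero =>
    intro S hS k η
    have hS0 : S = ∅ := by simpa using hS
    subst hS0
    rcases Nat.eq_zero_or_pos k with rfl | hk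
    · rw [pow_zero]; exact hle1 _ _ _
    · have : ∀ ω, (if EvT blk t1 t2 ∅ o k (glue (inI blk ∅) ω η) then (1:ℝ) else 0) = 0 := by
        intro ω
        rw [if_neg]
        rintro ⟨h1, _⟩
        simp [touch] at h1
        omega
      simp_rw [this]
      rw [ex_const]; positivity
  | succ n ih =>
    intro S hS k η
    rcases Nat.eq_zero_or_pos k with rfl | hk
    · rw [pow_zero]; exact hle1 _ _ _
    obtain ⟨k', rfl⟩ : ∃ k', k = k' + 1 := ⟨k - 1, by omega⟩
    set η0 := glue (inI blk S) (fun _ => false) η with hη0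
    by_cases hC : ∃ v ∈ cl η0 univ o, blk v ∈ S
    · obtain ⟨v, hv, hvS⟩ := hC
      set β := blk v with hβ
      rw [ex_glue p (inI blk {β})]
      have hstep : ∀ ω1 : Sym2 V → Bool, ex p (fun ω2 =>
          if EvT blk t1 t2 S o (k'+1) (glue (inI blk S) (glue (inI blk {β}) ω1 ω2) η)
            then (1:ℝ) else 0)
          ≤ (if TriO t1 t2 ω1 v then 0 else 1) * (1 - q) ^ k' := by
        intro ω1
        have hpt : ∀ ω2 : Sym2 V → Bool,
            (if EvT blk t1 t2 S o (k'+1) (glue (inI blk S) (glue (inI blk {β}) ω1 ω2) η)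
              then (1:ℝ) else 0)
            ≤ (if TriO t1 t2 ω1 v then 0 else 1) *
              (if EvT blk t1 t2 (S.erase β) o k'
                (glue (inI blk (S.erase β)) ω2 (glue (inI blk {β}) ω1 η)) then (1:ℝ) else 0) := by
          intro ω2
          rw [glue_glue blk S hvS]
          set ζ := glue (inI blk (S.erase β)) ω2 (glue (inI blk {β}) ω1 η) with hζ
          by_cases hE : EvT blk t1 t2 S o (k'+1) ζ
          swap
          · rw [if_neg hE]
            refine mul_nonneg ?_ ?_ <;> split_ifs <;> norm_num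
          · have hvC : v ∈ cl ζ univ o := by
              refine cl_mono_cfg univ ?_ o hv
              intro e
              rw [hη0, hζ]
              unfold glue
              by_cases h1 : inI blk S e
              · simp [h1]
              · have h2 : ¬ inI blk (S.erase β) e := by
                  rintro ⟨j, hj, hv⟩
                  exact h1 ⟨j, Finset.mem_of_mem_erase hj, hv⟩
                have h3 : ¬ inI blk {β} e := by
                  rintro ⟨j, hj, hv⟩
                  rw [Finset.mem_singleton] at hj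
                  subst hj
                  exact h1 ⟨_, hvS, hv⟩
                simp [h1, h2, h3]
            have hζω : ∀ x y : V, blk x = β → blk y = β → ζ s(x, y) = ω1 s(x, y) := by
              intro x y hx hy
              rw [hζ]
              unfold glue
              have h2 : ¬ inI blk (S.erase β) s(x, y) := by
                rintro ⟨j, hj, hv⟩
                have := hv x (by simp)
                rw [hx] at this
                exact (Finset.ne_of_mem_erase hj) this.symm
              have h3 : inI blk {β} s(x, y) := by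
                refine ⟨β, Finset.mem_singleton_self _, ?_⟩
                intro u hu
                rw [Sym2.mem_iff] at hu
                rcases hu with rfl | rfl
                · exact hx
                · exact hy
              simp [h2, h3]
            have hT : ¬ TriO t1 t2 ω1 v := by
              intro hT
              apply hE.2 v hvC hvS
              obtain ⟨a1, a2, a3⟩ := hT
              refine ⟨?_, ?_, ?_⟩
              · rw [hζω _ _ rfl (hb1 v)]; exact a1
              · rw [hζω _ _ rfl (hb2 v)]; exact a2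
              · rw [hζω _ _ (hb1 v) (hb2 v)]; exact a3
            have hE' : EvT blk t1 t2 (S.erase β) o k' ζ := by
              refine ⟨?_, fun u hu huS => hE.2 u hu (Finset.mem_of_mem_erase huS)⟩
              have h1 := hE.1
              have h2 : touch blk S ζ o ⊆ insert β (touch blk (S.erase β) ζ o) := by
                intro i hi
                unfold touch at hi ⊢
                rw [Finset.mem_filter] at hi
                by_cases hiβ : i = β
                · rw [hiβ]; exact Finset.mem_insert_self _ _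
                · refine Finset.mem_insert_of_mem ?_
                  rw [Finset.mem_filter]
                  exact ⟨Finset.mem_erase.2 ⟨hiβ, hi.1⟩, hi.2⟩
              have h3 := (Finset.card_le_card h2).trans (Finset.card_insert_le _ _)
              omega
            rw [if_pos hE, if_neg hT, if_pos hE']; norm_num
        refine (ex_mono hp hpt).trans ?_
        rw [ex_smul]
        refine mul_le_mul_of_nonneg_left ?_ (by split_ifs <;> norm_num)
        refine ih (S.erase β) ?_ k' _
        rw [Finset.card_erase_of_mem hvS]; omega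
      refine (ex_mono hp hstep).trans ?_
      rw [ex_mul_const, pow_succ, mul_comm]
      exact mul_le_mul_of_nonneg_left (hq v) (pow_nonneg hq' _)
    · push Not at hC
      have h0 : ∀ ω : Sym2 V → Bool, cl (glue (inI blk S) ω η) univ o ⊆ cl η0 univ o := by
        intro ω z hz
        rw [mem_cl] at hz
        induction hz with
        | refl _ => exact mem_cl.2 (Rch.refl (mem_univ _))
        | @tail y z hy hz hne ho ihy =>
          rw [mem_cl] at ihy ⊢
          refine ihy.tail (mem_univ _) hne ?_
          have h1 : ¬ inI blk S s(y, z) := by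
            rintro ⟨i, hi, hv⟩
            have := hv y (by simp)
            exact hC y (mem_cl.2 ihy) (this ▸ hi)
          rw [hη0]
          unfold glue at ho ⊢
          rw [if_neg h1] at ho ⊢
          exact ho
      have : ∀ ω, (if EvT blk t1 t2 S o (k'+1) (glue (inI blk S) ω η) then (1:ℝ) else 0) = 0 := by
        intro ω
        rw [if_neg]
        rintro ⟨h1, _⟩
        have h2 : touch blk S (glue (inI blk S) ω η) o = ∅ := by
          unfold touch
          rw [Finset.filter_eq_empty_iff]
          rintro i hi ⟨v, hv, rfl⟩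
          exact hC v (h0 ω hv) hi
        rw [h2] at h1
        simp at h1
      simp_rw [this]
      rw [ex_const]; positivity

theorem tri_bound {p : Sym2 V → ℝ} (hp : Adm p) (blk : V → ι) (t1 t2 : V → V) {q : ℝ}
    (hq0 : 0 ≤ q)
    (hb1 : ∀ v, blk (t1 v) = blk v) (hb2 : ∀ v, blk (t2 v) = blk v)
    (hq : ∀ v, ex p (fun ω => if TriO t1 t2 ω v then 0 else 1) ≤ 1 - q) (hq1 : q ≤ 1)
    {b : ℕ} (hb : ∀ i, (univ.filter (fun v => blk v = i)).card ≤ b) (o : V) (k : ℕ) :
    ex p (fun ω => if (b * k : ℕ) < (cl ω univ o).card ∧ ∀ v ∈ cl ω univ o, ¬ TriO t1 t2 ω v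
      then 1 else 0) ≤ (1 - q) ^ k := by
  have h1 : ∀ ω : Sym2 V → Bool, (if (b * k : ℕ) < (cl ω univ o).card ∧
      ∀ v ∈ cl ω univ o, ¬ TriO t1 t2 ω v then (1:ℝ) else 0)
      ≤ if EvT blk t1 t2 univ o k ω then 1 else 0 := by
    intro ω
    by_cases h : (b * k : ℕ) < (cl ω univ o).card ∧ ∀ v ∈ cl ω univ o, ¬ TriO t1 t2 ω v
    · rw [if_pos h, if_pos]
      refine ⟨?_, fun v hv _ => h.2 v hv⟩
      have h2 : (cl ω univ o).card ≤ (touch blk univ ω o).card * b := by
        have : cl ω univ o ⊆ (touch blk univ ω o).biUnion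
            (fun i => univ.filter (fun v => blk v = i)) := by
          intro v hv
          rw [Finset.mem_biUnion]
          refine ⟨blk v, ?_, by simp⟩
          unfold touch
          rw [Finset.mem_filter]
          exact ⟨mem_univ _, v, hv, rfl⟩
        exact (Finset.card_le_card this).trans (Finset.card_biUnion_le_card_mul _ _ _
          fun i _ => hb i)
      by_contra hcon
      push Not at hcon
      have h3 : (touch blk univ ω o).card * b ≤ k * b := Nat.mul_le_mul_right b hcon.le
      have h4 := h.1
      rw [mul_comm k b] at h3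
      omega
    · rw [if_neg h]; split_ifs <;> norm_num
  refine (ex_mono hp h1).trans ?_
  rw [ex_glue p (inI blk univ)]
  have h2 : ex p (fun ω => ex p (fun η =>
        if EvT blk t1 t2 univ o k (glue (inI blk univ) ω η) then (1:ℝ) else 0))
      = ex p (fun η => ex p (fun ω =>
        if EvT blk t1 t2 univ o k (glue (inI blk univ) ω η) then (1:ℝ) else 0)) := by
    unfold ex
    simp_rw [Finset.mul_sum]
    rw [Finset.sum_comm]
    refine Finset.sum_congr rfl fun η _ => Finset.sum_congr rfl fun ω _ => ?_
    ring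
  rw [h2]
  calc _ ≤ ex p (fun _ => (1 - q) ^ k) := ex_mono hp fun η =>
        ev_bound hp blk t1 t2 hq0 hb1 hb2 hq hq1 o _ univ le_rfl k η
    _ = _ := ex_const _ _

/-- probability that the triangle at `v` is not open -/
theorem triO_prob {p : Sym2 V → ℝ} (hp : Adm p) (t1 t2 : V → V) {q : ℝ} (hq0 : 0 ≤ q) (v : V)
    (h12 : t1 v ≠ t2 v) (h1 : v ≠ t1 v) (h2 : v ≠ t2 v)
    (hp1 : q ≤ p s(v, t1 v)) (hp2 : q ≤ p s(v, t2 v)) (hp3 : q ≤ p s(t1 v, t2 v)) :
    ex p (fun ω => if TriO t1 t2 ω v then 0 else 1) ≤ 1 - q ^ 3 := by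
  have e1 : (fun ω : Sym2 V → Bool => if TriO t1 t2 ω v then (0:ℝ) else 1)
      = fun ω => 1 - (if ω s(v, t1 v) = true then 1 else 0) *
        ((if ω s(v, t2 v) = true then 1 else 0) * (if ω s(t1 v, t2 v) = true then 1 else 0)) := by
    ext ω
    unfold TriO
    by_cases a1 : ω s(v, t1 v) = true <;> by_cases a2 : ω s(v, t2 v) = true <;>
      by_cases a3 : ω s(t1 v, t2 v) = true <;> simp [a1, a2, a3]
  rw [e1, ex_sub, ex_const, ex_coord_mul, ex_coord_mul, ex_coord]
  · have : q ^ 3 ≤ p s(v, t1 v) * (p s(v, t2 v) * p s(t1 v, t2 v)) := by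
      have a : q * (q * q) ≤ p s(v, t1 v) * (p s(v, t2 v) * p s(t1 v, t2 v)) :=
        mul_le_mul hp1 (mul_le_mul hp2 hp3 hq0 (hp _).1) (mul_nonneg hq0 hq0) (hp _).1
      calc q ^ 3 = q * (q * q) := by ring
        _ ≤ _ := a
    linarith
  · intro ω η h
    rw [h _ ?_]
    intro hc
    rw [Sym2.eq_iff] at hc
    rcases hc with ⟨hc, _⟩ | ⟨_, hc⟩
    · exact h1 hc.symm
    · exact h2 hc.symm
  · intro ω η h
    rw [h s(v, t2 v) ?_, h s(t1 v, t2 v) ?_]
    · intro hc
      rw [Sym2.eq_iff] at hc
      rcases hc with ⟨hc, _⟩ | ⟨_, hc⟩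
      · exact h1 hc.symm
      · exact h2 hc.symm
    · intro hc
      rw [Sym2.eq_iff] at hc
      rcases hc with ⟨_, hc⟩ | ⟨hc, _⟩
      · exact h12 hc.symm
      · exact h1 hc

end Pool.Agent.H890.C
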