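import Pool.Agent.H890.C.Kernel
import Pool.Agent.H890.C.Tri

set_option autoImplicit false
set_option linter.unusedSectionVars false
set_option linter.unusedVariables false

/-! The finite statement: every largest cluster contains a triangle with high probability. -/

namespace Pool.Agent.H890.C

open Finset Classical

variable {V : Type} [Fintype V] [DecidableEq V] {ι : Type} [Fintype ι] [DecidableEq ι]

/-- some largest cluster contains no open triangle of the family -/
def Bad (t1 t2 : V → V) (ω : Sym2 V → Bool) : Prop :=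
  ∃ x, (∀ y, (cl ω univ y).card ≤ (cl ω univ x).card) ∧ ∀ v ∈ cl ω univ x, ¬ TriO t1 t2 ω v

theorem bad_bound {p p' : Sym2 V → ℝ} {c s σ : ℝ} (h : KH p c s σ) (hT : Trans p)
    (hσ : σ ≤ 1/8) (hhalf : ∀ e, p e ≤ 1/2)
    (hσs : σ ≤ c^2 * s / 32) (hsn : 48 ≤ s^3 * Fintype.card V)
    (hp' : Adm p') (hpp : ∀ e, p e ≤ p' e)
    (blk : V → ι) (t1 t2 : V → V) {q : ℝ} (hq0 : 0 ≤ q) (hq1 : q ≤ 1)
    (hb1 : ∀ v, blk (t1 v) = blk v) (hb2 : ∀ v, blk (t2 v) = blk v)
    (hq : ∀ v, ex p' (fun ω => if TriO t1 t2 ω v then 0 else 1) ≤ 1 - q)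
    {b : ℕ} (hb : ∀ i, (univ.filter (fun v => blk v = i)).card ≤ b) (k : ℕ)
    (hK : 1 ≤ b * k) (hK2 : 6 * Real.sqrt ((b * k : ℕ) : ℝ) ≤ 1/(4*s)) :
    ex p' (fun ω => if Bad t1 t2 ω then 1 else 0)
      ≤ 256 / (s^3 * Fintype.card V) + Fintype.card V * (1 - q) ^ k := by
  have h1 : ∀ ω : Sym2 V → Bool, (if Bad t1 t2 ω then (1:ℝ) else 0)
      ≤ (if ∀ x, ((cl ω univ x).card : ℝ) ≤ ((b * k : ℕ) : ℝ) then 1 else 0)
        + ∑ o, (if (b * k : ℕ) < (cl ω univ o).card ∧ ∀ v ∈ cl ω univ o, ¬ TriO t1 t2 ω v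
          then 1 else 0) := by
    intro ω
    have hnn : ∀ o ∈ (univ : Finset V), (0:ℝ) ≤ (if (b * k : ℕ) < (cl ω univ o).card ∧
        ∀ v ∈ cl ω univ o, ¬ TriO t1 t2 ω v then 1 else 0) := by
      intro o _; split_ifs <;> norm_num
    by_cases hB : Bad t1 t2 ω
    · rw [if_pos hB]
      by_cases hA : ∀ x, ((cl ω univ x).card : ℝ) ≤ ((b * k : ℕ) : ℝ)
      · rw [if_pos hA]
        have := Finset.sum_nonneg hnn
        linarith
      · rw [if_neg hA]
        push Not at hA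
        obtain ⟨y, hy⟩ := hA
        obtain ⟨x, hx1, hx2⟩ := hB
        have h2 : (b * k : ℕ) < (cl ω univ x).card := by
          have : (b * k : ℕ) < (cl ω univ y).card := by exact_mod_cast hy
          exact lt_of_lt_of_le this (hx1 y)
        have h3 := Finset.single_le_sum hnn (Finset.mem_univ x)
        rw [if_pos ⟨h2, hx2⟩] at h3
        linarith
    · rw [if_neg hB]
      have := Finset.sum_nonneg hnn
      have : (0:ℝ) ≤ (if ∀ x, ((cl ω univ x).card : ℝ) ≤ ((b * k : ℕ) : ℝ) then 1 else 0) := by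
        split_ifs <;> norm_num
      linarith
  refine (ex_mono hp' h1).trans ?_
  rw [ex_add, ex_sum]
  refine add_le_add ?_ ?_
  · have h2 : ex p' (fun ω => if ∀ x, ((cl ω univ x).card : ℝ) ≤ ((b * k : ℕ) : ℝ) then (1:ℝ) else 0)
        ≤ ex p (fun ω => if ∀ x, ((cl ω univ x).card : ℝ) ≤ ((b * k : ℕ) : ℝ) then (1:ℝ) else 0) := by
      have h3 : Monotone (fun ω : Sym2 V → Bool =>
          1 - (if ∀ x, ((cl ω univ x).card : ℝ) ≤ ((b * k : ℕ) : ℝ) then (1:ℝ) else 0)) := by
        intro ω η hωη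
        have h4 : (∀ x, ((cl η univ x).card : ℝ) ≤ ((b * k : ℕ) : ℝ)) →
            (∀ x, ((cl ω univ x).card : ℝ) ≤ ((b * k : ℕ) : ℝ)) := by
          intro hx x
          refine le_trans ?_ (hx x)
          exact_mod_cast Finset.card_le_card (cl_mono_cfg univ hωη x)
        dsimp only
        split_ifs with ha hb hb
        · exact le_rfl
        · norm_num
        · exact absurd (h4 hb) ha
        · exact le_rfl
      have h4 := ex_le_of_le h.adm hp' hpp h3
      rw [ex_sub, ex_sub, ex_const, ex_const] at h4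
      linarith
    exact h2.trans (h.exists_big hT hσ hhalf hσs hsn (by exact_mod_cast hK) hK2)
  · calc ∑ o, ex p' (fun ω => if (b * k : ℕ) < (cl ω univ o).card ∧
          ∀ v ∈ cl ω univ o, ¬ TriO t1 t2 ω v then (1:ℝ) else 0)
        ≤ ∑ _o : V, (1 - q) ^ k := Finset.sum_le_sum fun o _ =>
          tri_bound hp' blk t1 t2 hq0 hb1 hb2 hq hq1 hb o k
      _ = _ := by rw [Finset.sum_const, Finset.card_univ, nsmul_eq_mul]

end Pool.Agent.H890.C
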