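import Pool.Agent.H890.C.Large

set_option autoImplicit false
set_option linter.unusedSectionVars false
set_option linter.unusedVariables false

/-! Upper bound for the tail of the cluster size, and existence of large clusters. -/

namespace Pool.Agent.H890.C

open Finset Classical

variable {V : Type} [Fintype V] [DecidableEq V]

theorem card_le_one_add (ω : Sym2 V → Bool) (o : V) :
    (cl ω univ o).card ≤ 1 + ∑ y, (if ω s(o, y) = true then (cl ω (univ.erase o) y).card else 0) := by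
  have h1 : cl ω univ o ⊆ insert o ((univ.filter (fun y => ω s(o, y) = true)).biUnion
      (fun y => cl ω (univ.erase o) y)) := by
    intro z hz
    rw [mem_cl, rch_iff (mem_univ o)] at hz
    rcases hz with rfl | ⟨w, hw, how, hwr⟩
    · exact Finset.mem_insert_self _ _
    · refine Finset.mem_insert_of_mem ?_
      rw [Finset.mem_biUnion]
      exact ⟨w, by simp [how], mem_cl.2 hwr⟩
  refine (Finset.card_le_card h1).trans ((Finset.card_insert_le _ _).trans ?_)
  have h2 := Finset.card_biUnion_le (s := univ.filter (fun y => ω s(o, y) = true))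
    (t := fun y => cl ω (univ.erase o) y)
  rw [Finset.sum_filter] at h2
  omega

theorem one_sub_ge_exp {a : ℝ} (h0 : 0 ≤ a) (h1 : a ≤ 1/2) : Real.exp (-a - a^2) ≤ 1 - a := by
  have h2 : 1 + (a + a^2) + (a + a^2)^2 / 2 ≤ Real.exp (a + a^2) :=
    Real.quadratic_le_exp_of_nonneg (by positivity)
  have h3 : 1 ≤ (1 - a) * Real.exp (a + a^2) := by
    have h4 : (1 - a) * (1 + (a + a^2) + (a + a^2)^2 / 2) ≤ (1 - a) * Real.exp (a + a^2) :=
      mul_le_mul_of_nonneg_left h2 (by linarith)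
    have h5 : 1 ≤ (1 - a) * (1 + (a + a^2) + (a + a^2)^2 / 2) := by
      have : (1 - a) * (1 + (a + a^2) + (a + a^2)^2 / 2)
          = 1 + a^2 / 2 * (1 - a - a^2 - a^3) := by ring
      rw [this]
      have h6 : 0 ≤ 1 - a - a^2 - a^3 := by nlinarith [mul_nonneg h0 h0, mul_nonneg (mul_nonneg h0 h0) h0]
      have : 0 ≤ a^2 / 2 * (1 - a - a^2 - a^3) := mul_nonneg (by positivity) h6
      linarith
    linarith
  have h6 : Real.exp (-a - a^2) = (Real.exp (a + a^2))⁻¹ := by
    rw [← Real.exp_neg]; congr 1; ring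
  rw [h6]
  have h7 := Real.exp_pos (a + a^2)
  rw [inv_le_iff_one_le_mul₀ h7]
  exact h3

theorem exp_neg_ge {t : ℝ} (h1 : t ≤ 2) : 1 - t + t^2/4 ≤ Real.exp (-t) := by
  have h2 : 1 - t/2 ≤ Real.exp (-(t/2)) := by
    have := Real.add_one_le_exp (-(t/2)); linarith
  have h3 : Real.exp (-t) = Real.exp (-(t/2)) ^ 2 := by
    rw [← Real.exp_nat_mul]; congr 1; push_cast; ring
  rw [h3]
  have h4 : 0 ≤ 1 - t/2 := by linarith
  nlinarith

theorem ghost_bound {p : Sym2 V → ℝ} (hp : Adm p) (hrow : ∀ x, ∑ w, p s(x, w) ≤ 1)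
    (hsq : ∀ x, ∑ w, p s(x, w) ^ 2 ≤ 1/8) (hhalf : ∀ e, p e ≤ 1/2) (hT : Trans p)
    {h : ℝ} (h0 : 0 ≤ h) (h1 : h ≤ 1) (o : V) :
    (1 - ex p (fun ω => (1 - h) ^ (cl ω univ o).card)) ^ 2 ≤ 8 * h ∧
    0 ≤ 1 - ex p (fun ω => (1 - h) ^ (cl ω univ o).card) := by
  set z := 1 - h with hz
  have hz0 : 0 ≤ z := by rw [hz]; linarith
  have hz1 : z ≤ 1 := by rw [hz]; linarith
  set M := 1 - ex p (fun ω => z ^ (cl ω univ o).card) with hM
  set B := (univ : Finset V).erase o with hB
  have hoB : o ∉ B := Finset.notMem_erase o univ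
  have hM0 : 0 ≤ M := by
    have : ex p (fun ω => z ^ (cl ω univ o).card) ≤ ex p (fun _ => 1) :=
      ex_mono hp fun ω => pow_le_one₀ hz0 hz1
    rw [ex_const] at this
    rw [hM]; linarith
  have hM1 : M ≤ 1 := by
    have : 0 ≤ ex p (fun ω => z ^ (cl ω univ o).card) :=
      ex_nonneg hp fun ω => pow_nonneg hz0 _
    rw [hM]; linarith
  refine ⟨?_, hM0⟩
  let f : V → (Sym2 V → Bool) → ℝ := fun y ω => 1 - xi ω o y * (1 - z ^ (cl ω B y).card)
  have hf0 : ∀ y ω, 0 ≤ f y ω := by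
    intro y ω
    simp only [f]
    unfold xi
    have : 0 ≤ z ^ (cl ω B y).card := pow_nonneg hz0 _
    split_ifs
    · linarith
    · norm_num
  have hf1 : ∀ y ω, f y ω ≤ 1 := by
    intro y ω
    simp only [f]
    unfold xi
    have : z ^ (cl ω B y).card ≤ 1 := pow_le_one₀ hz0 hz1
    split_ifs
    · linarith
    · norm_num
  have hfa : ∀ y, Antitone (f y) := by
    intro y ω η hωη
    simp only [f]
    unfold xi
    by_cases ha : ω s(o, y) = true
    · have hb : η s(o, y) = true := by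
        have := hωη s(o, y)
        rw [ha] at this
        exact top_le_iff.1 this
      rw [if_pos ha, if_pos hb]
      have : z ^ (cl η B y).card ≤ z ^ (cl ω B y).card :=
        pow_le_pow_of_le_one hz0 hz1 (Finset.card_le_card (cl_mono_cfg B hωη y))
      linarith
    · rw [if_neg ha]
      have : z ^ (cl η B y).card ≤ 1 := pow_le_one₀ hz0 hz1
      split_ifs <;> linarith
  have hpt : ∀ ω : Sym2 V → Bool, z * ∏ y, f y ω ≤ z ^ (cl ω univ o).card := by
    intro ω
    have h2 := pow_le_pow_of_le_one hz0 hz1 (card_le_one_add ω o)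
    refine le_trans (le_of_eq ?_) h2
    rw [pow_add, pow_one, ← Finset.prod_pow_eq_pow_sum]
    congr 1
    refine Finset.prod_congr rfl fun y _ => ?_
    simp only [f]
    unfold xi
    by_cases ha : ω s(o, y) = true
    · rw [if_pos ha, if_pos ha]; ring
    · rw [if_neg ha, if_neg ha]; simp
  have h2 : z * ∏ y, ex p (f y) ≤ 1 - M := by
    have e1 := ex_mono hp hpt
    rw [ex_smul] at e1
    have e2 := ex_fkg_prod hp univ f hf0 hf1 hfa
    have e3 : ex p (fun ω => z ^ (cl ω univ o).card) = 1 - M := by rw [hM]; ring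
    rw [e3] at e1
    exact (mul_le_mul_of_nonneg_left e2 hz0).trans e1
  have h3 : ∀ y, 1 - p s(o, y) * M ≤ ex p (f y) := by
    intro y
    simp only [f]
    rw [ex_sub, ex_const, ex_edge_mul p hoB y (InDep.cl y (fun S => 1 - z ^ S.card))]
    rw [ex_sub, ex_const]
    have : ex p (fun ω => z ^ (cl ω univ y).card) ≤ ex p (fun ω => z ^ (cl ω B y).card) :=
      ex_mono hp fun ω => pow_le_pow_of_le_one hz0 hz1
        (Finset.card_le_card (cl_mono_set (Finset.subset_univ _) y))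
    rw [ex_card_eq hT (fun n => z ^ n) y o] at this
    have h5 : 1 - ex p (fun ω => z ^ (cl ω B y).card) ≤ M := by rw [hM]; linarith
    have := mul_le_mul_of_nonneg_left h5 (hp s(o, y)).1
    linarith
  have h4 : Real.exp (-(M + M^2/8)) ≤ ∏ y, (1 - p s(o, y) * M) := by
    have h5 : ∏ y, Real.exp (-(p s(o, y) * M) - (p s(o, y) * M)^2) ≤ ∏ y, (1 - p s(o, y) * M) := by
      refine Finset.prod_le_prod (fun y _ => (Real.exp_pos _).le) fun y _ => ?_
      refine one_sub_ge_exp (mul_nonneg (hp _).1 hM0) ?_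
      have := hhalf s(o, y)
      have := (hp s(o, y)).1
      nlinarith
    refine le_trans ?_ h5
    rw [← Real.exp_sum]
    apply Real.exp_le_exp.2
    have h6 : ∑ y, (-(p s(o, y) * M) - (p s(o, y) * M)^2)
        = -((∑ y, p s(o, y)) * M + (∑ y, p s(o, y)^2) * M^2) := by
      rw [Finset.sum_mul, Finset.sum_mul, ← Finset.sum_add_distrib, ← Finset.sum_neg_distrib]
      exact Finset.sum_congr rfl fun y _ => by ring
    rw [h6]
    have h7 := mul_le_mul_of_nonneg_right (hrow o) hM0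
    have h8 := mul_le_mul_of_nonneg_right (hsq o) (sq_nonneg M)
    linarith
  have h5 : ∏ y, (1 - p s(o, y) * M) ≤ ∏ y, ex p (f y) := by
    refine Finset.prod_le_prod (fun y _ => ?_) fun y _ => h3 y
    have := (hp s(o, y)).2
    have := (hp s(o, y)).1
    nlinarith
  have h6 : 1 - (M + M^2/8) + (M + M^2/8)^2/4 ≤ Real.exp (-(M + M^2/8)) :=
    exp_neg_ge (by nlinarith)
  have h7 : 1 - M + M^2/8 ≤ ∏ y, ex p (f y) := by
    have : 1 - M + M^2/8 ≤ 1 - (M + M^2/8) + (M + M^2/8)^2/4 := by nlinarith [mul_nonneg hM0 hM0]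
    linarith
  have h8 : z * (1 - M + M^2/8) ≤ 1 - M := (mul_le_mul_of_nonneg_left h7 hz0).trans h2
  rw [hz] at h8
  nlinarith [mul_nonneg hM0 (by linarith : (0:ℝ) ≤ 1 - M)]

theorem n_le_trunc {K : ℝ} (hK : 1 ≤ K) (n : ℕ) (hn : (n : ℝ) ≤ K) :
    (n : ℝ) ≤ 2 * K * (1 - (1 - 1/K) ^ n) := by
  have hK0 : 0 < K := by linarith
  set h := 1/K with hh
  have h0 : 0 < h := by positivity
  have h1 : h ≤ 1 := by rw [hh, div_le_one hK0]; exact hK
  have hnh : (n : ℝ) * h ≤ 1 := by rw [hh]; rw [mul_one_div, div_le_one hK0]; exact hn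
  have h2 : 1 + (n : ℝ) * h ≤ (1 + h) ^ n := one_add_mul_le_pow (by linarith) n
  have h3 : (1 - h) ^ n * (1 + h) ^ n ≤ 1 := by
    rw [← mul_pow]
    refine pow_le_one₀ ?_ ?_
    · nlinarith
    · nlinarith
  have h4 : (0:ℝ) ≤ (1 - h) ^ n := pow_nonneg (by linarith) n
  have h5 : (1 - h) ^ n * (1 + (n : ℝ) * h) ≤ 1 := by nlinarith
  have h6 : (n : ℝ) * h / 2 ≤ 1 - (1 - h) ^ n := by
    have hx : 0 ≤ (n : ℝ) * h := by positivity
    nlinarith
  have h7 : (n : ℝ) = 2 * K * ((n : ℝ) * h / 2) := by rw [hh]; field_simp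
  calc (n : ℝ) = 2 * K * ((n : ℝ) * h / 2) := h7
    _ ≤ _ := mul_le_mul_of_nonneg_left h6 (by positivity)

/-- indicator that the cluster of `x` has more than `K` vertices -/
noncomputable def big (K : ℝ) (ω : Sym2 V → Bool) (x : V) : ℝ :=
  if K < ((cl ω univ x).card : ℝ) then 1 else 0

theorem trunc_le {p : Sym2 V → ℝ} (hp : Adm p) (hrow : ∀ x, ∑ w, p s(x, w) ≤ 1)
    (hsq : ∀ x, ∑ w, p s(x, w) ^ 2 ≤ 1/8) (hhalf : ∀ e, p e ≤ 1/2) (hT : Trans p)
    {K : ℝ} (hK : 1 ≤ K) (o : V) :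
    ex p (fun ω => ((cl ω univ o).card : ℝ) * (1 - big K ω o)) ≤ 6 * Real.sqrt K := by
  have hK0 : 0 < K := by linarith
  obtain ⟨h1, h2⟩ := ghost_bound hp hrow hsq hhalf hT (h := 1/K) (by positivity)
    (by rw [div_le_one hK0]; exact hK) o
  set M := 1 - ex p (fun ω => (1 - 1/K) ^ (cl ω univ o).card) with hM
  have h3 : ∀ ω : Sym2 V → Bool, ((cl ω univ o).card : ℝ) * (1 - big K ω o)
      ≤ 2 * K * (1 - (1 - 1/K) ^ (cl ω univ o).card) := by
    intro ω
    unfold big
    split_ifs with h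
    · have : (1 - 1/K) ^ (cl ω univ o).card ≤ 1 := by
        refine pow_le_one₀ ?_ ?_
        · have : 1/K ≤ 1 := by rw [div_le_one hK0]; exact hK
          linarith
        · have : 0 < 1/K := by positivity
          linarith
      have : 0 ≤ 2 * K * (1 - (1 - 1/K) ^ (cl ω univ o).card) :=
        mul_nonneg (by positivity) (by linarith)
      linarith
    · push Not at h
      have := n_le_trunc hK _ h
      linarith
  have h4 := ex_mono hp h3
  rw [ex_smul, ex_sub, ex_const] at h4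
  refine h4.trans ?_
  have h5 : 0 ≤ Real.sqrt K := Real.sqrt_nonneg K
  have h6 : Real.sqrt K ^ 2 = K := Real.sq_sqrt hK0.le
  have h7 : (2 * K * M) ^ 2 ≤ (6 * Real.sqrt K) ^ 2 := by
    rw [mul_pow, mul_pow, mul_pow, h6]
    have h8 : K ^ 2 * M ^ 2 ≤ K ^ 2 * (8 * (1 / K)) := mul_le_mul_of_nonneg_left h1 (by positivity)
    have h9 : K ^ 2 * (8 * (1 / K)) = 8 * K := by field_simp
    nlinarith
  exact abs_le_of_sq_le_sq' h7 (by positivity) |>.2

end Pool.Agent.H890.C
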