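import Pool.Agent.H890.C.Finite

set_option autoImplicit false
set_option linter.unusedSectionVars false
set_option linter.unusedVariables false

/-! Combinatorics of the hierarchical group. -/

namespace Pool.Agent.H890.C

open Finset Classical

/-- the ball `Λ_n` of the hierarchical group -/
abbrev Ball (d L n : ℕ) := Fin n → Fin d → ZMod L

/-- the largest index `i ∈ {1,…,n}` with `x_i ≠ 0`, and `0` for `x = 0` -/
def lev {d L n : ℕ} (x : Ball d L n) : ℕ :=
  univ.sup (fun i : Fin n => if x i = 0 then 0 else (i : ℕ) + 1)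

variable {d L n : ℕ}

theorem lev_le (x : Ball d L n) : lev x ≤ n := by
  unfold lev
  refine Finset.sup_le fun i _ => ?_
  split_ifs
  · omega
  · have := i.2; omega

theorem lev_le_iff (x : Ball d L n) (i : ℕ) : lev x ≤ i ↔ ∀ j : Fin n, i ≤ (j : ℕ) → x j = 0 := by
  unfold lev
  rw [Finset.sup_le_iff]
  constructor
  · intro h j hj
    have := h j (mem_univ j)
    by_contra hx
    rw [if_neg hx] at this
    omega
  · intro h j _
    split_ifs with hx
    · omega
    · by_contra hcon
      exact hx (h j (by omega))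

theorem lev_eq_zero (x : Ball d L n) : lev x = 0 ↔ x = 0 := by
  rw [← Nat.le_zero, lev_le_iff]
  constructor
  · intro h; ext j; rw [h j (Nat.zero_le _)]; rfl
  · rintro rfl j _; rfl

theorem lev_neg (x : Ball d L n) : lev (-x) = lev x := by
  unfold lev
  congr 1
  ext i
  simp

theorem lev_sub_comm (x y : Ball d L n) : lev (x - y) = lev (y - x) := by
  rw [← lev_neg, neg_sub]

/-- symmetric function of a pair depending only on the level of the difference -/
def levP (f : ℕ → ℝ) : Sym2 (Ball d L n) → ℝ :=
  Sym2.lift ⟨fun x y => f (lev (x - y)), fun x y => by simp only [lev_sub_comm x y]⟩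

@[simp] theorem levP_mk (f : ℕ → ℝ) (x y : Ball d L n) : levP f s(x, y) = f (lev (x - y)) := rfl

variable [NeZero L]

theorem card_lev_le (i : ℕ) (hi : i ≤ n) :
    (univ.filter (fun x : Ball d L n => lev x ≤ i)).card = (L ^ d) ^ i := by
  have h1 : (univ.filter (fun x : Ball d L n => lev x ≤ i))
      = Fintype.piFinset (fun j : Fin n => if (j : ℕ) < i then (univ : Finset (Fin d → ZMod L))
          else {0}) := by
    ext x
    rw [Finset.mem_filter, Fintype.mem_piFinset, lev_le_iff]
    constructor
    · rintro ⟨_, h⟩ j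
      split_ifs with hj
      · exact mem_univ _
      · rw [h j (by omega)]; simp
    · intro h
      refine ⟨mem_univ _, fun j hj => ?_⟩
      have := h j
      rw [if_neg (by omega)] at this
      simpa using this
  rw [h1, Fintype.card_piFinset]
  have h2 : ∀ j : Fin n, (if (j : ℕ) < i then (univ : Finset (Fin d → ZMod L)) else {0}).card
      = if (j : ℕ) < i then L ^ d else 1 := by
    intro j
    split_ifs
    · rw [Finset.card_univ, Fintype.card_fun, ZMod.card, Fintype.card_fin]
    · simp
  simp_rw [h2]
  rw [Finset.prod_ite, Finset.prod_const, Finset.prod_const_one, mul_one]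
  congr 1
  have h3 : (univ.filter (fun j : Fin n => (j : ℕ) < i)).card = i := by
    rw [Fin.card_filter_val_lt]
    omega
  exact h3

theorem sum_lev (f : ℕ → ℝ) :
    ∑ x : Ball d L n, f (lev x)
      = f 0 + ∑ i ∈ Finset.Icc 1 n, (((L:ℝ)^d)^i - ((L:ℝ)^d)^(i-1)) * f i := by
  have h1 : ∑ x : Ball d L n, f (lev x)
      = ∑ i ∈ Finset.range (n+1), ∑ x ∈ univ.filter (fun x : Ball d L n => lev x = i), f (lev x) := by
    rw [Finset.sum_fiberwise_of_maps_to]
    intro x _
    rw [Finset.mem_range]
    have := lev_le x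
    omega
  have h2 : ∀ i, ∑ x ∈ univ.filter (fun x : Ball d L n => lev x = i), f (lev x)
      = ((univ.filter (fun x : Ball d L n => lev x = i)).card : ℝ) * f i := by
    intro i
    rw [Finset.sum_congr rfl (g := fun _ => f i), Finset.sum_const, nsmul_eq_mul]
    intro x hx
    rw [(Finset.mem_filter.1 hx).2]
  rw [h1]
  simp_rw [h2]
  rw [Finset.sum_range_succ']
  have h3 : (univ.filter (fun x : Ball d L n => lev x = 0)).card = 1 := by
    have : univ.filter (fun x : Ball d L n => lev x = 0) = {0} := by
      ext x; simp [lev_eq_zero]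
    rw [this]; simp
  rw [h3, Nat.cast_one, one_mul, add_comm]
  congr 1
  have h4 : Finset.Icc 1 n = Finset.Ico 1 (n+1) := by ext j; simp
  rw [h4, Finset.sum_Ico_eq_sum_range]
  refine Finset.sum_congr (by simp) fun k hk => ?_
  have hk' : k + 1 ≤ n := by
    rw [Finset.mem_range] at hk; omega
  have h5 : (univ.filter (fun x : Ball d L n => lev x ≤ k + 1)).card
      = (univ.filter (fun x : Ball d L n => lev x = k + 1)).card
        + (univ.filter (fun x : Ball d L n => lev x ≤ k)).card := by
    rw [← Finset.card_union_of_disjoint]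
    · congr 1
      ext x
      simp only [Finset.mem_union, Finset.mem_filter, Finset.mem_univ, true_and]
      omega
    · rw [Finset.disjoint_left]
      intro x hx hx'
      rw [Finset.mem_filter] at hx hx'
      omega
  rw [card_lev_le _ hk', card_lev_le _ (by omega : k ≤ n)] at h5
  have h6 : (((univ.filter (fun x : Ball d L n => lev x = k + 1)).card : ℕ) : ℝ)
      = ((L:ℝ)^d)^(k+1) - ((L:ℝ)^d)^k := by
    have : (((L ^ d) ^ (k+1) : ℕ) : ℝ) = ((((univ.filter (fun x : Ball d L n => lev x = k + 1)).card
        + (L ^ d) ^ k : ℕ)) : ℝ) := by exact_mod_cast h5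
    push_cast at this
    linarith
  rw [h6, add_comm 1 k]
  simp

theorem card_ball : Fintype.card (Ball d L n) = (L ^ d) ^ n := by
  rw [Fintype.card_fun, Fintype.card_fun, ZMod.card, Fintype.card_fin, Fintype.card_fin]

theorem levP_trans (f : ℕ → ℝ) : Trans (levP (d := d) (L := L) (n := n) f) := by
  intro x y
  refine ⟨Equiv.addRight (y - x), by simp, ?_⟩
  intro e
  induction e using Sym2.ind with
  | _ u v => simp

/-- sums over a row -/
theorem row_sum (g : ℕ → ℝ) (x : Ball d L n) :
    ∑ y, g (lev (x - y)) = g 0 + ∑ i ∈ Finset.Icc 1 n, (((L:ℝ)^d)^i - ((L:ℝ)^d)^(i-1)) * g i := by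
  rw [← sum_lev]
  exact Equiv.sum_comp (Equiv.subLeft x) (fun z => g (lev z))

/-- the block (coset of the ball of radius `L^2`) of a vertex -/
def blk (x : Ball d L n) : Ball d L n := fun j => if (j : ℕ) < 2 then 0 else x j

theorem blk_eq_iff (x y : Ball d L n) : blk x = blk y ↔ lev (x - y) ≤ 2 := by
  rw [lev_le_iff]
  unfold blk
  constructor
  · intro h j hj
    have := congrFun h j
    simp only [if_neg (by omega : ¬ (j : ℕ) < 2)] at this
    simp [this]
  · intro h
    ext1 j
    split_ifs with hj
    · rfl
    · have := h j (by omega)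
      simpa [sub_eq_zero] using this

theorem card_blk (hn : 2 ≤ n) (i : Ball d L n) :
    (univ.filter (fun v : Ball d L n => blk v = i)).card ≤ (L ^ d) ^ 2 := by
  by_cases h : ∃ v0 : Ball d L n, blk v0 = i
  · obtain ⟨v0, rfl⟩ := h
    rw [← card_lev_le (d := d) (L := L) (n := n) 2 hn]
    refine Finset.card_le_card_of_injOn (fun v => v - v0) ?_ ?_
    · intro v hv
      simp only [Finset.coe_filter, Finset.mem_univ, true_and, Set.mem_ofPred_eq] at hv ⊢
      exact (blk_eq_iff v v0).1 hv
    · intro a _ b _ hab
      simpa using hab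
  · push Not at h
    have : univ.filter (fun v : Ball d L n => blk v = i) = ∅ := by
      rw [Finset.filter_eq_empty_iff]
      intro v _
      exact h v
    rw [this]; simp

/-- the element with only the `j`-th coordinate non-zero -/
def uvec (j : ℕ) : Ball d L n := fun i => if (i : ℕ) = j then 1 else 0

theorem lev_uvec (hd : 1 ≤ d) (hL : 2 ≤ L) (j : ℕ) (hj : j < n) :
    lev (uvec j : Ball d L n) = j + 1 := by
  have h1 : (1 : Fin d → ZMod L) ≠ 0 := by
    intro h
    have := congrFun h ⟨0, hd⟩
    have hF : Fact (1 < L) := ⟨hL⟩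
    simp at this
  apply le_antisymm
  · rw [lev_le_iff]
    intro i hi
    unfold uvec
    rw [if_neg (by omega)]
  · by_contra hcon
    push Not at hcon
    have h2 : lev (uvec j : Ball d L n) ≤ j := by omega
    rw [lev_le_iff] at h2
    have := h2 ⟨j, hj⟩ le_rfl
    unfold uvec at this
    simp at this
    exact h1 this

theorem lev_uvec_sub (hd : 1 ≤ d) (hL : 2 ≤ L) (hn : 2 ≤ n) :
    lev ((uvec 0 : Ball d L n) - uvec 1) = 2 := by
  have h1 : (1 : Fin d → ZMod L) ≠ 0 := by
    intro h
    have := congrFun h ⟨0, hd⟩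
    have hF : Fact (1 < L) := ⟨hL⟩
    simp at this
  apply le_antisymm
  · rw [lev_le_iff]
    intro i hi
    simp only [Pi.sub_apply, uvec]
    rw [if_neg (by omega), if_neg (by omega)]; simp
  · by_contra hcon
    push Not at hcon
    have h2 : lev ((uvec 0 : Ball d L n) - uvec 1) ≤ 1 := by omega
    rw [lev_le_iff] at h2
    have := h2 ⟨1, by omega⟩ le_rfl
    simp [uvec] at this
    exact h1 this

end Pool.Agent.H890.C
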