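import Pool.Agent.H890.C.Big

set_option autoImplicit false
set_option linter.unusedSectionVars false
set_option linter.unusedVariables false

/-! Bounds for the truncated Green kernels of a random walk satisfying a Doeblin condition. -/

namespace Pool.Agent.H890.C

open Finset Classical

variable {V : Type} [Fintype V] [DecidableEq V]

/-- the remainder kernel -/
noncomputable def Rm (p : Sym2 V → ℝ) (c : ℝ) (x y : V) : ℝ :=
  if x = y then 0 else p s(x, y) - c / Fintype.card V

noncomputable def rk (p : Sym2 V → ℝ) (c : ℝ) : ℕ → V → V → ℝ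
  | 0, _, _ => 0
  | k+1, x, y => (if x = y then 1 else 0) + ∑ w, Rm p c x w * rk p c k w y

noncomputable def ak (p : Sym2 V → ℝ) (c b : ℝ) : ℕ → V → ℝ
  | 0, _ => 0
  | k+1, y => b * ak p c b k y + (c / Fintype.card V) * ∑ w, rk p c k w y

noncomputable def tk (p : Sym2 V → ℝ) (c : ℝ) : ℕ → V → V → ℝ
  | 0, _, _ => 0
  | k+1, x, y => rk p c (k+1) x y + ∑ w, Rm p c x w * tk p c k w y

noncomputable def bk (p : Sym2 V → ℝ) (c b : ℝ) : ℕ → V → ℝ
  | 0, _ => 0
  | k+1, y => ak p c b (k+1) y + b * bk p c b k y + (c / Fintype.card V) * ∑ w, tk p c k w y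

structure KH (p : Sym2 V → ℝ) (c s σ : ℝ) : Prop where
  adm : Adm p
  diag : ∀ x, p s(x, x) = 0
  row : ∀ x, ∑ w, p s(x, w) = 1 - s
  low : ∀ x y, x ≠ y → c / Fintype.card V ≤ p s(x, y)
  sq : ∀ x, ∑ w, p s(x, w) ^ 2 ≤ σ
  c0 : 0 < c
  c1 : c ≤ 1
  s0 : 0 < s
  sc : s ≤ c
  n2 : 2 ≤ Fintype.card V
  cn : c / Fintype.card V ≤ s / 2

variable {p : Sym2 V → ℝ} {c s σ : ℝ}

theorem KH.Rm_nonneg (h : KH p c s σ) (x y : V) : 0 ≤ Rm p c x y := by
  unfold Rm
  split_ifs with hxy
  · exact le_rfl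
  · have := h.low x y hxy; linarith

theorem KH.n0 (h : KH p c s σ) : (0:ℝ) < Fintype.card V := by
  have := h.n2
  exact_mod_cast (by omega : 0 < Fintype.card V)

theorem KH.Rm_le (h : KH p c s σ) (x y : V) : Rm p c x y ≤ p s(x, y) := by
  unfold Rm
  have := (h.adm s(x, y)).1
  have h2 : 0 ≤ c / Fintype.card V := div_nonneg h.c0.le h.n0.le
  split_ifs <;> linarith

theorem Rm_symm (x y : V) : Rm p c x y = Rm p c y x := by
  unfold Rm
  by_cases h : x = y
  · simp [h]
  · rw [if_neg h, if_neg (Ne.symm h), Sym2.eq_swap]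

theorem KH.Rm_row (h : KH p c s σ) (x : V) : ∑ w, Rm p c x w ≤ 1 - c/2 := by
  have h1 : ∑ w, Rm p c x w = ∑ w, p s(x, w) - (Fintype.card V - 1) * (c / Fintype.card V) := by
    rw [← Finset.add_sum_erase univ _ (Finset.mem_univ x),
      ← Finset.add_sum_erase univ (fun w => p s(x, w)) (Finset.mem_univ x), h.diag x]
    have e1 : Rm p c x x = 0 := by unfold Rm; simp
    have e2 : ∑ w ∈ univ.erase x, Rm p c x w
        = ∑ w ∈ univ.erase x, (p s(x, w) - c / Fintype.card V) := by
      refine Finset.sum_congr rfl fun w hw => ?_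
      unfold Rm
      rw [if_neg (Finset.ne_of_mem_erase hw).symm]
    rw [e1, e2, Finset.sum_sub_distrib, Finset.sum_const, Finset.card_erase_of_mem (mem_univ x),
      Finset.card_univ, nsmul_eq_mul, Nat.cast_sub (by have := h.n2; omega)]
    push_cast; ring
  rw [h1, h.row x]
  have hn := h.n0
  have h2 : ((Fintype.card V : ℝ) - 1) * (c / Fintype.card V) = c - c / Fintype.card V := by
    field_simp
  rw [h2]
  have h3 : c / Fintype.card V ≤ c / 2 := by
    apply div_le_div_of_nonneg_left h.c0.le (by norm_num)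
    exact_mod_cast h.n2
  linarith [h.s0]

theorem KH.Rm_col (h : KH p c s σ) (y : V) : ∑ x, Rm p c x y ≤ 1 - c/2 := by
  simp_rw [Rm_symm _ y]
  exact h.Rm_row y

theorem KH.p_sq (h : KH p c s σ) (x y : V) : ∑ w, p s(x, w) * p s(w, y) ≤ σ := by
  have h1 : ∀ w, p s(x, w) * p s(w, y) ≤ (p s(x, w)^2 + p s(y, w)^2) / 2 := by
    intro w
    rw [Sym2.eq_swap (a := w) (b := y)]
    nlinarith [sq_nonneg (p s(x, w) - p s(y, w))]
  refine (Finset.sum_le_sum fun w _ => h1 w).trans ?_
  rw [← Finset.sum_div, Finset.sum_add_distrib]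
  linarith [h.sq x, h.sq y]

theorem KH.Rm_sq (h : KH p c s σ) (x y : V) : ∑ w, Rm p c x w * Rm p c w y ≤ σ := by
  refine le_trans (Finset.sum_le_sum fun w _ => ?_) (h.p_sq x y)
  exact mul_le_mul (h.Rm_le x w) (h.Rm_le w y) (h.Rm_nonneg w y) (h.adm _).1

theorem KH.rk_nonneg (h : KH p c s σ) (k : ℕ) : ∀ x y : V, 0 ≤ rk p c k x y := by
  induction k with
  | zero => intro x y; simp [rk]
  | succ k ih =>
    intro x y
    unfold rk
    have : (0:ℝ) ≤ if x = y then 1 else 0 := by split_ifs <;> norm_num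
    have := Finset.sum_nonneg fun w (_ : w ∈ univ) => mul_nonneg (h.Rm_nonneg x w) (ih w y)
    linarith

theorem KH.tk_nonneg (h : KH p c s σ) (k : ℕ) : ∀ x y : V, 0 ≤ tk p c k x y := by
  induction k with
  | zero => intro x y; simp [tk]
  | succ k ih =>
    intro x y
    unfold tk
    have := h.rk_nonneg (k+1) x y
    have := Finset.sum_nonneg fun w (_ : w ∈ univ) => mul_nonneg (h.Rm_nonneg x w) (ih w y)
    linarith

theorem KH.σ0 (h : KH p c s σ) (x : V) : 0 ≤ σ :=
  le_trans (Finset.sum_nonneg fun w _ => sq_nonneg _) (h.sq x)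

theorem KH.rk_sum (h : KH p c s σ) (k : ℕ) : ∀ y : V, ∑ x, rk p c k x y ≤ 2/c := by
  induction k with
  | zero => intro y; simp [rk]; have := h.c0; positivity
  | succ k ih =>
    intro y
    have h1 : ∑ x, rk p c (k+1) x y = 1 + ∑ w, (∑ x, Rm p c x w) * rk p c k w y := by
      simp only [rk]
      rw [Finset.sum_add_distrib, Finset.sum_comm]
      simp_rw [Finset.sum_mul]
      simp
    rw [h1]
    have h2 : ∑ w, (∑ x, Rm p c x w) * rk p c k w y ≤ ∑ w, (1 - c/2) * rk p c k w y :=
      Finset.sum_le_sum fun w _ => mul_le_mul_of_nonneg_right (h.Rm_col w) (h.rk_nonneg k w y)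
    rw [← Finset.mul_sum] at h2
    have h3 : (1 - c/2) * ∑ w, rk p c k w y ≤ (1 - c/2) * (2/c) :=
      mul_le_mul_of_nonneg_left (ih y) (by linarith [h.c1])
    have h4 : (1 - c/2) * (2/c) = 2/c - 1 := by
      have := h.c0.ne'; field_simp
    linarith

theorem KH.tk_sum (h : KH p c s σ) (k : ℕ) : ∀ y : V, ∑ x, tk p c k x y ≤ 4/c^2 := by
  induction k with
  | zero =>
    intro y; simp [tk]; have := h.c0; positivity
  | succ k ih =>
    intro y
    have h1 : ∑ x, tk p c (k+1) x y = ∑ x, rk p c (k+1) x y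
        + ∑ w, (∑ x, Rm p c x w) * tk p c k w y := by
      simp only [tk]
      rw [Finset.sum_add_distrib]
      congr 1
      rw [Finset.sum_comm]
      simp_rw [Finset.sum_mul]
    rw [h1]
    have h0 := h.rk_sum (k+1) y
    have h2 : ∑ w, (∑ x, Rm p c x w) * tk p c k w y ≤ ∑ w, (1 - c/2) * tk p c k w y :=
      Finset.sum_le_sum fun w _ => mul_le_mul_of_nonneg_right (h.Rm_col w) (h.tk_nonneg k w y)
    rw [← Finset.mul_sum] at h2
    have h3 : (1 - c/2) * ∑ w, tk p c k w y ≤ (1 - c/2) * (4/c^2) :=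
      mul_le_mul_of_nonneg_left (ih y) (by linarith [h.c1])
    have h4 : (1 - c/2) * (4/c^2) = 4/c^2 - 2/c := by
      have := h.c0.ne'; field_simp; ring
    linarith

theorem KH.rk_le (h : KH p c s σ) (k : ℕ) : ∀ x y : V,
    rk p c k x y ≤ (if x = y then 1 else 0) + Rm p c x y + 2*σ/c := by
  induction k with
  | zero =>
    intro x y
    simp only [rk]
    have : (0:ℝ) ≤ if x = y then 1 else 0 := by split_ifs <;> norm_num
    have := h.Rm_nonneg x y
    have : 0 ≤ 2*σ/c := by have := h.c0; have := h.σ0 x; positivity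
    linarith
  | succ k ih =>
    intro x y
    have h1 : rk p c (k+1) x y = (if x = y then 1 else 0) + ∑ w, Rm p c x w * rk p c k w y := rfl
    rw [h1]
    have h2 : ∑ w, Rm p c x w * rk p c k w y
        ≤ ∑ w, Rm p c x w * ((if w = y then 1 else 0) + Rm p c w y + 2*σ/c) :=
      Finset.sum_le_sum fun w _ => mul_le_mul_of_nonneg_left (ih w y) (h.Rm_nonneg x w)
    have h3 : ∑ w, Rm p c x w * ((if w = y then 1 else 0) + Rm p c w y + 2*σ/c)
        = Rm p c x y + ∑ w, Rm p c x w * Rm p c w y + (∑ w, Rm p c x w) * (2*σ/c) := by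
      simp_rw [mul_add]
      rw [Finset.sum_add_distrib, Finset.sum_add_distrib, ← Finset.sum_mul]
      simp
    have h4 := h.Rm_sq x y
    have h0 : 0 ≤ 2*σ/c := by have := h.c0; have := h.σ0 x; positivity
    have h5 := mul_le_mul_of_nonneg_right (h.Rm_row x) h0
    have h6 : (1 - c/2) * (2*σ/c) = 2*σ/c - σ := by
      have := h.c0.ne'; field_simp
    linarith

theorem KH.tk_le (h : KH p c s σ) (k : ℕ) : ∀ x y : V,
    tk p c k x y ≤ (if x = y then 1 else 0) + 2 * Rm p c x y + 8*σ/c^2 := by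
  induction k with
  | zero =>
    intro x y
    simp only [tk]
    have : (0:ℝ) ≤ if x = y then 1 else 0 := by split_ifs <;> norm_num
    have := h.Rm_nonneg x y
    have : 0 ≤ 8*σ/c^2 := by have := h.c0; have := h.σ0 x; positivity
    linarith
  | succ k ih =>
    intro x y
    have h1 : tk p c (k+1) x y = rk p c (k+1) x y + ∑ w, Rm p c x w * tk p c k w y := rfl
    rw [h1]
    have hr := h.rk_le (k+1) x y
    have h2 : ∑ w, Rm p c x w * tk p c k w y
        ≤ ∑ w, Rm p c x w * ((if w = y then 1 else 0) + 2 * Rm p c w y + 8*σ/c^2) :=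
      Finset.sum_le_sum fun w _ => mul_le_mul_of_nonneg_left (ih w y) (h.Rm_nonneg x w)
    have h3 : ∑ w, Rm p c x w * ((if w = y then 1 else 0) + 2 * Rm p c w y + 8*σ/c^2)
        = Rm p c x y + 2 * ∑ w, Rm p c x w * Rm p c w y + (∑ w, Rm p c x w) * (8*σ/c^2) := by
      simp_rw [mul_add]
      rw [Finset.sum_add_distrib, Finset.sum_add_distrib, ← Finset.sum_mul, Finset.mul_sum]
      congr 1
      congr 1
      · simp
      · exact Finset.sum_congr rfl fun w _ => by ring
    have h4 := h.Rm_sq x y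
    have hσ := h.σ0 x
    have hc := h.c0
    have h0 : 0 ≤ 8*σ/c^2 := by positivity
    have h5 := mul_le_mul_of_nonneg_right (h.Rm_row x) h0
    have h6 : (1 - c/2) * (8*σ/c^2) = 8*σ/c^2 - 4*σ/c := by
      field_simp; ring
    have h7 : 2*σ/c + 2*σ ≤ 4*σ/c := by
      have : 2*σ ≤ 2*σ/c := by
        rw [le_div_iff₀ hc]; nlinarith [h.c1]
      have : 4*σ/c = 2*σ/c + 2*σ/c := by ring
      linarith
    linarith

theorem KH.ak_nonneg (h : KH p c s σ) {b : ℝ} (hb : 0 ≤ b) (k : ℕ) (y : V) :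
    0 ≤ ak p c b k y := by
  induction k with
  | zero => simp [ak]
  | succ k ih =>
    unfold ak
    have := mul_nonneg hb ih
    have := mul_nonneg (div_nonneg h.c0.le h.n0.le)
      (Finset.sum_nonneg fun w (_ : w ∈ univ) => h.rk_nonneg k w y)
    linarith

theorem KH.ak_le (h : KH p c s σ) {b : ℝ} (hb0 : 0 ≤ b) (hb : b ≤ 1 - s/2) (k : ℕ) (y : V) :
    ak p c b k y ≤ 4/(s * Fintype.card V) := by
  have hn := h.n0
  have hs := h.s0
  have hc := h.c0
  induction k with
  | zero => simp [ak]; positivity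
  | succ k ih =>
    have h1 : ak p c b (k+1) y
      = b * ak p c b k y + (c / Fintype.card V) * ∑ w, rk p c k w y := rfl
    rw [h1]
    have h2 : b * ak p c b k y ≤ (1 - s/2) * (4/(s * Fintype.card V)) :=
      mul_le_mul hb ih (h.ak_nonneg hb0 k y) (by linarith)
    have h3 : (c / Fintype.card V) * ∑ w, rk p c k w y ≤ (c / Fintype.card V) * (2/c) :=
      mul_le_mul_of_nonneg_left (h.rk_sum k y) (by positivity)
    have h4 : (1 - s/2) * (4/(s * Fintype.card V)) + (c / Fintype.card V) * (2/c)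
        = 4/(s * Fintype.card V) := by
      field_simp; ring
    linarith

theorem KH.bk_nonneg (h : KH p c s σ) {b : ℝ} (hb : 0 ≤ b) (k : ℕ) (y : V) :
    0 ≤ bk p c b k y := by
  induction k with
  | zero => simp [bk]
  | succ k ih =>
    unfold bk
    have := h.ak_nonneg hb (k+1) y
    have := mul_nonneg hb ih
    have := mul_nonneg (div_nonneg h.c0.le h.n0.le)
      (Finset.sum_nonneg fun w (_ : w ∈ univ) => h.tk_nonneg k w y)
    linarith

theorem KH.bk_le (h : KH p c s σ) {b : ℝ} (hb0 : 0 ≤ b) (hb : b ≤ 1 - s/2) (k : ℕ) (y : V) :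
    bk p c b k y ≤ 16/(s^2 * Fintype.card V) := by
  have hn := h.n0
  have hs := h.s0
  have hc := h.c0
  induction k with
  | zero => simp [bk]; positivity
  | succ k ih =>
    have h1 : bk p c b (k+1) y
      = ak p c b (k+1) y + b * bk p c b k y + (c / Fintype.card V) * ∑ w, tk p c k w y := rfl
    rw [h1]
    have h0 := h.ak_le hb0 hb (k+1) y
    have h2 : b * bk p c b k y ≤ (1 - s/2) * (16/(s^2 * Fintype.card V)) :=
      mul_le_mul hb ih (h.bk_nonneg hb0 k y) (by linarith)
    have h3 : (c / Fintype.card V) * ∑ w, tk p c k w y ≤ (c / Fintype.card V) * (4/c^2) :=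
      mul_le_mul_of_nonneg_left (h.tk_sum k y) (by positivity)
    have h4 : (1 - s/2) * (16/(s^2 * Fintype.card V))
        = 16/(s^2 * Fintype.card V) - 8/(s * Fintype.card V) := by
      field_simp; ring
    have h5 : (c / Fintype.card V) * (4/c^2) = 4/(c * Fintype.card V) := by
      field_simp
    have h6 : 4/(c * Fintype.card V) ≤ 4/(s * Fintype.card V) := by
      apply div_le_div_of_nonneg_left (by norm_num) (by positivity)
      exact mul_le_mul_of_nonneg_right h.sc hn.le
    have h7 : 8/(s * (Fintype.card V : ℝ)) = 4/(s * Fintype.card V) + 4/(s * Fintype.card V) := by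
      ring
    linarith

/-- comparison of a row of `p` with the remainder kernel -/
theorem KH.p_le (h : KH p c s σ) (x w : V) : p s(x, w) ≤ Rm p c x w + c / Fintype.card V := by
  unfold Rm
  have h2 : 0 ≤ c / Fintype.card V := div_nonneg h.c0.le h.n0.le
  split_ifs with hxw
  · subst hxw; rw [h.diag x]; linarith
  · linarith

theorem KH.row_b (h : KH p c s σ) (x : V) :
    ∑ w, (Rm p c x w + c / Fintype.card V) ≤ 1 - s/2 := by
  have h1 : ∀ w, Rm p c x w + c / Fintype.card V
      = p s(x, w) + (if x = w then c / Fintype.card V else 0) := by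
    intro w
    unfold Rm
    split_ifs with hxw
    · subst hxw; rw [h.diag x]
    · ring
  simp_rw [h1]
  rw [Finset.sum_add_distrib, h.row x]
  simp only [Finset.sum_ite_eq, Finset.mem_univ, if_true]
  linarith [h.cn]

theorem KH.Gk_le' (h : KH p c s σ) (k : ℕ) : ∀ x y : V,
    Gk p k x y ≤ ak p c (1 - s/2) k y + rk p c k x y := by
  have hb0 : 0 ≤ 1 - s/2 := by linarith [h.sc, h.c1]
  induction k with
  | zero => intro x y; simp [Gk, ak, rk]
  | succ k ih =>
    intro x y
    have h1 : Gk p (k+1) x y = (if x = y then 1 else 0) + ∑ w, p s(x, w) * Gk p k w y := rfl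
    have h2 : ak p c (1 - s/2) (k+1) y
      = (1 - s/2) * ak p c (1 - s/2) k y + (c / Fintype.card V) * ∑ w, rk p c k w y := rfl
    have h3 : rk p c (k+1) x y = (if x = y then 1 else 0) + ∑ w, Rm p c x w * rk p c k w y := rfl
    rw [h1, h2, h3]
    have h4 : ∑ w, p s(x, w) * Gk p k w y
        ≤ ∑ w, (Rm p c x w + c / Fintype.card V) * (ak p c (1 - s/2) k y + rk p c k w y) := by
      refine Finset.sum_le_sum fun w _ => ?_
      exact mul_le_mul (h.p_le x w) (ih w y) (Gk_nonneg h.adm k w y)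
        (add_nonneg (h.Rm_nonneg x w) (div_nonneg h.c0.le h.n0.le))
    have h5 : ∑ w, (Rm p c x w + c / Fintype.card V) * (ak p c (1 - s/2) k y + rk p c k w y)
        = (∑ w, (Rm p c x w + c / Fintype.card V)) * ak p c (1 - s/2) k y
          + ∑ w, Rm p c x w * rk p c k w y + (c / Fintype.card V) * ∑ w, rk p c k w y := by
      rw [Finset.sum_mul, Finset.mul_sum, ← Finset.sum_add_distrib, ← Finset.sum_add_distrib]
      exact Finset.sum_congr rfl fun w _ => by ring
    have h6 := mul_le_mul_of_nonneg_right (h.row_b x) (h.ak_nonneg hb0 k y)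
    linarith

theorem KH.Hk_le' (h : KH p c s σ) (k : ℕ) : ∀ x y : V,
    Hk p k x y ≤ bk p c (1 - s/2) k y + tk p c k x y := by
  have hb0 : 0 ≤ 1 - s/2 := by linarith [h.sc, h.c1]
  induction k with
  | zero => intro x y; simp [Hk, bk, tk]
  | succ k ih =>
    intro x y
    have h1 : Hk p (k+1) x y = Gk p (k+1) x y + ∑ w, p s(x, w) * Hk p k w y := rfl
    have h2 : bk p c (1 - s/2) (k+1) y = ak p c (1 - s/2) (k+1) y
      + (1 - s/2) * bk p c (1 - s/2) k y + (c / Fintype.card V) * ∑ w, tk p c k w y := rfl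
    have h3 : tk p c (k+1) x y = rk p c (k+1) x y + ∑ w, Rm p c x w * tk p c k w y := rfl
    rw [h1, h2, h3]
    have h0 := h.Gk_le' (k+1) x y
    have h4 : ∑ w, p s(x, w) * Hk p k w y
        ≤ ∑ w, (Rm p c x w + c / Fintype.card V) * (bk p c (1 - s/2) k y + tk p c k w y) := by
      refine Finset.sum_le_sum fun w _ => ?_
      exact mul_le_mul (h.p_le x w) (ih w y) (Hk_nonneg h.adm k w y)
        (add_nonneg (h.Rm_nonneg x w) (div_nonneg h.c0.le h.n0.le))
    have h5 : ∑ w, (Rm p c x w + c / Fintype.card V) * (bk p c (1 - s/2) k y + tk p c k w y)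
        = (∑ w, (Rm p c x w + c / Fintype.card V)) * bk p c (1 - s/2) k y
          + ∑ w, Rm p c x w * tk p c k w y + (c / Fintype.card V) * ∑ w, tk p c k w y := by
      rw [Finset.sum_mul, Finset.mul_sum, ← Finset.sum_add_distrib, ← Finset.sum_add_distrib]
      exact Finset.sum_congr rfl fun w _ => by ring
    have h6 := mul_le_mul_of_nonneg_right (h.row_b x) (h.bk_nonneg hb0 k y)
    linarith

theorem KH.Gk_le (h : KH p c s σ) (k : ℕ) (x y : V) :
    Gk p k x y ≤ (if x = y then 1 else 0) + p s(x, y) + 2*σ/c + 4/(s * Fintype.card V) := by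
  have hb0 : 0 ≤ 1 - s/2 := by linarith [h.sc, h.c1]
  have h1 := h.Gk_le' k x y
  have h2 := h.ak_le hb0 le_rfl k y
  have h3 := h.rk_le k x y
  have h4 := h.Rm_le x y
  linarith

theorem KH.Hk_le (h : KH p c s σ) (k : ℕ) (x y : V) :
    Hk p k x y ≤ (if x = y then 1 else 0) + 2 * p s(x, y) + 8*σ/c^2
      + 16/(s^2 * Fintype.card V) := by
  have hb0 : 0 ≤ 1 - s/2 := by linarith [h.sc, h.c1]
  have h1 := h.Hk_le' k x y
  have h2 := h.bk_le hb0 le_rfl k y
  have h3 := h.tk_le k x y
  have h4 := h.Rm_le x y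
  linarith

theorem KH.loss_le (h : KH p c s σ) (k : ℕ) (o : V) :
    loss p k o ≤ 8*σ/c^2 + 12/(s^2 * Fintype.card V) := by
  have hn := h.n0
  have hs := h.s0
  have hc := h.c0
  have hσ := h.σ0 o
  have hs1 : s ≤ 1 := h.sc.trans h.c1
  unfold loss
  have h1 : ∑ y, p s(o, y) * Gk p k y o ≤ σ + 2*σ/c + 4/(s * Fintype.card V) := by
    have h2 : ∑ y, p s(o, y) * Gk p k y o ≤ ∑ y, (p s(o, y)^2
        + p s(o, y) * (2*σ/c + 4/(s * Fintype.card V))) := by
      refine Finset.sum_le_sum fun y _ => ?_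
      have h3 := mul_le_mul_of_nonneg_left (h.Gk_le k y o) (h.adm s(o, y)).1
      have h4 : p s(o, y) * (if y = o then (1:ℝ) else 0) = 0 := by
        split_ifs with hy
        · subst hy; rw [h.diag]; ring
        · ring
      have h5 : p s(y, o) = p s(o, y) := by rw [Sym2.eq_swap]
      rw [h5] at h3
      nlinarith
    rw [Finset.sum_add_distrib, ← Finset.sum_mul, h.row o] at h2
    have h3 := h.sq o
    have h4 : 0 ≤ 2*σ/c + 4/(s * Fintype.card V) := by positivity
    nlinarith
  have h2 : ∑ y, ∑ y' ∈ univ.erase y, p s(o, y) * (p s(o, y') * Hk p k y y')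
      ≤ 2*σ + (8*σ/c^2 + 16/(s^2 * Fintype.card V)) := by
    have h3 : ∀ y, ∑ y' ∈ univ.erase y, p s(o, y) * (p s(o, y') * Hk p k y y')
        ≤ p s(o, y) * (2*σ + (8*σ/c^2 + 16/(s^2 * Fintype.card V))) := by
      intro y
      rw [← Finset.mul_sum]
      refine mul_le_mul_of_nonneg_left ?_ (h.adm _).1
      have h4 : ∑ y' ∈ univ.erase y, p s(o, y') * Hk p k y y'
          ≤ ∑ y' ∈ univ.erase y, (2 * (p s(y, y') * p s(y', o))
            + p s(o, y') * (8*σ/c^2 + 16/(s^2 * Fintype.card V))) := by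
        refine Finset.sum_le_sum fun y' hy' => ?_
        have h5 := mul_le_mul_of_nonneg_left (h.Hk_le k y y') (h.adm s(o, y')).1
        rw [if_neg (Finset.ne_of_mem_erase hy').symm] at h5
        have h6 : p s(y', o) = p s(o, y') := by rw [Sym2.eq_swap]
        rw [h6]
        nlinarith
      refine h4.trans ?_
      have h5 : ∑ y' ∈ univ.erase y, (2 * (p s(y, y') * p s(y', o))
            + p s(o, y') * (8*σ/c^2 + 16/(s^2 * Fintype.card V)))
          ≤ ∑ y', (2 * (p s(y, y') * p s(y', o))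
            + p s(o, y') * (8*σ/c^2 + 16/(s^2 * Fintype.card V))) := by
        refine Finset.sum_le_sum_of_subset_of_nonneg (Finset.erase_subset _ _) ?_
        intro y' _ _
        have := (h.adm s(y, y')).1
        have := (h.adm s(y', o)).1
        have := (h.adm s(o, y')).1
        positivity
      refine h5.trans ?_
      rw [Finset.sum_add_distrib, ← Finset.mul_sum, ← Finset.sum_mul, h.row o]
      have h6 := h.p_sq y o
      have h7 : 0 ≤ 8*σ/c^2 + 16/(s^2 * Fintype.card V) := by positivity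
      nlinarith
    refine (Finset.sum_le_sum fun y _ => h3 y).trans ?_
    rw [← Finset.sum_mul, h.row o]
    have h7 : 0 ≤ 2*σ + (8*σ/c^2 + 16/(s^2 * Fintype.card V)) := by positivity
    nlinarith
  have h3 : 2*σ + 2*σ/c + 4*σ/c^2 ≤ 8*σ/c^2 := by
    have e1 : σ ≤ σ/c^2 := by
      rw [le_div_iff₀ (by positivity)]
      have : c^2 ≤ 1 := by nlinarith [h.c1]
      nlinarith
    have e2 : σ/c ≤ σ/c^2 := by
      apply div_le_div_of_nonneg_left hσ (by positivity)
      nlinarith [h.c1]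
    have e3 : 2*σ/c = 2*(σ/c) := by ring
    have e4 : 4*σ/c^2 = 4*(σ/c^2) := by ring
    have e5 : 8*σ/c^2 = 8*(σ/c^2) := by ring
    rw [e3, e4, e5]; linarith
  have h4 : 4/(s * (Fintype.card V : ℝ)) ≤ 4/(s^2 * Fintype.card V) := by
    apply div_le_div_of_nonneg_left (by norm_num) (by positivity)
    apply mul_le_mul_of_nonneg_right _ hn.le
    nlinarith
  have h5 : 12/(s^2 * (Fintype.card V : ℝ)) = 4/(s^2 * Fintype.card V)
      + (1/2) * (16/(s^2 * Fintype.card V)) := by ring
  have h6 : 8*σ/c^2 = 4*σ/c^2 + (1/2)*(8*σ/c^2) := by ring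
  rw [h5]
  nlinarith

/-- large clusters exist -/
theorem KH.exists_big (h : KH p c s σ) (hT : Trans p) (hσ : σ ≤ 1/8) (hhalf : ∀ e, p e ≤ 1/2)
    (hσs : σ ≤ c^2 * s / 32) (hsn : 48 ≤ s^3 * Fintype.card V)
    {K : ℝ} (hK : 1 ≤ K) (hK2 : 6 * Real.sqrt K ≤ 1/(4*s)) :
    ex p (fun ω => if ∀ x, ((cl ω univ x).card : ℝ) ≤ K then 1 else 0)
      ≤ 256 / (s^3 * Fintype.card V) := by
  have hn := h.n0
  have hs := h.s0
  have hc := h.c0
  have hne : Nonempty V := by
    rw [← Fintype.card_pos_iff]; have := h.n2; omega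
  obtain ⟨o⟩ := hne
  refine Pool.Agent.H890.C.exists_big h.adm h.s0 (h.sc.trans h.c1) h.row
    (fun x => (h.sq x).trans hσ) hhalf hT o ?_ hK hK2
  refine (h.loss_le _ o).trans ?_
  have h1 : 8*σ/c^2 ≤ s/4 := by
    rw [div_le_iff₀ (by positivity)]
    nlinarith
  have h2 : 12/(s^2 * (Fintype.card V : ℝ)) ≤ s/4 := by
    rw [div_le_iff₀ (by positivity)]
    nlinarith
  linarith

end Pool.Agent.H890.C
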