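import Pool.Agent.H890.C.Moments2

set_option autoImplicit false
set_option linter.unusedSectionVars false
set_option linter.unusedVariables false

/-! Existence of large clusters. -/

namespace Pool.Agent.H890.C

open Finset Classical

variable {V : Type} [Fintype V] [DecidableEq V]

/-- transitivity of the edge probabilities -/
def Trans (p : Sym2 V → ℝ) : Prop :=
  ∀ x y : V, ∃ σ : Equiv.Perm V, σ x = y ∧ ∀ e, p (Sym2.map σ e) = p e

theorem sym2_map_symm (σ : Equiv.Perm V) (e : Sym2 V) : Sym2.map σ.symm (Sym2.map σ e) = e := by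
  induction e using Sym2.ind with
  | _ x y => simp

theorem sym2_map_symm' (σ : Equiv.Perm V) (e : Sym2 V) : Sym2.map σ (Sym2.map σ.symm e) = e := by
  induction e using Sym2.ind with
  | _ x y => simp

/-- the permutation of the pairs induced by a permutation of the vertices -/
def symPerm (σ : Equiv.Perm V) : Equiv.Perm (Sym2 V) where
  toFun := Sym2.map σ
  invFun := Sym2.map σ.symm
  left_inv := sym2_map_symm σ
  right_inv := sym2_map_symm' σ

theorem ex_reindex (p : Sym2 V → ℝ) (σ : Equiv.Perm V) (hσ : ∀ e, p (Sym2.map σ e) = p e)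
    (f : (Sym2 V → Bool) → ℝ) :
    ex p (fun ω => f (fun e => ω (Sym2.map σ e))) = ex p f := by
  unfold ex
  let τ : Equiv.Perm (Sym2 V) := symPerm σ
  have hτ : ∀ e, τ e = Sym2.map σ e := fun e => rfl
  let φ : (Sym2 V → Bool) ≃ (Sym2 V → Bool) := Equiv.arrowCongr τ.symm (Equiv.refl Bool)
  have hφ : ∀ ω, φ ω = fun e => ω (Sym2.map σ e) := by
    intro ω; ext e; simp [φ, Equiv.arrowCongr, hτ]
  rw [← Equiv.sum_comp φ (fun ω => wt p ω * f ω)]
  refine Finset.sum_congr rfl fun ω _ => ?_
  rw [hφ]
  congr 1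
  unfold wt
  rw [← Equiv.prod_comp τ]
  refine Finset.prod_congr rfl fun e _ => ?_
  rw [hτ, hσ]

theorem rch_reindex {ω : Sym2 V → Bool} (σ : Equiv.Perm V) {x y : V}
    (h : Rch (fun e => ω (Sym2.map σ e)) univ x y) : Rch ω univ (σ x) (σ y) := by
  induction h with
  | refl _ => exact Rch.refl (mem_univ _)
  | @tail y z _ _ hne ho ih =>
    exact ih.tail (mem_univ _) (fun hc => hne (σ.injective hc)) (by simpa using ho)

theorem rch_reindex' {ω : Sym2 V → Bool} (σ : Equiv.Perm V) {x y : V}
    (h : Rch ω univ (σ x) (σ y)) : Rch (fun e => ω (Sym2.map σ e)) univ x y := by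
  have h2 := rch_reindex (ω := fun e => ω (Sym2.map σ e)) σ.symm (x := σ x) (y := σ y)
    (by
      have : (fun e => (fun e => ω (Sym2.map σ e)) (Sym2.map σ.symm e)) = ω := by
        ext e
        simp only [sym2_map_symm']
      rw [this]; exact h)
  simpa using h2

theorem card_reindex (ω : Sym2 V → Bool) (σ : Equiv.Perm V) (x : V) :
    (cl (fun e => ω (Sym2.map σ e)) univ x).card = (cl ω univ (σ x)).card := by
  refine Finset.card_bij (fun y _ => σ y) ?_ ?_ ?_
  · intro y hy
    rw [mem_cl] at hy ⊢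
    exact rch_reindex σ hy
  · intro a _ b _ h
    exact σ.injective h
  · intro z hz
    refine ⟨σ.symm z, ?_, by simp⟩
    rw [mem_cl] at hz ⊢
    apply rch_reindex' σ
    simpa using hz

theorem ex_card_eq {p : Sym2 V → ℝ} (hT : Trans p) (F : ℕ → ℝ) (x y : V) :
    ex p (fun ω => F (cl ω univ x).card) = ex p (fun ω => F (cl ω univ y).card) := by
  obtain ⟨σ, rfl, hσ⟩ := hT x y
  rw [← ex_reindex p σ hσ (fun ω => F (cl ω univ x).card)]
  simp_rw [card_reindex]

/-- Bonferroni for the cluster of `o` -/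
theorem inC_lower (ω : Sym2 V → Bool) (o z : V) :
    (if z = o then 1 else 0) + ∑ y, xi ω o y * inC ω (univ.erase o) y z
      - (1/2) * ∑ y, ∑ y' ∈ univ.erase y, xi ω o y * (xi ω o y' *
        (inC ω (univ.erase o) y y' * inC ω (univ.erase o) y z)) ≤ inC ω univ o z := by
  set B := univ.erase o with hB
  have hoB : o ∉ B := Finset.notMem_erase o univ
  by_cases hz : z = o
  · subst hz
    have h0 : ∀ y, inC ω B y z = 0 := by
      intro y
      unfold inC
      rw [if_neg]
      intro h
      exact hoB (cl_subset _ _ _ h)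
    simp_rw [h0]
    have : inC ω univ z z = 1 := by
      unfold inC; rw [if_pos (mem_cl.2 (Rch.refl (mem_univ _)))]
    rw [this]; simp
  · rw [if_neg hz, zero_add]
    set T := univ.filter (fun y => ω s(o, y) = true ∧ z ∈ cl ω B y) with hT
    have h1 : ∑ y, xi ω o y * inC ω B y z = (T.card : ℝ) := by
      rw [hT, Finset.card_filter]
      push_cast
      refine Finset.sum_congr rfl fun y _ => ?_
      unfold xi inC
      by_cases ha : ω s(o, y) = true <;> by_cases hb : z ∈ cl ω B y <;> simp [ha, hb]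
    have h2 : (T.card : ℝ) ^ 2 - (T.card : ℝ) ≤ ∑ y, ∑ y' ∈ univ.erase y, xi ω o y * (xi ω o y' *
        (inC ω B y y' * inC ω B y z)) := by
      have h3 : ∑ y, ∑ y' ∈ univ.erase y, (xi ω o y * inC ω B y z) * (xi ω o y' * inC ω B y' z)
          = (T.card : ℝ) ^ 2 - (T.card : ℝ) := by
        have h4 : ∀ y, ∑ y' ∈ univ.erase y, (xi ω o y * inC ω B y z) * (xi ω o y' * inC ω B y' z)
            = (xi ω o y * inC ω B y z) * (T.card : ℝ) - (xi ω o y * inC ω B y z) := by
          intro y
          rw [← h1, Finset.mul_sum, ← Finset.add_sum_erase univ _ (Finset.mem_univ y)]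
          have : (xi ω o y * inC ω B y z) * (xi ω o y * inC ω B y z) = xi ω o y * inC ω B y z := by
            unfold xi inC
            by_cases ha : ω s(o, y) = true <;> by_cases hb : z ∈ cl ω B y <;> simp [ha, hb]
          rw [this]; ring
        simp_rw [h4]
        rw [Finset.sum_sub_distrib, ← Finset.sum_mul, h1]
        ring
      rw [← h3]
      refine Finset.sum_le_sum fun y _ => Finset.sum_le_sum fun y' _ => ?_
      have hx1 := xi_nonneg ω o y
      have hx2 := xi_nonneg ω o y'
      have : inC ω B y z * inC ω B y' z ≤ inC ω B y y' * inC ω B y z := by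
        unfold inC
        by_cases ha : z ∈ cl ω B y <;> by_cases hb : z ∈ cl ω B y'
        · have : y' ∈ cl ω B y := by
            rw [mem_cl] at *
            exact ha.trans hb.symm
          simp [ha, hb, this]
        · simp [ha, hb]; split_ifs <;> norm_num
        · simp [ha, hb]
        · simp [ha, hb]
      calc (xi ω o y * inC ω B y z) * (xi ω o y' * inC ω B y' z)
          = (xi ω o y * xi ω o y') * (inC ω B y z * inC ω B y' z) := by ring
        _ ≤ (xi ω o y * xi ω o y') * (inC ω B y y' * inC ω B y z) :=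
            mul_le_mul_of_nonneg_left this (mul_nonneg hx1 hx2)
        _ = _ := by ring
    rw [h1]
    by_cases hn : T.card = 0
    · rw [hn] at h2 ⊢
      have := inC_nonneg ω univ o z
      norm_num at h2 ⊢
      linarith
    · have hpos : 0 < T.card := Nat.pos_of_ne_zero hn
      obtain ⟨y, hy⟩ := Finset.card_pos.1 hpos
      rw [hT, Finset.mem_filter] at hy
      obtain ⟨_, hy1, hy2⟩ := hy
      have h5 : inC ω univ o z = 1 := by
        unfold inC
        rw [if_pos]
        rw [mem_cl, rch_iff (mem_univ o)]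
        right
        rw [mem_cl] at hy2
        exact ⟨y, fun hc => hoB (hc ▸ hy2.left_mem), hy1, hy2⟩
      rw [h5]
      have h6 : (0:ℝ) ≤ ((T.card : ℝ) - 1) * ((T.card : ℝ) - 2) := by
        rcases Nat.lt_or_ge T.card 2 with h | h
        · have : T.card = 1 := by omega
          rw [this]; norm_num
        · have h7 : (2:ℝ) ≤ T.card := by exact_mod_cast h
          nlinarith
      nlinarith

/-- the loss term -/
noncomputable def loss (p : Sym2 V → ℝ) (k : ℕ) (o : V) : ℝ :=
  ∑ y, p s(o, y) * Gk p k y o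
    + (1/2) * ∑ y, ∑ y' ∈ univ.erase y, p s(o, y) * (p s(o, y') * Hk p k y y')

theorem chi_lower {p : Sym2 V → ℝ} (hp : Adm p) {β : ℝ} (hβ0 : 0 ≤ β) (hβ1 : β < 1)
    (hrow : ∀ x, ∑ w, p s(x, w) = β) (hT : Trans p) (o : V) :
    1 - (1 / (1 - β)) * loss p (Fintype.card V) o
      ≤ (1 - β) * ex p (fun ω => ((cl ω univ o).card : ℝ)) := by
  set g := 1 / (1 - β) with hg
  set χ := ex p (fun ω => ((cl ω univ o).card : ℝ)) with hχ
  set k := Fintype.card V with hk
  set B := (univ : Finset V).erase o with hB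
  have hoB : o ∉ B := Finset.notMem_erase o univ
  have hrow' : ∀ x, ∑ w, p s(x, w) ≤ β := fun x => (hrow x).le
  have hcardB : B.card ≤ k := by
    rw [hB, hk, ← Finset.card_univ]; exact Finset.card_le_card (Finset.erase_subset _ _)
  have hcardU : (univ : Finset V).card ≤ k := by rw [hk, Finset.card_univ]
  have hpt : ∀ ω : Sym2 V → Bool, 1 + ∑ y, xi ω o y * ((cl ω B y).card : ℝ)
      - (1/2) * ∑ y, ∑ y' ∈ univ.erase y, xi ω o y * (xi ω o y' *
        (inC ω B y y' * ((cl ω B y).card : ℝ))) ≤ ((cl ω univ o).card : ℝ) := by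
    intro ω
    rw [card_cl ω univ o]
    calc 1 + ∑ y, xi ω o y * ((cl ω B y).card : ℝ)
          - (1/2) * ∑ y, ∑ y' ∈ univ.erase y, xi ω o y * (xi ω o y' *
            (inC ω B y y' * ((cl ω B y).card : ℝ)))
        = ∑ z, ((if z = o then 1 else 0) + ∑ y, xi ω o y * inC ω B y z
          - (1/2) * ∑ y, ∑ y' ∈ univ.erase y, xi ω o y * (xi ω o y' *
            (inC ω B y y' * inC ω B y z))) := by
          rw [Finset.sum_sub_distrib, Finset.sum_add_distrib, ← Finset.mul_sum]
          congr 1
          · congr 1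
            · simp
            · rw [Finset.sum_comm]
              refine Finset.sum_congr rfl fun y _ => ?_
              rw [card_cl, Finset.mul_sum]
          · congr 1
            rw [Finset.sum_comm]
            refine Finset.sum_congr rfl fun y _ => ?_
            rw [Finset.sum_comm]
            refine Finset.sum_congr rfl fun y' _ => ?_
            rw [card_cl]
            simp_rw [Finset.mul_sum]
      _ ≤ ∑ z, inC ω univ o z := Finset.sum_le_sum fun z _ => inC_lower ω o z
  have h1 := ex_mono hp hpt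
  rw [ex_sub, ex_add, ex_const, ex_sum, ex_smul, ex_sum] at h1
  have h2 : ∀ y, p s(o, y) * (χ - g * Gk p k y o)
      ≤ ex p (fun ω => xi ω o y * ((cl ω B y).card : ℝ)) := by
    intro y
    rw [ex_edge_mul p hoB y (InDep.cl y (fun S => (S.card : ℝ)))]
    refine mul_le_mul_of_nonneg_left ?_ (hp _).1
    have h3 : ∀ ω : Sym2 V → Bool, ((cl ω univ y).card : ℝ) - Dl o ω univ y
        ≤ ((cl ω B y).card : ℝ) := by
      intro ω
      rw [card_cl, card_cl]
      unfold Dl
      rw [← Finset.sum_sub_distrib]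
      refine Finset.sum_le_sum fun z _ => ?_
      unfold inC
      by_cases ha : z ∈ cl ω univ y <;> by_cases hb : z ∈ cl ω B y
      · rw [if_pos ha, if_pos hb, if_neg (by rw [← hB]; tauto)]; norm_num
      · rw [if_pos ha, if_neg hb, if_pos (by rw [← hB]; tauto)]; norm_num
      · rw [if_neg ha, if_pos hb, if_neg (by tauto)]; norm_num
      · rw [if_neg ha, if_neg hb, if_neg (by tauto)]; norm_num
    have h4 := ex_mono hp h3
    rw [ex_sub] at h4
    have h5 := Dl_le hp hβ0 hβ1 hrow' o k univ hcardU y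
    have h6 : ex p (fun ω => ((cl ω univ y).card : ℝ)) = χ :=
      ex_card_eq hT (fun n => (n : ℝ)) y o
    rw [h6] at h4
    linarith
  have h3 : ∀ y, ex p (fun ω => ∑ y' ∈ univ.erase y, xi ω o y * (xi ω o y' *
        (inC ω B y y' * ((cl ω B y).card : ℝ))))
      ≤ ∑ y' ∈ univ.erase y, p s(o, y) * (p s(o, y') * (g * Hk p k y y')) := by
    intro y
    rw [ex_sum]
    refine Finset.sum_le_sum fun y' hy' => ?_
    rw [ex_edge_mul2 p (f := fun ω => inC ω B y y' * ((cl ω B y).card : ℝ)) hoB
      (Finset.ne_of_mem_erase hy').symm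
      (InDep.cl y (fun S => (if y' ∈ S then (1:ℝ) else 0) * (S.card : ℝ)))]
    refine mul_le_mul_of_nonneg_left (mul_le_mul_of_nonneg_left ?_ (hp _).1) (hp _).1
    exact F_le hp hβ0 hβ1 hrow' y' k B hcardB y
  have h4 := Finset.sum_le_sum fun y (_ : y ∈ (univ : Finset V)) => h2 y
  have h5 := Finset.sum_le_sum fun y (_ : y ∈ (univ : Finset V)) => h3 y
  have h6 : ∑ y, p s(o, y) * (χ - g * Gk p k y o)
      = β * χ - g * ∑ y, p s(o, y) * Gk p k y o := by
    rw [← hrow o, Finset.sum_mul, Finset.mul_sum, ← Finset.sum_sub_distrib]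
    exact Finset.sum_congr rfl fun y _ => by ring
  have h7 : ∑ y, ∑ y' ∈ univ.erase y, p s(o, y) * (p s(o, y') * (g * Hk p k y y'))
      = g * ∑ y, ∑ y' ∈ univ.erase y, p s(o, y) * (p s(o, y') * Hk p k y y') := by
    rw [Finset.mul_sum]
    refine Finset.sum_congr rfl fun y _ => ?_
    rw [Finset.mul_sum]
    exact Finset.sum_congr rfl fun y' _ => by ring
  rw [h6] at h4
  rw [h7] at h5
  unfold loss
  have h8 : ex p (fun ω => ((cl ω univ o).card : ℝ)) = χ := rfl
  rw [h8] at h1
  nlinarith [h1, h4, h5]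

end Pool.Agent.H890.C
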