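import Pool.Agent.H890.C.Asym

set_option autoImplicit false
set_option linter.unusedSectionVars false
set_option linter.unusedVariables false

/-! The asymptotic theorem. -/

namespace Pool.Agent.H890.C

open Finset Filter Topology Classical

variable {d L : ℕ} [NeZero L]

theorem exp_conc {a s : ℝ} (hs0 : 0 ≤ s) (hs1 : s ≤ 1) :
    (1 - s) * (1 - Real.exp (-a)) ≤ 1 - Real.exp (-((1 - s) * a)) := by
  have h := convexOn_exp.2 (Set.mem_univ (-a)) (Set.mem_univ (0:ℝ)) (by linarith : 0 ≤ 1 - s) hs0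
    (by ring)
  simp only [smul_eq_mul, mul_zero, add_zero, Real.exp_zero, mul_one] at h
  have h2 : -((1 - s) * a) = (1 - s) * -a := by ring
  rw [h2]; linarith

theorem main_asym (hd : 1 ≤ d) (hL : 2 ≤ L) {A A1 A2 B : ℝ} (hA : 0 < A) (hA1 : 0 < A1)
    (hA12 : A1 ≤ A2) (hA9 : ((L:ℝ)^d)^7 < A^9) (hAT : A < (L:ℝ)^d) (hB : 0 < B)
    (hB3 : B^3 = ((L:ℝ)^d)^4) {ρi : ℕ → ℝ}
    (hρ : ∀ i, 1 ≤ i → A1 / A ^ i ≤ ρi i ∧ ρi i ≤ A2 / A ^ i) {ζ : ℕ → ℝ}
    (hζ0 : ∀ n, 2 ≤ n → 0 < ζ n)
    (hζ : ∀ n, 2 ≤ n → ∑ i ∈ Finset.Icc 1 n, (((L:ℝ)^d)^i - ((L:ℝ)^d)^(i-1)) *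
      (1 - Real.exp (-(ρi i / ζ n))) = 1) (lam : ℝ) {g : ℕ → ℕ → ℝ}
    (hg01 : ∀ n i, 0 ≤ g n i ∧ g n i ≤ 1)
    (hg : ∀ n, 2 ≤ n → ∀ i ∈ Finset.Icc 1 n,
      g n i = 1 - Real.exp (-(max (ρi i / ζ n + lam * (1/B)^n) 0))) :
    Tendsto (fun n : ℕ => ex (levP (d := d) (L := L) (n := n) (g n))
      (fun ω => if Bad (fun v => v + uvec 0) (fun v => v + uvec 1) ω then 1 else 0))
      atTop (𝓝 0) := by
  set T : ℝ := (L:ℝ)^d with hTdef
  have hA2 : 0 < A2 := lt_of_lt_of_le hA1 hA12
  have hL' : (2:ℝ) ≤ L := by exact_mod_cast hL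
  have hT : 2 ≤ T := by
    calc (2:ℝ) ≤ L := hL'
      _ = (L:ℝ)^1 := (pow_one _).symm
      _ ≤ (L:ℝ)^d := pow_le_pow_right₀ (by linarith) hd
  have hT0 : 0 < T := by linarith
  have hT1 : 1 ≤ T := by linarith
  have hA1' : 1 < A := by
    have h1 : (1:ℝ) ≤ T^7 := one_le_pow₀ hT1
    by_contra hcon
    push Not at hcon
    have : A^9 ≤ 1 := pow_le_one₀ hA.le hcon
    linarith
  have hATsq : T < A^2 := by
    by_contra hcon
    push Not at hcon
    have h1 : (A^2)^9 ≤ T^9 := pow_le_pow_left₀ (by positivity) hcon 9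
    have h2 : (T^7)^2 < (A^9)^2 := pow_lt_pow_left₀ hA9 (by positivity) (by norm_num)
    have h3 : T^9 ≤ T^14 := pow_le_pow_right₀ hT1 (by norm_num)
    have h4 : (A^2)^9 = (A^9)^2 := by ring
    have h5 : (T^7)^2 = T^14 := by ring
    linarith
  set r := T/A with hr
  have hr1 : 1 < r := by rw [hr, one_lt_div hA]; exact hAT
  have hr0 : 0 < r := by linarith
  have hr9 : r^9 < T^2 := by
    rw [hr, div_pow, div_lt_iff₀ (by positivity)]
    calc T^9 = T^2 * T^7 := by ring
      _ < T^2 * A^9 := mul_lt_mul_of_pos_left hA9 (by positivity)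
  obtain ⟨w, hw1, hwr, hw3⟩ := exists_w hr1 (B := T^2/r^9)
    (by rw [one_lt_div (by positivity)]; exact hr9)
  have hw0 : 0 < w := by linarith
  set u := Real.sqrt (r^3 * w) with hu
  have hu2 : u^2 = r^3 * w := Real.sq_sqrt (by positivity)
  have hu0 : 0 < u := Real.sqrt_pos.2 (by positivity)
  have hu1 : 1 < u := by
    have : (1:ℝ) < u^2 := by
      rw [hu2]
      have : (1:ℝ) < r^3 := one_lt_pow₀ hr1 (by norm_num)
      nlinarith
    nlinarith
  have hur : u < r^2 := by
    have h1 : u^2 < (r^2)^2 := by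
      rw [hu2]
      have : (0:ℝ) < r^3 := by positivity
      nlinarith
    exact lt_of_pow_lt_pow_left₀ 2 (by positivity) h1
  have hu3 : u^3 < T := by
    have h1 : (u^3)^2 < T^2 := by
      have : (u^3)^2 = (u^2)^3 := by ring
      rw [this, hu2]
      rw [lt_div_iff₀ (by positivity)] at hw3
      calc (r^3*w)^3 = w^3 * r^9 := by ring
        _ < T^2 := hw3
    exact lt_of_pow_lt_pow_left₀ 2 (by positivity) h1
  have huT : u < T := by
    have : u ≤ u^3 := by nlinarith [mul_pos hu0 hu0]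
    linarith
  have hTuB : T * u < B := by
    have h1 : (T*u)^3 < B^3 := by
      rw [hB3, mul_pow]
      calc T^3 * u^3 < T^3 * T := mul_lt_mul_of_pos_left hu3 (by positivity)
        _ = T^4 := by ring
    exact lt_of_pow_lt_pow_left₀ 3 hB.le h1
  set C2 := A2 * (r / (r - 1)) with hC2
  have hrr : 1 ≤ r / (r - 1) := by rw [le_div_iff₀ (by linarith)]; linarith
  have hC20 : 0 < C2 := mul_pos hA2 (by linarith)
  have hC2A : A2 ≤ C2 := by rw [hC2]; nlinarith
  set c := A1 / (4 * C2) with hc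
  have hc0 : 0 < c := by positivity
  have hc1 : c ≤ 1 := by
    rw [hc, div_le_one (by positivity)]; linarith
  have hcC : 4 * c * C2 = A1 := by rw [hc]; field_simp
  set Kσ := (16 * A2^2 / A1^2) * (1/(1 - T/A^2)) with hKσ
  have hv1 : T/A^2 < 1 := by rw [div_lt_one (by positivity)]; exact hATsq
  have hKσ0 : 0 < Kσ := by
    have : 0 < 1/(1 - T/A^2) := by
      apply one_div_pos.2; linarith
    positivity
  set b : ℝ := T^2 with hb
  have hb0 : 0 < b := by positivity
  -- eventual facts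
  have E1 := ev_small (x := u⁻¹) (by positivity) (inv_lt_one_of_one_lt₀ hu1) 1
    (ε := min (1/2) c) (lt_min (by norm_num) hc0)
  have E2 := ev_small (x := r⁻¹) (by positivity) (inv_lt_one_of_one_lt₀ hr1) (8 * A2 / A1)
    (ε := 1) (by norm_num)
  have E3 := ev_small (x := (r^2)⁻¹) (by positivity)
    (inv_lt_one_of_one_lt₀ (one_lt_pow₀ hr1 (by norm_num))) Kσ (ε := 1/8) (by norm_num)
  have E3' := ev_small (x := u/r^2) (by positivity) (by rw [div_lt_one (by positivity)]; exact hur)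
    Kσ (ε := c^2/32) (by positivity)
  have E4 := ev_small (x := u^3/T) (by positivity) (by rw [div_lt_one hT0]; exact hu3) 48
    (ε := 1) (by norm_num)
  have E5 := ev_small (x := u/T) (by positivity) (by rw [div_lt_one hT0]; exact huT) c
    (ε := 1/2) (by norm_num)
  have E6 := ev_small (x := T*u/B) (by positivity) (by rw [div_lt_one hB]; exact hTuB) |lam|
    (ε := 4*c) (by positivity)
  have E7 := ev_small (x := (u^2)⁻¹) (by positivity)
    (inv_lt_one_of_one_lt₀ (one_lt_pow₀ hu1 (by norm_num))) (1152 * b) (ε := 1) (by norm_num)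
  set κ0 := c^3 / (A^6 * (1152 * b)) with hκ0
  have hκ00 : 0 < κ0 := by positivity
  have hlim : Tendsto (fun n : ℕ => 256 * (u^3/T)^n + T^n * Real.exp (-(κ0 * w^n)))
      atTop (𝓝 0) := by
    have h1 := (tendsto_pow_atTop_nhds_zero_of_lt_one (r := u^3/T) (by positivity)
      (by rw [div_lt_one hT0]; exact hu3)).const_mul 256
    have h2 := tendsto_exp_decay hT1 hw1 hκ00
    have := h1.add h2
    simpa using this
  refine tendsto_of_tendsto_of_tendsto_of_le_of_le' tendsto_const_nhds hlim ?_ ?_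
  · refine Eventually.of_forall fun n => ?_
    refine ex_nonneg ?_ (fun ω => by split_ifs <;> norm_num)
    intro e'
    induction e' using Sym2.ind with
    | _ x y => exact hg01 _ _
  filter_upwards [E1, E2, E3, E3', E4, E5, E6, E7, eventually_ge_atTop 2] with n e1 e2 e3 e3' e4
    e5 e6 e7 hn
  set s := (u⁻¹)^n with hs
  have hs0 : 0 < s := by positivity
  rw [one_mul] at e1
  have hs1 : s ≤ 1/2 := e1.trans (min_le_left _ _)
  have hsc : s ≤ c := e1.trans (min_le_right _ _)
  have hz0 := hζ0 n hn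
  have hz := hζ n hn
  set z := ζ n with hzdef
  have hzl : (A1/4) * r^n ≤ z := z_lower hT hA hA1 hAT hρ hn hz0 hz
  have hzu : z ≤ C2 * r^n := z_upper hT hA hA1 hAT hρ hz0 hA2 hz
  have hrn : 0 < r^n := by positivity
  have hz2 : 2 * A2 ≤ z := by
    refine le_trans ?_ hzl
    rw [inv_pow] at e2
    have : 8 * A2 / A1 * (r^n)⁻¹ = (8*A2)/(A1 * r^n) := by field_simp
    rw [this, div_le_one (by positivity)] at e2
    linarith
  -- bounds on the levels
  have hρ0 : ∀ i, 1 ≤ i → 0 < ρi i := fun i hi => lt_of_lt_of_le (by positivity) (hρ i hi).1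
  have hρz : ∀ i, 1 ≤ i → ρi i / z ≤ 1/2 := by
    intro i hi
    rw [div_le_iff₀ hz0]
    have h1 := (hρ i hi).2
    have h2 : A2 / A^i ≤ A2 := div_le_self hA2.le (one_le_pow₀ hA1'.le)
    linarith
  have he_low : ∀ i, 1 ≤ i → (ρi i / z)/2 ≤ 1 - Real.exp (-(ρi i / z)) := by
    intro i hi
    have h0 : 0 < ρi i / z := div_pos (hρ0 i hi) hz0
    refine le_trans ?_ (one_sub_exp_ge h0.le)
    apply div_le_div_of_nonneg_left h0.le (by linarith)
    have := hρz i hi
    linarith
  have hρlow : ∀ i, 1 ≤ i → (A1/C2) * (1/A^i) * (1/r^n) ≤ ρi i / z := by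
    intro i hi
    rw [le_div_iff₀ hz0]
    calc (A1/C2) * (1/A^i) * (1/r^n) * z ≤ (A1/C2) * (1/A^i) * (1/r^n) * (C2 * r^n) :=
          mul_le_mul_of_nonneg_left hzu (by positivity)
      _ = A1 / A^i := by field_simp
      _ ≤ ρi i := (hρ i hi).1
  have hρT : ∀ i ∈ Finset.Icc 1 n, 4*c/T^n ≤ ρi i / z := by
    intro i hi
    rw [Finset.mem_Icc] at hi
    refine le_trans ?_ (hρlow i hi.1)
    have h1 : 1/A^n ≤ 1/A^i := by
      apply one_div_le_one_div_of_le (by positivity)
      exact pow_le_pow_right₀ hA1'.le hi.2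
    calc 4*c/T^n = (A1/C2) * (1/A^n) * (1/r^n) := by
          rw [hr, div_pow, hc]; field_simp
      _ ≤ _ := by
          refine mul_le_mul_of_nonneg_right (mul_le_mul_of_nonneg_left h1 (by positivity))
            (by positivity)
  have hρA2 : ∀ i, 1 ≤ i → i ≤ 2 → 4 * c * (1/A^2) * (r⁻¹)^n ≤ ρi i / z := by
    intro i hi hi2
    refine le_trans ?_ (hρlow i hi)
    have h1 : 1/A^2 ≤ 1/A^i := by
      apply one_div_le_one_div_of_le (by positivity)
      exact pow_le_pow_right₀ hA1'.le hi2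
    calc 4 * c * (1/A^2) * (r⁻¹)^n = (A1/C2) * (1/A^2) * (1/r^n) := by
          rw [hc, inv_pow]; field_simp
      _ ≤ _ := by
          refine mul_le_mul_of_nonneg_right (mul_le_mul_of_nonneg_left h1 (by positivity))
            (by positivity)
  set q0 := c * (1/A^2) * (r⁻¹)^n with hq0
  have hq00 : 0 < q0 := by positivity
  set k := ⌊1/(576 * b * s^2)⌋₊ with hk
  have hs2 : s^2 = ((u^2)⁻¹)^n := by
    rw [hs, ← pow_mul, mul_comm n 2, pow_mul, inv_pow u 2]
  have hbs : 576 * b * s^2 ≤ 1/2 := by rw [hs2]; linarith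
  have hk1 : 2 ≤ 1/(576 * b * s^2) := by
    rw [le_div_iff₀ (by positivity)]; linarith
  have hk2 : (k : ℝ) ≤ 1/(576 * b * s^2) := Nat.floor_le (by positivity)
  have hk3 : 1/(1152 * b * s^2) ≤ (k : ℝ) := by
    have h1 := Nat.lt_floor_add_one (1/(576 * b * s^2))
    have h2 : 1/(576 * b * s^2) = 1/(1152 * b * s^2) + 1/(1152 * b * s^2) := by
      field_simp; norm_num
    have h3 : (1:ℝ) ≤ 1/(1152 * b * s^2) := by linarith
    rw [← hk] at h1
    linarith
  have hkpos : 1 ≤ k := by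
    rw [hk]
    apply Nat.le_floor
    push_cast
    linarith
  have hbL : (((L^d)^2 : ℕ) : ℝ) = b := by rw [hb, hTdef]; push_cast; rfl
  have hmain := step_bound (n := n) hd hL hn (fun i => 1 - Real.exp (-(ρi i / z))) (g n)
    (s := s) (c := c) (σ := Kσ * ((r^2)⁻¹)^n) (q0 := q0) hs0 hs1 hsc hc1
    (fun i hi => by
      have h0 : 0 < ρi i / z := div_pos (hρ0 i (Finset.mem_Icc.1 hi).1) hz0
      have := he_low i (Finset.mem_Icc.1 hi).1
      linarith)
    (fun i hi => by
      have h1 := he_low i (Finset.mem_Icc.1 hi).1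
      have h2 := hρT i hi
      have h3 : 4*c/T^n = 4 * (c/T^n) := by ring
      rw [h3] at h2
      linarith)
    (fun i hi => by
      have h1 := one_sub_exp_le (ρi i / z)
      have h2 := hρz i (Finset.mem_Icc.1 hi).1
      linarith)
    hz
    (by
      refine (sq_sum_le hT hA hA1 hATsq hρ hz0).trans ?_
      have h1 : A2^2/z^2 ≤ (16 * A2^2/A1^2) * ((r^2)⁻¹)^n := by
        have h2 : ((A1/4) * r^n)^2 ≤ z^2 := pow_le_pow_left₀ (by positivity) hzl 2
        have h3 : (16 * A2^2/A1^2) * ((r^2)⁻¹)^n = A2^2/((A1/4) * r^n)^2 := by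
          rw [inv_pow, ← pow_mul, mul_comm 2 n, pow_mul]; field_simp; norm_num
        rw [h3]
        exact div_le_div_of_nonneg_left (by positivity) (by positivity) h2
      have h4 : 0 < 1/(1 - T/A^2) := by
        apply one_div_pos.2; linarith
      calc (A2^2/z^2) * (1/(1 - T/A^2)) ≤ ((16 * A2^2/A1^2) * ((r^2)⁻¹)^n) * (1/(1 - T/A^2)) :=
            mul_le_mul_of_nonneg_right h1 h4.le
        _ = Kσ * ((r^2)⁻¹)^n := by rw [hKσ]; ring)
    e3
    (by
      have h1 : ((r^2)⁻¹)^n = (u/r^2)^n * s := by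
        rw [hs, ← mul_pow]; congr 1; field_simp
      rw [h1]
      have h2 := mul_le_mul_of_nonneg_right e3' hs0.le
      calc Kσ * ((u/r^2)^n * s) = Kσ * (u/r^2)^n * s := by ring
        _ ≤ c^2/32 * s := h2
        _ = c^2 * s/32 := by ring)
    (by
      have h1 : s^3 * T^n * (u^3/T)^n = 1 := by
        rw [hs, ← pow_mul, mul_comm n 3, pow_mul, ← mul_pow, ← mul_pow]
        have : (u⁻¹)^3 * T * (u^3/T) = 1 := by field_simp
        rw [this, one_pow]
      have h2 : 0 < (u^3/T)^n := by positivity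
      have h3 : 0 < s^3 * T^n := by positivity
      change 48 ≤ s^3 * T^n
      nlinarith)
    (by
      change c / T^n ≤ s/2
      have h1 : (1/T^n) = (u/T)^n * s := by
        rw [hs, ← mul_pow]
        have : u/T * u⁻¹ = 1/T := by field_simp
        rw [this, one_div, one_div, inv_pow]
      have h2 := mul_le_mul_of_nonneg_right e5 hs0.le
      calc c/T^n = c * (1/T^n) := by ring
        _ = c * (u/T)^n * s := by rw [h1]; ring
        _ ≤ 1/2 * s := h2
        _ = s/2 := by ring)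
    (hg01 n)
    (fun i hi => by
      rw [hg n hn i hi]
      have h0 : 0 < ρi i / z := div_pos (hρ0 i (Finset.mem_Icc.1 hi).1) hz0
      refine (exp_conc (a := ρi i / z) hs0.le (by linarith)).trans ?_
      have h1 : (1 - s) * (ρi i / z) ≤ max (ρi i / z + lam * (1/B)^n) 0 := by
        refine le_trans ?_ (le_max_left _ _)
        have h2 : |lam| * (1/B)^n ≤ s * (ρi i / z) := by
          have h3 : (1/B)^n = (T*u/B)^n * s * (1/T^n) := by
            have h5 : (1:ℝ)/T^n = (1/T)^n := by rw [one_div, one_div, inv_pow]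
            rw [h5, hs, ← mul_pow, ← mul_pow]; congr 1; field_simp
          rw [h3]
          have h4 := hρT i hi
          calc |lam| * ((T*u/B)^n * s * (1/T^n)) = (|lam| * (T*u/B)^n) * (s * (1/T^n)) := by ring
            _ ≤ (4*c) * (s * (1/T^n)) := mul_le_mul_of_nonneg_right e6 (by positivity)
            _ = s * (4*c/T^n) := by ring
            _ ≤ s * (ρi i / z) := mul_le_mul_of_nonneg_left h4 hs0.le
        have h5 : -(|lam| * (1/B)^n) ≤ lam * (1/B)^n := by
          have h6 : 0 ≤ (1/B)^n := by positivity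
          have h7 := neg_abs_le lam
          nlinarith
        have : (1 - s) * (ρi i / z) = ρi i / z - s * (ρi i / z) := by ring
        linarith
      have h2 : Real.exp (-(max (ρi i / z + lam * (1/B)^n) 0))
          ≤ Real.exp (-((1 - s) * (ρi i / z))) := Real.exp_le_exp.2 (by linarith)
      linarith)
    hq00.le
    (by
      have h1 := he_low 1 le_rfl
      have h2 := hρA2 1 le_rfl (by norm_num)
      have h3 : 4 * c * (1/A^2) * (r⁻¹)^n = 4 * q0 := by rw [hq0]; ring
      rw [h3] at h2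
      have h4 : 2 * q0 ≤ 1 - Real.exp (-(ρi 1 / z)) := by linarith
      have h5 : (1/2) * (2 * q0) ≤ (1 - s) * (1 - Real.exp (-(ρi 1 / z))) :=
        mul_le_mul (by linarith) h4 (by positivity) (by linarith)
      linarith)
    (by
      have h1 := he_low 2 (by norm_num)
      have h2 := hρA2 2 (by norm_num) le_rfl
      have h3 : 4 * c * (1/A^2) * (r⁻¹)^n = 4 * q0 := by rw [hq0]; ring
      rw [h3] at h2
      have h4 : 2 * q0 ≤ 1 - Real.exp (-(ρi 2 / z)) := by linarith
      have h5 : (1/2) * (2 * q0) ≤ (1 - s) * (1 - Real.exp (-(ρi 2 / z))) :=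
        mul_le_mul (by linarith) h4 (by positivity) (by linarith)
      linarith)
    k
    (by
      have h1 : 1 ≤ (L^d)^2 := Nat.one_le_iff_ne_zero.2 (by positivity)
      calc 1 = 1 * 1 := rfl
        _ ≤ (L^d)^2 * k := Nat.mul_le_mul h1 hkpos)
    (by
      have h1 : ((((L^d)^2 * k : ℕ)) : ℝ) = b * k := by
        rw [Nat.cast_mul, hbL]
      rw [h1]
      have h2 : b * k ≤ (1/(24*s))^2 := by
        calc b * k ≤ b * (1/(576 * b * s^2)) := mul_le_mul_of_nonneg_left hk2 hb0.le
          _ = (1/(24*s))^2 := by field_simp; norm_num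
      have h3 : Real.sqrt (b * k) ≤ 1/(24*s) := by
        rw [← Real.sqrt_sq (by positivity : (0:ℝ) ≤ 1/(24*s))]
        exact Real.sqrt_le_sqrt h2
      calc 6 * Real.sqrt (b * k) ≤ 6 * (1/(24*s)) := by linarith
        _ = 1/(4*s) := by field_simp; norm_num)
  refine hmain.trans ?_
  change 256 / (s^3 * T^n) + T^n * (1 - q0^3)^k ≤ _
  refine add_le_add ?_ ?_
  · have h1 : s^3 * T^n * (u^3/T)^n = 1 := by
      rw [hs, ← pow_mul, mul_comm n 3, pow_mul, ← mul_pow, ← mul_pow]
      have : (u⁻¹)^3 * T * (u^3/T) = 1 := by field_simp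
      rw [this, one_pow]
    have h3 : 0 < s^3 * T^n := by positivity
    rw [div_le_iff₀ h3]
    nlinarith
  · refine mul_le_mul_of_nonneg_left ?_ (by positivity)
    have hq1 : q0 ≤ 1 := by
      have h1 := hρA2 1 le_rfl (by norm_num)
      have h2 := hρz 1 le_rfl
      have h3 : 4 * c * (1/A^2) * (r⁻¹)^n = 4 * q0 := by rw [hq0]; ring
      rw [h3] at h1
      linarith
    have h0 : 0 ≤ 1 - q0^3 := by
      have : q0^3 ≤ 1 := pow_le_one₀ hq00.le hq1
      linarith
    have h1 : (1 - q0^3)^k ≤ Real.exp (-(q0^3))^k :=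
      pow_le_pow_left₀ h0 (Real.one_sub_le_exp_neg _) k
    refine h1.trans ?_
    rw [← Real.exp_nat_mul]
    apply Real.exp_le_exp.2
    have h2 : κ0 * w^n ≤ (k : ℝ) * q0^3 := by
      have h3 : κ0 * w^n = (1/(1152 * b * s^2)) * q0^3 := by
        have ha : s^2 = 1/((r^3)^n * w^n) := by
          rw [hs2, hu2, inv_pow, mul_pow, one_div]
        have hb' : q0^3 = c^3 * (1/A^6) * (1/(r^3)^n) := by
          have hr3 : ((r⁻¹)^n)^3 = 1/(r^3)^n := by
            rw [← pow_mul, mul_comm n 3, pow_mul, inv_pow r 3, inv_pow, one_div]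
          rw [hq0, mul_pow, mul_pow, hr3]
          congr 1
          congr 1
          rw [div_pow, one_pow, ← pow_mul]
        rw [ha, hb', hκ0]
        have hwn : 0 < w^n := by positivity
        have hr3n : 0 < (r^3)^n := by positivity
        field_simp
      rw [h3]
      exact mul_le_mul_of_nonneg_right hk3 (by positivity)
    linarith

end Pool.Agent.H890.C
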