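import Pool.Agent.H890.C.Cluster

set_option autoImplicit false
set_option linter.unusedSectionVars false
set_option linter.unusedVariables false

/-! Moment bounds by vertex removal. -/

namespace Pool.Agent.H890.C

open Finset Classical

variable {V : Type} [Fintype V] [DecidableEq V]

/-- indicator that the edge `xw` is open -/
noncomputable def xi (ω : Sym2 V → Bool) (x w : V) : ℝ := if ω s(x, w) = true then 1 else 0

theorem xi_nonneg (ω : Sym2 V → Bool) (x w : V) : 0 ≤ xi ω x w := by
  unfold xi; split_ifs <;> norm_num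

/-- `f` only depends on edges inside `B` -/
def InDep (B : Finset V) (f : (Sym2 V → Bool) → ℝ) : Prop :=
  ∀ ω η : Sym2 V → Bool, (∀ u ∈ B, ∀ v ∈ B, ω s(u, v) = η s(u, v)) → f ω = f η

theorem InDep.cl {B : Finset V} (w : V) (F : Finset V → ℝ) :
    InDep B (fun ω => F (cl ω B w)) := by
  intro ω η h
  simp only [cl_congr h w]

theorem ex_edge_mul (p : Sym2 V → ℝ) {B : Finset V} {x : V} (hx : x ∉ B) (w : V)
    {f : (Sym2 V → Bool) → ℝ} (hf : InDep B f) :
    ex p (fun ω => xi ω x w * f ω) = p s(x, w) * ex p f := by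
  refine ex_coord_mul p s(x, w) f ?_
  intro ω η h
  refine hf ω η fun u hu v hv => h _ ?_
  intro hc
  have : x ∈ s(u, v) := by rw [hc]; simp
  rw [Sym2.mem_iff] at this
  rcases this with rfl | rfl
  · exact hx hu
  · exact hx hv

theorem ex_edge_mul2 (p : Sym2 V → ℝ) {B : Finset V} {x : V} (hx : x ∉ B) {w w' : V}
    (hw : w ≠ w') {f : (Sym2 V → Bool) → ℝ} (hf : InDep B f) :
    ex p (fun ω => xi ω x w * (xi ω x w' * f ω)) = p s(x, w) * (p s(x, w') * ex p f) := by
  rw [← ex_edge_mul p hx w' hf]
  refine ex_coord_mul p s(x, w) _ ?_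
  intro ω η h
  have h1 : ω s(x, w') = η s(x, w') := by
    refine h _ ?_
    intro hc
    rw [Sym2.eq_iff] at hc
    rcases hc with ⟨_, h2⟩ | ⟨h2, h3⟩
    · exact hw h2.symm
    · exact hw (h2.symm.trans h3.symm)
  have h2 : f ω = f η := by
    refine hf ω η fun u hu v hv => h _ ?_
    intro hc
    have : x ∈ s(u, v) := by rw [hc]; simp
    rw [Sym2.mem_iff] at this
    rcases this with rfl | rfl
    · exact hx hu
    · exact hx hv
  simp only [xi, h1, h2]

theorem pair_bound {p : Sym2 V → ℝ} (hp : Adm p) {B : Finset V} {x : V} (hx : x ∉ B) (w w' : V)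
    (f g : Finset V → ℝ) (hf0 : ∀ S, 0 ≤ f S) (hg0 : ∀ S, 0 ≤ g S) (hge : g ∅ = 0)
    (hgm : ∀ S T, S ⊆ T → g S ≤ g T) :
    ex p (fun ω => xi ω x w * (xi ω x w' *
      (if w' ∈ cl ω B w then 0 else f (cl ω B w) * g (cl ω B w'))))
      ≤ p s(x, w) * (p s(x, w') * (ex p (fun ω => f (cl ω B w)) * ex p (fun ω => g (cl ω B w')))) := by
  by_cases hw : w = w'
  · subst hw
    have : ∀ ω : Sym2 V → Bool, xi ω x w * (xi ω x w *
      (if w ∈ cl ω B w then 0 else f (cl ω B w) * g (cl ω B w))) = 0 := by
      intro ω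
      by_cases hwB : w ∈ B
      · rw [if_pos (mem_cl.2 (Rch.refl hwB))]; ring
      · have h0 : cl ω B w = ∅ := by
          ext z
          rw [mem_cl]
          simp only [Finset.notMem_empty, iff_false]
          exact fun h => hwB h.left_mem
        rw [h0, hge]; simp
    simp_rw [this, ex_const]
    exact mul_nonneg (hp _).1 (mul_nonneg (hp _).1 (mul_nonneg (ex_nonneg hp fun ω => hf0 _)
      (ex_nonneg hp fun ω => hg0 _)))
  · rw [ex_edge_mul2 p hx hw]
    · refine mul_le_mul_of_nonneg_left (mul_le_mul_of_nonneg_left ?_ (hp _).1) (hp _).1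
      exact decouple hp B w w' f g hf0 hg0 hgm
    · intro ω η h
      simp only [cl_congr h w, cl_congr h w']

theorem cl_empty_of_notMem {ω : Sym2 V → Bool} {A : Finset V} {x : V} (hx : x ∉ A) :
    cl ω A x = ∅ := by
  ext z
  rw [mem_cl]
  simp only [Finset.notMem_empty, iff_false]
  exact fun h => hx h.left_mem

/-- indicator of membership in the cluster -/
noncomputable def inC (ω : Sym2 V → Bool) (A : Finset V) (x y : V) : ℝ :=
  if y ∈ cl ω A x then 1 else 0

theorem inC_nonneg (ω : Sym2 V → Bool) (A : Finset V) (x y : V) : 0 ≤ inC ω A x y := by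
  unfold inC; split_ifs <;> norm_num

theorem inC_le_one (ω : Sym2 V → Bool) (A : Finset V) (x y : V) : inC ω A x y ≤ 1 := by
  unfold inC; split_ifs <;> norm_num

theorem card_cl (ω : Sym2 V → Bool) (A : Finset V) (x : V) :
    ((cl ω A x).card : ℝ) = ∑ z, inC ω A x z := by
  unfold inC
  rw [Finset.sum_boole]
  congr 2
  ext z; simp

/-- one-step bound for membership -/
theorem inC_le {ω : Sym2 V → Bool} {A : Finset V} {x : V} (hx : x ∈ A) (y : V) :
    inC ω A x y ≤ (if x = y then 1 else 0) + ∑ w, xi ω x w * inC ω (A.erase x) w y := by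
  have hnn : ∀ w ∈ (univ : Finset V), 0 ≤ xi ω x w * inC ω (A.erase x) w y :=
    fun w _ => mul_nonneg (xi_nonneg _ _ _) (inC_nonneg _ _ _ _)
  by_cases hy : y ∈ cl ω A x
  · rw [mem_cl, rch_iff hx] at hy
    rcases hy with rfl | ⟨w, hw, how, hwr⟩
    · have h1 : (if y = y then (1:ℝ) else 0) = 1 := if_pos rfl
      rw [h1]
      have := inC_le_one ω A y y
      have := Finset.sum_nonneg hnn
      linarith
    · have h1 : xi ω x w * inC ω (A.erase x) w y = 1 := by
        unfold xi inC
        rw [if_pos how, if_pos (mem_cl.2 hwr)]; norm_num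
      have h2 := Finset.single_le_sum hnn (Finset.mem_univ w)
      rw [h1] at h2
      have h3 : (0:ℝ) ≤ if x = y then 1 else 0 := by split_ifs <;> norm_num
      have := inC_le_one ω A x y
      linarith
  · have h0 : inC ω A x y = 0 := by unfold inC; rw [if_neg hy]
    rw [h0]
    have h3 : (0:ℝ) ≤ if x = y then 1 else 0 := by split_ifs <;> norm_num
    have := Finset.sum_nonneg hnn
    linarith

/-- indicator of a vertex of the cluster different from the root -/
theorem inC_le' {ω : Sym2 V → Bool} {A : Finset V} {x : V} (hx : x ∈ A) {y : V} (hxy : y ≠ x) :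
    inC ω A x y ≤ ∑ w, xi ω x w * inC ω (A.erase x) w y := by
  have := inC_le (ω := ω) hx y
  rw [if_neg hxy.symm, zero_add] at this
  exact this

/-- pair bound: two vertices of the cluster different from the root -/
theorem inC_pair {ω : Sym2 V → Bool} {A : Finset V} {x : V} (hx : x ∈ A) {u v : V} (hu : u ≠ x)
    (hv : v ≠ x) :
    inC ω A x u * inC ω A x v ≤ ∑ w, xi ω x w * (inC ω (A.erase x) w u * inC ω (A.erase x) w v)
      + ∑ w, ∑ w', xi ω x w * (xi ω x w' * (if w' ∈ cl ω (A.erase x) w then 0 else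
          inC ω (A.erase x) w u * inC ω (A.erase x) w' v)) := by
  have hnn : ∀ w ∈ (univ : Finset V),
      0 ≤ xi ω x w * (inC ω (A.erase x) w u * inC ω (A.erase x) w v) :=
    fun w _ => mul_nonneg (xi_nonneg _ _ _) (mul_nonneg (inC_nonneg _ _ _ _) (inC_nonneg _ _ _ _))
  have hnn1 : ∀ w w' : V, 0 ≤ xi ω x w * (xi ω x w' * (if w' ∈ cl ω (A.erase x) w then 0 else
          inC ω (A.erase x) w u * inC ω (A.erase x) w' v)) := by
    intro w w'
    refine mul_nonneg (xi_nonneg _ _ _) (mul_nonneg (xi_nonneg _ _ _) ?_)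
    split_ifs
    · exact le_rfl
    · exact mul_nonneg (inC_nonneg _ _ _ _) (inC_nonneg _ _ _ _)
  have hnn2 : ∀ w ∈ (univ : Finset V), 0 ≤ ∑ w', xi ω x w * (xi ω x w' *
      (if w' ∈ cl ω (A.erase x) w then 0 else
          inC ω (A.erase x) w u * inC ω (A.erase x) w' v)) :=
    fun w _ => Finset.sum_nonneg fun w' _ => hnn1 w w'
  by_cases h : u ∈ cl ω A x ∧ v ∈ cl ω A x
  · obtain ⟨h1, h2⟩ := h
    have hL : inC ω A x u * inC ω A x v = 1 := by
      unfold inC; rw [if_pos h1, if_pos h2]; norm_num
    rw [hL]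
    rw [mem_cl, rch_iff hx] at h1 h2
    rcases h1 with rfl | ⟨w, hw, how, hwr⟩
    · exact absurd rfl hu
    rcases h2 with rfl | ⟨w', hw', how', hwr'⟩
    · exact absurd rfl hv
    by_cases hvw : v ∈ cl ω (A.erase x) w
    · have h3 : xi ω x w * (inC ω (A.erase x) w u * inC ω (A.erase x) w v) = 1 := by
        unfold xi inC
        rw [if_pos how, if_pos (mem_cl.2 hwr), if_pos hvw]; norm_num
      have h4 := Finset.single_le_sum hnn (Finset.mem_univ w)
      rw [h3] at h4
      have := Finset.sum_nonneg hnn2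
      linarith
    · have hww : w' ∉ cl ω (A.erase x) w := by
        intro hc
        apply hvw
        rw [← cl_eq_of_mem hc, mem_cl]
        exact hwr'
      have h3 : xi ω x w * (xi ω x w' * (if w' ∈ cl ω (A.erase x) w then 0 else
          inC ω (A.erase x) w u * inC ω (A.erase x) w' v)) = 1 := by
        rw [if_neg hww]
        unfold xi inC
        rw [if_pos how, if_pos how', if_pos (mem_cl.2 hwr), if_pos (mem_cl.2 hwr')]; norm_num
      have h4 := Finset.single_le_sum hnn2 (Finset.mem_univ w)
      have h5 := Finset.single_le_sum (fun w' _ => hnn1 w w') (Finset.mem_univ w')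
      rw [h3] at h5
      have := Finset.sum_nonneg hnn
      linarith
  · have hL : inC ω A x u * inC ω A x v = 0 := by
      unfold inC
      rcases not_and_or.1 h with h | h
      · rw [if_neg h]; ring
      · rw [if_neg h]; ring
    rw [hL]
    have := Finset.sum_nonneg hnn
    have := Finset.sum_nonneg hnn2
    linarith

/-- first moment of the cluster -/
theorem m1_le {p : Sym2 V → ℝ} (hp : Adm p) {β : ℝ} (hβ0 : 0 ≤ β) (hβ1 : β < 1)
    (hrow : ∀ x, ∑ w, p s(x, w) ≤ β) (n : ℕ) :
    ∀ (A : Finset V), A.card ≤ n → ∀ x, ex p (fun ω => ((cl ω A x).card : ℝ)) ≤ 1 / (1 - β) := by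
  have hg : 0 < 1 - β := by linarith
  have hg0 : 0 ≤ 1 / (1 - β) := by positivity
  have h0 : ∀ (A : Finset V) (x : V), x ∉ A →
      ex p (fun ω => ((cl ω A x).card : ℝ)) ≤ 1 / (1 - β) := by
    intro A x hx
    simp_rw [cl_empty_of_notMem hx]
    rw [ex_const]
    simpa using hg0
  induction n with
  | zero =>
    intro A hA x
    have : A = ∅ := by simpa using hA
    exact h0 A x (by simp [this])
  | succ n ih =>
    intro A hA x
    by_cases hx : x ∈ A
    · have hcard : (A.erase x).card ≤ n := by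
        rw [Finset.card_erase_of_mem hx]; omega
      have h1 : ∀ ω : Sym2 V → Bool, ((cl ω A x).card : ℝ)
          ≤ 1 + ∑ w, xi ω x w * ((cl ω (A.erase x) w).card : ℝ) := by
        intro ω
        rw [card_cl]
        calc ∑ z, inC ω A x z ≤ ∑ z, ((if x = z then (1:ℝ) else 0)
              + ∑ w, xi ω x w * inC ω (A.erase x) w z) := Finset.sum_le_sum fun z _ => inC_le hx z
          _ = 1 + ∑ w, xi ω x w * ((cl ω (A.erase x) w).card : ℝ) := by
            rw [Finset.sum_add_distrib]
            congr 1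
            · simp
            · rw [Finset.sum_comm]
              refine Finset.sum_congr rfl fun w _ => ?_
              rw [card_cl, Finset.mul_sum]
      refine (ex_mono hp h1).trans ?_
      rw [ex_add, ex_const, ex_sum]
      have h2 : ∀ w, ex p (fun ω => xi ω x w * ((cl ω (A.erase x) w).card : ℝ))
          ≤ p s(x, w) * (1 / (1 - β)) := by
        intro w
        rw [ex_edge_mul p (Finset.notMem_erase x A) w
          (InDep.cl w (fun S => (S.card : ℝ)))]
        exact mul_le_mul_of_nonneg_left (ih _ hcard w) (hp _).1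
      calc 1 + ∑ w, ex p (fun ω => xi ω x w * ((cl ω (A.erase x) w).card : ℝ))
          ≤ 1 + ∑ w, p s(x, w) * (1 / (1 - β)) := by
            have := Finset.sum_le_sum fun w (_ : w ∈ univ) => h2 w
            linarith
        _ ≤ 1 + β * (1 / (1 - β)) := by
            rw [← Finset.sum_mul]
            have := mul_le_mul_of_nonneg_right (hrow x) hg0
            linarith
        _ = 1 / (1 - β) := by field_simp; ring
    · exact h0 A x hx

/-- truncated Green kernel -/
noncomputable def Gk (p : Sym2 V → ℝ) : ℕ → V → V → ℝ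
  | 0, _, _ => 0
  | k+1, x, y => (if x = y then 1 else 0) + ∑ w, p s(x, w) * Gk p k w y

/-- truncated second order kernel -/
noncomputable def Hk (p : Sym2 V → ℝ) : ℕ → V → V → ℝ
  | 0, _, _ => 0
  | k+1, x, y => Gk p (k+1) x y + ∑ w, p s(x, w) * Hk p k w y

theorem Gk_nonneg {p : Sym2 V → ℝ} (hp : Adm p) (k : ℕ) : ∀ x y : V, 0 ≤ Gk p k x y := by
  induction k with
  | zero => intro x y; simp [Gk]
  | succ k ih =>
    intro x y
    unfold Gk
    have : (0:ℝ) ≤ if x = y then 1 else 0 := by split_ifs <;> norm_num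
    have := Finset.sum_nonneg fun w (_ : w ∈ univ) => mul_nonneg (hp s(x, w)).1 (ih w y)
    linarith

theorem Hk_nonneg {p : Sym2 V → ℝ} (hp : Adm p) (k : ℕ) : ∀ x y : V, 0 ≤ Hk p k x y := by
  induction k with
  | zero => intro x y; simp [Hk]
  | succ k ih =>
    intro x y
    unfold Hk
    have := Gk_nonneg hp (k+1) x y
    have := Finset.sum_nonneg fun w (_ : w ∈ univ) => mul_nonneg (hp s(x, w)).1 (ih w y)
    linarith

theorem tau_le {p : Sym2 V → ℝ} (hp : Adm p) (k : ℕ) :
    ∀ (A : Finset V), A.card ≤ k → ∀ x y, ex p (fun ω => inC ω A x y) ≤ Gk p k x y := by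
  have h0 : ∀ (k : ℕ) (A : Finset V) (x y : V), x ∉ A →
      ex p (fun ω => inC ω A x y) ≤ Gk p k x y := by
    intro k A x y hx
    unfold inC
    simp_rw [cl_empty_of_notMem hx]
    simpa [ex_const] using Gk_nonneg hp k x y
  induction k with
  | zero =>
    intro A hA x y
    have : A = ∅ := by simpa using hA
    exact h0 0 A x y (by simp [this])
  | succ k ih =>
    intro A hA x y
    by_cases hx : x ∈ A
    · have hcard : (A.erase x).card ≤ k := by
        rw [Finset.card_erase_of_mem hx]; omega
      refine (ex_mono hp fun ω => inC_le hx y).trans ?_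
      rw [ex_add, ex_const, ex_sum]
      unfold Gk
      have h2 : ∀ w, ex p (fun ω => xi ω x w * inC ω (A.erase x) w y)
          ≤ p s(x, w) * Gk p k w y := by
        intro w
        rw [ex_edge_mul p (f := fun ω => inC ω (A.erase x) w y) (Finset.notMem_erase x A) w
          (InDep.cl w (fun S => if y ∈ S then (1:ℝ) else 0))]
        exact mul_le_mul_of_nonneg_left (ih _ hcard w y) (hp _).1
      have := Finset.sum_le_sum fun w (_ : w ∈ univ) => h2 w
      linarith
    · exact h0 (k+1) A x y hx

end Pool.Agent.H890.C
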