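import Pool.Agent.H890.C.Moments

set_option autoImplicit false
set_option linter.unusedSectionVars false
set_option linter.unusedVariables false

/-! Second moment and loss terms by vertex removal. -/

namespace Pool.Agent.H890.C

open Finset Classical

variable {V : Type} [Fintype V] [DecidableEq V]

theorem inC_dep (B : Finset V) (w y : V) : InDep B (fun ω => inC ω B w y) :=
  InDep.cl w (fun S => if y ∈ S then (1:ℝ) else 0)

/-- second moment of the cluster -/
theorem m2_le {p : Sym2 V → ℝ} (hp : Adm p) {β : ℝ} (hβ0 : 0 ≤ β) (hβ1 : β < 1)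
    (hrow : ∀ x, ∑ w, p s(x, w) ≤ β) (n : ℕ) :
    ∀ (A : Finset V), A.card ≤ n → ∀ x, ex p (fun ω => ((cl ω A x).card : ℝ) ^ 2)
      ≤ (1 / (1 - β)) ^ 3 := by
  have hg : 0 < 1 - β := by linarith
  have hg0 : 0 ≤ 1 / (1 - β) := by positivity
  have hgb : 1 + β * (1 / (1 - β)) = 1 / (1 - β) := by field_simp; ring
  have h0 : ∀ (A : Finset V) (x : V), x ∉ A →
      ex p (fun ω => ((cl ω A x).card : ℝ) ^ 2) ≤ (1 / (1 - β)) ^ 3 := by
    intro A x hx
    simp_rw [cl_empty_of_notMem hx]
    rw [ex_const]
    simp only [Finset.card_empty, Nat.cast_zero]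
    have : 0 ≤ (1 / (1 - β)) ^ 3 := pow_nonneg hg0 3
    simpa using this
  induction n with
  | zero =>
    intro A hA x
    have : A = ∅ := by simpa using hA
    exact h0 A x (by simp [this])
  | succ n ih =>
    intro A hA x
    by_cases hx : x ∈ A
    swap
    · exact h0 A x hx
    have hcard : (A.erase x).card ≤ n := by
      rw [Finset.card_erase_of_mem hx]; omega
    set B := A.erase x with hB
    have hxB : x ∉ B := Finset.notMem_erase x A
    -- pointwise bound
    have h1 : ∀ ω : Sym2 V → Bool, ((cl ω A x).card : ℝ) ^ 2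
        ≤ 1 + 2 * (∑ w, xi ω x w * ((cl ω B w).card : ℝ))
          + (∑ w, xi ω x w * ((cl ω B w).card : ℝ) ^ 2)
          + ∑ w, ∑ w', xi ω x w * (xi ω x w' * (if w' ∈ cl ω B w then 0 else
              ((cl ω B w).card : ℝ) * ((cl ω B w').card : ℝ))) := by
      intro ω
      have hN : ((cl ω A x).card : ℝ) = 1 + ∑ z ∈ univ.erase x, inC ω A x z := by
        rw [card_cl, ← Finset.add_sum_erase univ _ (Finset.mem_univ x)]
        congr 1
        unfold inC
        rw [if_pos (mem_cl.2 (Rch.refl hx))]
      have hN1 : ∑ z ∈ univ.erase x, inC ω A x z ≤ ∑ w, xi ω x w * ((cl ω B w).card : ℝ) := by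
        calc ∑ z ∈ univ.erase x, inC ω A x z
            ≤ ∑ z ∈ univ.erase x, ∑ w, xi ω x w * inC ω B w z :=
              Finset.sum_le_sum fun z hz => inC_le' hx (Finset.ne_of_mem_erase hz)
          _ ≤ ∑ z, ∑ w, xi ω x w * inC ω B w z := by
              refine Finset.sum_le_sum_of_subset_of_nonneg (Finset.erase_subset _ _) ?_
              intro z _ _
              exact Finset.sum_nonneg fun w _ => mul_nonneg (xi_nonneg _ _ _) (inC_nonneg _ _ _ _)
          _ = _ := by
              rw [Finset.sum_comm]
              refine Finset.sum_congr rfl fun w _ => ?_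
              rw [card_cl, Finset.mul_sum]
      have hN2 : (∑ z ∈ univ.erase x, inC ω A x z) ^ 2
          ≤ (∑ w, xi ω x w * ((cl ω B w).card : ℝ) ^ 2)
          + ∑ w, ∑ w', xi ω x w * (xi ω x w' * (if w' ∈ cl ω B w then 0 else
              ((cl ω B w).card : ℝ) * ((cl ω B w').card : ℝ))) := by
        rw [sq, Finset.sum_mul_sum]
        calc ∑ u ∈ univ.erase x, ∑ v ∈ univ.erase x, inC ω A x u * inC ω A x v
            ≤ ∑ u ∈ univ.erase x, ∑ v ∈ univ.erase x,
              (∑ w, xi ω x w * (inC ω B w u * inC ω B w v)
                + ∑ w, ∑ w', xi ω x w * (xi ω x w' * (if w' ∈ cl ω B w then 0 else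
                  inC ω B w u * inC ω B w' v))) :=
              Finset.sum_le_sum fun u hu => Finset.sum_le_sum fun v hv =>
                inC_pair hx (Finset.ne_of_mem_erase hu) (Finset.ne_of_mem_erase hv)
          _ ≤ ∑ u, ∑ v,
              (∑ w, xi ω x w * (inC ω B w u * inC ω B w v)
                + ∑ w, ∑ w', xi ω x w * (xi ω x w' * (if w' ∈ cl ω B w then 0 else
                  inC ω B w u * inC ω B w' v))) := by
              have hnn : ∀ u v : V, 0 ≤ (∑ w, xi ω x w * (inC ω B w u * inC ω B w v)
                + ∑ w, ∑ w', xi ω x w * (xi ω x w' * (if w' ∈ cl ω B w then 0 else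
                  inC ω B w u * inC ω B w' v))) := by
                intro u v
                refine add_nonneg ?_ ?_
                · exact Finset.sum_nonneg fun w _ => mul_nonneg (xi_nonneg _ _ _)
                    (mul_nonneg (inC_nonneg _ _ _ _) (inC_nonneg _ _ _ _))
                · refine Finset.sum_nonneg fun w _ => Finset.sum_nonneg fun w' _ => ?_
                  refine mul_nonneg (xi_nonneg _ _ _) (mul_nonneg (xi_nonneg _ _ _) ?_)
                  split_ifs
                  · exact le_rfl
                  · exact mul_nonneg (inC_nonneg _ _ _ _) (inC_nonneg _ _ _ _)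
              refine (Finset.sum_le_sum fun u _ =>
                Finset.sum_le_sum_of_subset_of_nonneg (Finset.erase_subset x univ)
                  (fun v _ _ => hnn u v)).trans ?_
              exact Finset.sum_le_sum_of_subset_of_nonneg (Finset.erase_subset x univ)
                  (fun u _ _ => Finset.sum_nonneg fun v _ => hnn u v)
          _ = _ := by
              simp_rw [Finset.sum_add_distrib]
              congr 1
              · have : ∀ w, xi ω x w * ((cl ω B w).card : ℝ) ^ 2
                    = ∑ u, ∑ v, xi ω x w * (inC ω B w u * inC ω B w v) := by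
                  intro w
                  rw [sq, card_cl, Finset.sum_mul_sum, Finset.mul_sum]
                  exact Finset.sum_congr rfl fun u _ => by rw [Finset.mul_sum]
                simp_rw [this]
                calc ∑ u, ∑ v, ∑ w, xi ω x w * (inC ω B w u * inC ω B w v)
                    = ∑ u, ∑ w, ∑ v, xi ω x w * (inC ω B w u * inC ω B w v) :=
                      Finset.sum_congr rfl fun u _ => Finset.sum_comm
                  _ = _ := Finset.sum_comm
              · have : ∀ w w', xi ω x w * (xi ω x w' * (if w' ∈ cl ω B w then 0 else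
                    ((cl ω B w).card : ℝ) * ((cl ω B w').card : ℝ)))
                    = ∑ u, ∑ v, xi ω x w * (xi ω x w' * (if w' ∈ cl ω B w then 0 else
                      inC ω B w u * inC ω B w' v)) := by
                  intro w w'
                  by_cases h : w' ∈ cl ω B w
                  · simp [h]
                  · simp only [if_neg h]
                    rw [card_cl, card_cl, Finset.sum_mul_sum]
                    simp_rw [Finset.mul_sum]
                simp_rw [this]
                calc ∑ u, ∑ v, ∑ w, ∑ w', xi ω x w * (xi ω x w' * (if w' ∈ cl ω B w then 0 else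
                      inC ω B w u * inC ω B w' v))
                    = ∑ u, ∑ w, ∑ v, ∑ w', xi ω x w * (xi ω x w' * (if w' ∈ cl ω B w then 0 else
                      inC ω B w u * inC ω B w' v)) :=
                      Finset.sum_congr rfl fun u _ => Finset.sum_comm
                  _ = ∑ w, ∑ u, ∑ v, ∑ w', xi ω x w * (xi ω x w' * (if w' ∈ cl ω B w then 0 else
                      inC ω B w u * inC ω B w' v)) := Finset.sum_comm
                  _ = ∑ w, ∑ u, ∑ w', ∑ v, xi ω x w * (xi ω x w' * (if w' ∈ cl ω B w then 0 else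
                      inC ω B w u * inC ω B w' v)) :=
                      Finset.sum_congr rfl fun w _ => Finset.sum_congr rfl fun u _ =>
                        Finset.sum_comm
                  _ = _ := Finset.sum_congr rfl fun w _ => Finset.sum_comm
      rw [hN]
      nlinarith [hN1, hN2]
    refine (ex_mono hp h1).trans ?_
    rw [ex_add, ex_add, ex_add, ex_const, ex_smul, ex_sum, ex_sum, ex_sum]
    have e1 : ∑ w, ex p (fun ω => xi ω x w * ((cl ω B w).card : ℝ)) ≤ β * (1 / (1 - β)) := by
      have : ∀ w, ex p (fun ω => xi ω x w * ((cl ω B w).card : ℝ))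
          ≤ p s(x, w) * (1 / (1 - β)) := by
        intro w
        rw [ex_edge_mul p hxB w (InDep.cl w (fun S => (S.card : ℝ)))]
        exact mul_le_mul_of_nonneg_left (m1_le hp hβ0 hβ1 hrow n _ hcard w) (hp _).1
      refine (Finset.sum_le_sum fun w _ => this w).trans ?_
      rw [← Finset.sum_mul]
      exact mul_le_mul_of_nonneg_right (hrow x) hg0
    have e2 : ∑ w, ex p (fun ω => xi ω x w * ((cl ω B w).card : ℝ) ^ 2)
        ≤ β * (1 / (1 - β)) ^ 3 := by
      have : ∀ w, ex p (fun ω => xi ω x w * ((cl ω B w).card : ℝ) ^ 2)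
          ≤ p s(x, w) * (1 / (1 - β)) ^ 3 := by
        intro w
        rw [ex_edge_mul p hxB w (InDep.cl w (fun S => (S.card : ℝ) ^ 2))]
        exact mul_le_mul_of_nonneg_left (ih _ hcard w) (hp _).1
      refine (Finset.sum_le_sum fun w _ => this w).trans ?_
      rw [← Finset.sum_mul]
      exact mul_le_mul_of_nonneg_right (hrow x) (by positivity)
    have e3 : ∑ w, ex p (fun ω => ∑ w', xi ω x w * (xi ω x w' * (if w' ∈ cl ω B w then 0 else
              ((cl ω B w).card : ℝ) * ((cl ω B w').card : ℝ)))) ≤ (β * (1 / (1 - β))) ^ 2 := by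
      have : ∀ w, ex p (fun ω => ∑ w', xi ω x w * (xi ω x w' * (if w' ∈ cl ω B w then 0 else
              ((cl ω B w).card : ℝ) * ((cl ω B w').card : ℝ))))
          ≤ ∑ w', (p s(x, w) * (1 / (1 - β))) * (p s(x, w') * (1 / (1 - β))) := by
        intro w
        rw [ex_sum]
        refine Finset.sum_le_sum fun w' _ => ?_
        refine (pair_bound hp hxB w w' (fun S => (S.card : ℝ)) (fun S => (S.card : ℝ))
          (fun S => by positivity) (fun S => by positivity) (by simp)
          (fun S T h => by exact_mod_cast Finset.card_le_card h)).trans ?_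
        have a1 := m1_le hp hβ0 hβ1 hrow n _ hcard w
        have a2 := m1_le hp hβ0 hβ1 hrow n _ hcard w'
        have b1 : 0 ≤ ex p (fun ω => ((cl ω B w).card : ℝ)) := ex_nonneg hp fun ω => by positivity
        have b2 : 0 ≤ ex p (fun ω => ((cl ω B w').card : ℝ)) := ex_nonneg hp fun ω => by positivity
        have c1 := (hp s(x, w)).1
        have c2 := (hp s(x, w')).1
        calc p s(x, w) * (p s(x, w') * (ex p (fun ω => ((cl ω B w).card : ℝ)) *
              ex p (fun ω => ((cl ω B w').card : ℝ))))
            ≤ p s(x, w) * (p s(x, w') * ((1 / (1 - β)) * (1 / (1 - β)))) := by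
              refine mul_le_mul_of_nonneg_left (mul_le_mul_of_nonneg_left ?_ c2) c1
              exact mul_le_mul a1 a2 b2 hg0
          _ = _ := by ring
      refine (Finset.sum_le_sum fun w _ => this w).trans ?_
      rw [← Finset.sum_mul_sum, ← Finset.sum_mul, sq]
      have h3 : (∑ w, p s(x, w)) * (1 / (1 - β)) ≤ β * (1 / (1 - β)) :=
        mul_le_mul_of_nonneg_right (hrow x) hg0
      have h4 : 0 ≤ (∑ w, p s(x, w)) * (1 / (1 - β)) :=
        mul_nonneg (Finset.sum_nonneg fun w _ => (hp _).1) hg0
      exact mul_le_mul h3 h3 h4 (by positivity)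
    have key : 1 + 2 * (β * (1 / (1 - β))) + β * (1 / (1 - β)) ^ 3 + (β * (1 / (1 - β))) ^ 2
        = (1 / (1 - β)) ^ 3 := by
      have : (1 / (1 - β)) ^ 2 = (1 + β * (1 / (1 - β))) ^ 2 := by rw [hgb]
      have h5 : (1 / (1 - β)) ^ 2 = (1 / (1 - β)) ^ 3 * (1 - β) := by field_simp
      nlinarith
    linarith

/-- vertices of the cluster of `y` that are lost when `o` is deleted -/
noncomputable def Dl (o : V) (ω : Sym2 V → Bool) (A : Finset V) (y : V) : ℝ :=
  ∑ z, (if z ∈ cl ω A y ∧ z ∉ cl ω (A.erase o) y then 1 else 0)

theorem Dl_nonneg (o : V) (ω : Sym2 V → Bool) (A : Finset V) (y : V) : 0 ≤ Dl o ω A y :=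
  Finset.sum_nonneg fun z _ => by split_ifs <;> norm_num

theorem Dl_dep (o : V) (B : Finset V) (w : V) : InDep B (fun ω => Dl o ω B w) := by
  intro ω η h
  unfold Dl
  have h1 : cl ω B w = cl η B w := cl_congr h w
  have h2 : cl ω (B.erase o) w = cl η (B.erase o) w :=
    cl_congr (fun u hu v hv => h u (Finset.mem_of_mem_erase hu) v (Finset.mem_of_mem_erase hv)) w
  simp only [h1, h2]

theorem Dl_le {p : Sym2 V → ℝ} (hp : Adm p) {β : ℝ} (hβ0 : 0 ≤ β) (hβ1 : β < 1)
    (hrow : ∀ x, ∑ w, p s(x, w) ≤ β) (o : V) (k : ℕ) :
    ∀ (A : Finset V), A.card ≤ k → ∀ y, ex p (fun ω => Dl o ω A y)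
      ≤ (1 / (1 - β)) * Gk p k y o := by
  have hg : 0 < 1 - β := by linarith
  have hg0 : 0 ≤ 1 / (1 - β) := by positivity
  have h0 : ∀ (k : ℕ) (A : Finset V) (y : V), y ∉ A →
      ex p (fun ω => Dl o ω A y) ≤ (1 / (1 - β)) * Gk p k y o := by
    intro k A y hy
    unfold Dl
    simp_rw [cl_empty_of_notMem hy]
    simp only [Finset.notMem_empty, false_and, if_false, Finset.sum_const_zero]
    rw [ex_const]
    exact mul_nonneg hg0 (Gk_nonneg hp k y o)
  induction k with
  | zero =>
    intro A hA y
    have : A = ∅ := by simpa using hA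
    exact h0 0 A y (by simp [this])
  | succ k ih =>
    intro A hA y
    by_cases hy : y ∈ A
    swap
    · exact h0 (k+1) A y hy
    by_cases hyo : y = o
    · subst hyo
      have h1 : ∀ ω : Sym2 V → Bool, Dl y ω A y ≤ ((cl ω A y).card : ℝ) := by
        intro ω
        unfold Dl
        rw [card_cl]
        refine Finset.sum_le_sum fun z _ => ?_
        unfold inC
        split_ifs with h1 h2 h2
        · exact le_rfl
        · exact absurd h1.1 h2
        · norm_num
        · exact le_rfl
      refine (ex_mono hp h1).trans ((m1_le hp hβ0 hβ1 hrow (k+1) A hA y).trans ?_)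
      have h2 : 1 ≤ Gk p (k+1) y y := by
        unfold Gk
        rw [if_pos rfl]
        have := Finset.sum_nonneg fun w (_ : w ∈ univ) =>
          mul_nonneg (hp s(y, w)).1 (Gk_nonneg hp k w y)
        linarith
      nlinarith
    · have hcard : (A.erase y).card ≤ k := by
        rw [Finset.card_erase_of_mem hy]; omega
      have h1 : ∀ ω : Sym2 V → Bool, Dl o ω A y ≤ ∑ w, xi ω y w * Dl o ω (A.erase y) w := by
        intro ω
        have : ∑ w, xi ω y w * Dl o ω (A.erase y) w = ∑ z, ∑ w, xi ω y w *
            (if z ∈ cl ω (A.erase y) w ∧ z ∉ cl ω ((A.erase y).erase o) w then 1 else 0) := by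
          rw [Finset.sum_comm]
          refine Finset.sum_congr rfl fun w _ => ?_
          unfold Dl
          rw [Finset.mul_sum]
        rw [this]
        unfold Dl
        refine Finset.sum_le_sum fun z _ => ?_
        have hnn : ∀ w ∈ (univ : Finset V), 0 ≤ xi ω y w *
            (if z ∈ cl ω (A.erase y) w ∧ z ∉ cl ω ((A.erase y).erase o) w then (1:ℝ) else 0) := by
          intro w _
          refine mul_nonneg (xi_nonneg _ _ _) ?_
          split_ifs <;> norm_num
        split_ifs with h
        · obtain ⟨ha, hb⟩ := h
          rw [mem_cl, rch_iff hy] at ha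
          have hyA : y ∈ A.erase o := Finset.mem_erase.2 ⟨hyo, hy⟩
          rcases ha with rfl | ⟨w, hw, how, hwr⟩
          · exact absurd (mem_cl.2 (Rch.refl hyA)) hb
          · refine le_trans ?_ (Finset.single_le_sum hnn (Finset.mem_univ w))
            have hc : z ∉ cl ω ((A.erase y).erase o) w := by
              intro hc
              apply hb
              rw [mem_cl] at hc ⊢
              refine Rch.head hyA hw.symm how (hc.mono_set ?_)
              rw [Finset.erase_right_comm]
              exact Finset.erase_subset _ _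
            rw [if_pos ⟨mem_cl.2 hwr, hc⟩]
            unfold xi
            rw [if_pos how]; norm_num
        · exact Finset.sum_nonneg hnn
      refine (ex_mono hp h1).trans ?_
      rw [ex_sum]
      have h2 : ∀ w, ex p (fun ω => xi ω y w * Dl o ω (A.erase y) w)
          ≤ p s(y, w) * ((1 / (1 - β)) * Gk p k w o) := by
        intro w
        rw [ex_edge_mul p (Finset.notMem_erase y A) w (Dl_dep o (A.erase y) w)]
        exact mul_le_mul_of_nonneg_left (ih _ hcard w) (hp _).1
      refine (Finset.sum_le_sum fun w _ => h2 w).trans ?_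
      have hG : Gk p (k+1) y o = (if y = o then 1 else 0) + ∑ w, p s(y, w) * Gk p k w o := rfl
      rw [hG, if_neg hyo, zero_add, Finset.mul_sum]
      refine Finset.sum_le_sum fun w _ => le_of_eq (by ring)

/-- size of the cluster of `y` on the event that it contains `t` -/
theorem F_le {p : Sym2 V → ℝ} (hp : Adm p) {β : ℝ} (hβ0 : 0 ≤ β) (hβ1 : β < 1)
    (hrow : ∀ x, ∑ w, p s(x, w) ≤ β) (t : V) (k : ℕ) :
    ∀ (A : Finset V), A.card ≤ k → ∀ y, ex p (fun ω => inC ω A y t * ((cl ω A y).card : ℝ))
      ≤ (1 / (1 - β)) * Hk p k y t := by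
  have hg : 0 < 1 - β := by linarith
  have hg0 : 0 ≤ 1 / (1 - β) := by positivity
  have hgb : 1 + β * (1 / (1 - β)) = 1 / (1 - β) := by field_simp; ring
  have h0 : ∀ (k : ℕ) (A : Finset V) (y : V), y ∉ A →
      ex p (fun ω => inC ω A y t * ((cl ω A y).card : ℝ)) ≤ (1 / (1 - β)) * Hk p k y t := by
    intro k A y hy
    simp_rw [cl_empty_of_notMem hy]
    simp only [Finset.card_empty, Nat.cast_zero, mul_zero]
    rw [ex_const]
    exact mul_nonneg hg0 (Hk_nonneg hp k y t)
  induction k with
  | zero =>
    intro A hA y
    have : A = ∅ := by simpa using hA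
    exact h0 0 A y (by simp [this])
  | succ k ih =>
    intro A hA y
    by_cases hy : y ∈ A
    swap
    · exact h0 (k+1) A y hy
    by_cases hyt : y = t
    · subst hyt
      have h1 : ∀ ω : Sym2 V → Bool, inC ω A y y * ((cl ω A y).card : ℝ) ≤ ((cl ω A y).card : ℝ) := by
        intro ω
        have := inC_le_one ω A y y
        have : (0:ℝ) ≤ ((cl ω A y).card : ℝ) := by positivity
        nlinarith
      refine (ex_mono hp h1).trans ((m1_le hp hβ0 hβ1 hrow (k+1) A hA y).trans ?_)
      have h2 : 1 ≤ Hk p (k+1) y y := by
        unfold Hk Gk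
        rw [if_pos rfl]
        have := Finset.sum_nonneg fun w (_ : w ∈ univ) =>
          mul_nonneg (hp s(y, w)).1 (Gk_nonneg hp k w y)
        have := Finset.sum_nonneg fun w (_ : w ∈ univ) =>
          mul_nonneg (hp s(y, w)).1 (Hk_nonneg hp k w y)
        linarith
      nlinarith
    · set B := A.erase y with hB
      have hyB : y ∉ B := Finset.notMem_erase y A
      have hcard : B.card ≤ k := by
        rw [hB, Finset.card_erase_of_mem hy]; omega
      have h1 : ∀ ω : Sym2 V → Bool, inC ω A y t * ((cl ω A y).card : ℝ)
          ≤ (∑ w, xi ω y w * inC ω B w t)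
            + (∑ w, xi ω y w * (inC ω B w t * ((cl ω B w).card : ℝ)))
            + ∑ w, ∑ w', xi ω y w * (xi ω y w' * (if w' ∈ cl ω B w then 0 else
              inC ω B w t * ((cl ω B w').card : ℝ))) := by
        intro ω
        rw [card_cl, Finset.mul_sum, ← Finset.add_sum_erase univ _ (Finset.mem_univ y)]
        have a1 : inC ω A y t * inC ω A y y ≤ ∑ w, xi ω y w * inC ω B w t := by
          have b1 := inC_le_one ω A y y
          have b2 := inC_nonneg ω A y t
          have b3 := inC_le' (ω := ω) hy (Ne.symm hyt)
          nlinarith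
        have a2 : ∑ z ∈ univ.erase y, inC ω A y t * inC ω A y z
            ≤ (∑ w, xi ω y w * (inC ω B w t * ((cl ω B w).card : ℝ)))
            + ∑ w, ∑ w', xi ω y w * (xi ω y w' * (if w' ∈ cl ω B w then 0 else
              inC ω B w t * ((cl ω B w').card : ℝ))) := by
          calc ∑ z ∈ univ.erase y, inC ω A y t * inC ω A y z
              ≤ ∑ z ∈ univ.erase y, (∑ w, xi ω y w * (inC ω B w t * inC ω B w z)
                + ∑ w, ∑ w', xi ω y w * (xi ω y w' * (if w' ∈ cl ω B w then 0 else
                    inC ω B w t * inC ω B w' z))) :=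
                Finset.sum_le_sum fun z hz =>
                  inC_pair hy (Ne.symm hyt) (Finset.ne_of_mem_erase hz)
            _ ≤ ∑ z, (∑ w, xi ω y w * (inC ω B w t * inC ω B w z)
                + ∑ w, ∑ w', xi ω y w * (xi ω y w' * (if w' ∈ cl ω B w then 0 else
                    inC ω B w t * inC ω B w' z))) := by
                refine Finset.sum_le_sum_of_subset_of_nonneg (Finset.erase_subset _ _) ?_
                intro z _ _
                refine add_nonneg ?_ ?_
                · exact Finset.sum_nonneg fun w _ => mul_nonneg (xi_nonneg _ _ _)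
                    (mul_nonneg (inC_nonneg _ _ _ _) (inC_nonneg _ _ _ _))
                · refine Finset.sum_nonneg fun w _ => Finset.sum_nonneg fun w' _ => ?_
                  refine mul_nonneg (xi_nonneg _ _ _) (mul_nonneg (xi_nonneg _ _ _) ?_)
                  split_ifs
                  · exact le_rfl
                  · exact mul_nonneg (inC_nonneg _ _ _ _) (inC_nonneg _ _ _ _)
            _ = _ := by
                rw [Finset.sum_add_distrib]
                congr 1
                · rw [Finset.sum_comm]
                  refine Finset.sum_congr rfl fun w _ => ?_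
                  rw [card_cl, Finset.mul_sum, Finset.mul_sum]
                · rw [Finset.sum_comm]
                  refine Finset.sum_congr rfl fun w _ => ?_
                  rw [Finset.sum_comm]
                  refine Finset.sum_congr rfl fun w' _ => ?_
                  by_cases h : w' ∈ cl ω B w
                  · simp [h]
                  · simp only [if_neg h]
                    rw [card_cl]
                    simp_rw [Finset.mul_sum]
        linarith
      refine (ex_mono hp h1).trans ?_
      rw [ex_add, ex_add, ex_sum, ex_sum, ex_sum]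
      have e1 : ∑ w, ex p (fun ω => xi ω y w * inC ω B w t) ≤ ∑ w, p s(y, w) * Gk p k w t := by
        refine Finset.sum_le_sum fun w _ => ?_
        rw [ex_edge_mul p hyB w (inC_dep B w t)]
        exact mul_le_mul_of_nonneg_left (tau_le hp k _ hcard w t) (hp _).1
      have e2 : ∑ w, ex p (fun ω => xi ω y w * (inC ω B w t * ((cl ω B w).card : ℝ)))
          ≤ ∑ w, p s(y, w) * ((1 / (1 - β)) * Hk p k w t) := by
        refine Finset.sum_le_sum fun w _ => ?_
        rw [ex_edge_mul p (f := fun ω => inC ω B w t * ((cl ω B w).card : ℝ)) hyB w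
          (InDep.cl w (fun S => (if t ∈ S then (1:ℝ) else 0) * (S.card : ℝ)))]
        exact mul_le_mul_of_nonneg_left (ih _ hcard w) (hp _).1
      have e3 : ∑ w, ex p (fun ω => ∑ w', xi ω y w * (xi ω y w' * (if w' ∈ cl ω B w then 0 else
              inC ω B w t * ((cl ω B w').card : ℝ))))
          ≤ (∑ w, p s(y, w) * Gk p k w t) * (β * (1 / (1 - β))) := by
        have : ∀ w, ex p (fun ω => ∑ w', xi ω y w * (xi ω y w' * (if w' ∈ cl ω B w then 0 else
              inC ω B w t * ((cl ω B w').card : ℝ))))
            ≤ ∑ w', (p s(y, w) * Gk p k w t) * (p s(y, w') * (1 / (1 - β))) := by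
          intro w
          rw [ex_sum]
          refine Finset.sum_le_sum fun w' _ => ?_
          refine (pair_bound hp hyB w w' (fun S => if t ∈ S then (1:ℝ) else 0)
            (fun S => (S.card : ℝ))
            (fun S => by split_ifs <;> norm_num) (fun S => by positivity) (by simp)
            (fun S T h => by exact_mod_cast Finset.card_le_card h)).trans ?_
          have a1 := tau_le hp k _ hcard w t
          have a2 := m1_le hp hβ0 hβ1 hrow k _ hcard w'
          have b1 : 0 ≤ ex p (fun ω => inC ω B w t) := ex_nonneg hp fun ω => inC_nonneg _ _ _ _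
          have b2 : 0 ≤ ex p (fun ω => ((cl ω B w').card : ℝ)) := ex_nonneg hp fun ω => by positivity
          have c1 := (hp s(y, w)).1
          have c2 := (hp s(y, w')).1
          have c3 := Gk_nonneg hp k w t
          calc p s(y, w) * (p s(y, w') * (ex p (fun ω => inC ω B w t) *
                ex p (fun ω => ((cl ω B w').card : ℝ))))
              ≤ p s(y, w) * (p s(y, w') * (Gk p k w t * (1 / (1 - β)))) := by
                refine mul_le_mul_of_nonneg_left (mul_le_mul_of_nonneg_left ?_ c2) c1
                exact mul_le_mul a1 a2 b2 c3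
            _ = _ := by ring
        refine (Finset.sum_le_sum fun w _ => this w).trans ?_
        rw [← Finset.sum_mul_sum]
        have h3 : (∑ w, p s(y, w) * (1 / (1 - β))) ≤ β * (1 / (1 - β)) := by
          rw [← Finset.sum_mul]
          exact mul_le_mul_of_nonneg_right (hrow y) hg0
        refine mul_le_mul_of_nonneg_left h3 ?_
        exact Finset.sum_nonneg fun w _ => mul_nonneg (hp _).1 (Gk_nonneg hp k w t)
      have key : (∑ w, p s(y, w) * Gk p k w t) + ∑ w, p s(y, w) * ((1 / (1 - β)) * Hk p k w t)
          + (∑ w, p s(y, w) * Gk p k w t) * (β * (1 / (1 - β)))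
          = (1 / (1 - β)) * Hk p (k+1) y t := by
        have hH : Hk p (k+1) y t = Gk p (k+1) y t + ∑ w, p s(y, w) * Hk p k w t := rfl
        have hG : Gk p (k+1) y t = (if y = t then 1 else 0) + ∑ w, p s(y, w) * Gk p k w t := rfl
        rw [hH, hG, if_neg hyt, zero_add, mul_add]
        have : ∑ w, p s(y, w) * ((1 / (1 - β)) * Hk p k w t)
            = (1 / (1 - β)) * ∑ w, p s(y, w) * Hk p k w t := by
          rw [Finset.mul_sum]
          exact Finset.sum_congr rfl fun w _ => by ring
        rw [this]
        have h6 : (∑ w, p s(y, w) * Gk p k w t) * (1 + β * (1 / (1 - β)))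
            = (∑ w, p s(y, w) * Gk p k w t) * (1 / (1 - β)) := by rw [hgb]
        linarith
      linarith

end Pool.Agent.H890.C
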