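import Pool.Agent.H890.C.Hier

set_option autoImplicit false
set_option linter.unusedSectionVars false
set_option linter.unusedVariables false

/-! The bound for one ball of the hierarchical group. -/

namespace Pool.Agent.H890.C

open Finset Classical

variable {d L n : ℕ} [NeZero L]

theorem step_bound (hd : 1 ≤ d) (hL : 2 ≤ L) (hn : 2 ≤ n) (e : ℕ → ℝ) (g : ℕ → ℝ)
    {s c σ q0 : ℝ} (hs0 : 0 < s) (hs1 : s ≤ 1/2) (hsc : s ≤ c) (hc1 : c ≤ 1)
    (he0 : ∀ i ∈ Finset.Icc 1 n, 0 ≤ e i)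
    (hlow : ∀ i ∈ Finset.Icc 1 n, c / ((L:ℝ)^d)^n ≤ (1/2) * e i)
    (hhi : ∀ i ∈ Finset.Icc 1 n, e i ≤ 1/2)
    (hrow : ∑ i ∈ Finset.Icc 1 n, (((L:ℝ)^d)^i - ((L:ℝ)^d)^(i-1)) * e i = 1)
    (hsq : ∑ i ∈ Finset.Icc 1 n, (((L:ℝ)^d)^i - ((L:ℝ)^d)^(i-1)) * e i ^ 2 ≤ σ)
    (hσ : σ ≤ 1/8) (hσs : σ ≤ c^2 * s / 32) (hsn : 48 ≤ s^3 * ((L:ℝ)^d)^n)
    (hcn : c / ((L:ℝ)^d)^n ≤ s / 2)
    (hg : ∀ i, 0 ≤ g i ∧ g i ≤ 1) (hge : ∀ i ∈ Finset.Icc 1 n, (1 - s) * e i ≤ g i)
    (hq0 : 0 ≤ q0) (hq1 : q0 ≤ (1 - s) * e 1) (hq2 : q0 ≤ (1 - s) * e 2)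
    (k : ℕ) (hK : 1 ≤ (L ^ d) ^ 2 * k)
    (hK2 : 6 * Real.sqrt (((L ^ d) ^ 2 * k : ℕ) : ℝ) ≤ 1/(4*s)) :
    ex (levP (d := d) (L := L) (n := n) g)
      (fun ω => if Bad (fun v => v + uvec 0) (fun v => v + uvec 1) ω then 1 else 0)
      ≤ 256 / (s^3 * ((L:ℝ)^d)^n) + ((L:ℝ)^d)^n * (1 - q0^3) ^ k := by
  have hc0 : 0 < c := lt_of_lt_of_le hs0 hsc
  have hcard : (Fintype.card (Ball d L n) : ℝ) = ((L:ℝ)^d)^n := by
    rw [card_ball]; push_cast; rfl
  set f : ℕ → ℝ := fun i => if i = 0 then 0 else (1 - s) * e i with hf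
  set p := levP (d := d) (L := L) (n := n) f with hp
  have hlevIcc : ∀ x : Ball d L n, lev x ≠ 0 → lev x ∈ Finset.Icc 1 n := by
    intro x hx
    rw [Finset.mem_Icc]
    exact ⟨Nat.one_le_iff_ne_zero.2 hx, lev_le x⟩
  have hT : (1:ℝ) ≤ (L:ℝ)^d := one_le_pow₀ (by exact_mod_cast (by omega : 1 ≤ L))
  have hpf : ∀ x y : Ball d L n, p s(x, y) = f (lev (x - y)) := fun x y => rfl
  have hf0 : ∀ x : Ball d L n, 0 ≤ f (lev x) ∧ f (lev x) ≤ 1/2 := by
    intro x
    rw [hf]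
    dsimp only
    split_ifs with h
    · norm_num
    · have h1 := he0 _ (hlevIcc x h)
      have h2 := hhi _ (hlevIcc x h)
      constructor
      · exact mul_nonneg (by linarith) h1
      · nlinarith
  have hadm : Adm p := by
    intro e'
    induction e' using Sym2.ind with
    | _ x y =>
      rw [hpf]
      have := hf0 (x - y)
      exact ⟨this.1, by linarith [this.2]⟩
  have hhalf : ∀ e', p e' ≤ 1/2 := by
    intro e'
    induction e' using Sym2.ind with
    | _ x y =>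
      rw [hpf]
      exact (hf0 (x - y)).2
  have hKH : KH p c s σ := by
    refine ⟨hadm, ?_, ?_, ?_, ?_, hc0, hc1, hs0, hsc, ?_, ?_⟩
    · intro x
      rw [hpf, sub_self]
      have : lev (0 : Ball d L n) = 0 := (lev_eq_zero _).2 rfl
      rw [this]; simp [hf]
    · intro x
      simp_rw [hpf]
      rw [row_sum f x]
      have : ∑ i ∈ Finset.Icc 1 n, (((L:ℝ)^d)^i - ((L:ℝ)^d)^(i-1)) * f i
          = (1 - s) * ∑ i ∈ Finset.Icc 1 n, (((L:ℝ)^d)^i - ((L:ℝ)^d)^(i-1)) * e i := by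
        rw [Finset.mul_sum]
        refine Finset.sum_congr rfl fun i hi => ?_
        rw [hf]
        dsimp only
        rw [if_neg (by rw [Finset.mem_Icc] at hi; omega)]
        ring
      rw [this, hrow]; simp [hf]
    · intro x y hxy
      rw [hpf, hcard]
      have h1 : lev (x - y) ≠ 0 := by
        rw [Ne, lev_eq_zero, sub_eq_zero]; exact hxy
      have h2 := hlow _ (hlevIcc _ h1)
      have h3 := he0 _ (hlevIcc _ h1)
      rw [hf]
      dsimp only
      rw [if_neg h1]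
      nlinarith
    · intro x
      simp_rw [hpf]
      rw [row_sum (fun i => f i ^ 2) x]
      refine le_trans ?_ hsq
      have : f 0 ^ 2 = 0 := by simp [hf]
      rw [this, zero_add]
      refine Finset.sum_le_sum fun i hi => ?_
      have hi' := Finset.mem_Icc.1 hi
      have h0 : 0 ≤ ((L:ℝ)^d)^i - ((L:ℝ)^d)^(i-1) := by
        have := pow_le_pow_right₀ hT (by omega : i - 1 ≤ i)
        linarith
      refine mul_le_mul_of_nonneg_left ?_ h0
      rw [hf]
      dsimp only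
      rw [if_neg (by omega)]
      have h1 := he0 i hi
      apply pow_le_pow_left₀ (mul_nonneg (by linarith) h1)
      nlinarith
    · rw [card_ball]
      have h1 : 2 ≤ L ^ d := le_trans hL (Nat.le_self_pow (by omega) L)
      calc 2 ≤ L ^ d := h1
        _ ≤ (L ^ d) ^ n := Nat.le_self_pow (by omega) _
    · rw [hcard]; exact hcn
  have hp' : Adm (levP (d := d) (L := L) (n := n) g) := by
    intro e'
    induction e' using Sym2.ind with
    | _ x y => exact hg _
  have hpp : ∀ e', p e' ≤ levP (d := d) (L := L) (n := n) g e' := by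
    intro e'
    induction e' using Sym2.ind with
    | _ x y =>
      rw [hpf, levP_mk, hf]
      dsimp only
      split_ifs with h
      · exact (hg _).1
      · exact hge _ (hlevIcc _ h)
  have hmem1 : 1 ∈ Finset.Icc 1 n := by rw [Finset.mem_Icc]; omega
  have hmem2 : 2 ∈ Finset.Icc 1 n := by rw [Finset.mem_Icc]; omega
  have hg1 : q0 ≤ g 1 := hq1.trans (hge 1 hmem1)
  have hg2 : q0 ≤ g 2 := hq2.trans (hge 2 hmem2)
  have hq01 : q0 ≤ 1 := hg1.trans (hg 1).2
  have l1 : lev (uvec 0 : Ball d L n) = 1 := lev_uvec hd hL 0 (by omega)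
  have l2 : lev (uvec 1 : Ball d L n) = 2 := lev_uvec hd hL 1 (by omega)
  have l3 : lev ((uvec 0 : Ball d L n) - uvec 1) = 2 := lev_uvec_sub hd hL hn
  have n1 : (uvec 0 : Ball d L n) ≠ 0 := by
    intro h; rw [← lev_eq_zero] at h; omega
  have n2 : (uvec 1 : Ball d L n) ≠ 0 := by
    intro h; rw [← lev_eq_zero] at h; omega
  have n3 : (uvec 0 : Ball d L n) ≠ uvec 1 := by
    intro h; rw [h] at l1; omega
  have hb1 : ∀ v : Ball d L n, blk (v + uvec 0) = blk v := by
    intro v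
    rw [blk_eq_iff]; simp [l1]
  have hb2 : ∀ v : Ball d L n, blk (v + uvec 1) = blk v := by
    intro v
    rw [blk_eq_iff]; simp [l2]
  have hq : ∀ v : Ball d L n, ex (levP (d := d) (L := L) (n := n) g) (fun ω =>
      if TriO (fun v => v + uvec 0) (fun v => v + uvec 1) ω v then 0 else 1) ≤ 1 - q0^3 := by
    intro v
    refine triO_prob hp' _ _ hq0 v ?_ ?_ ?_ ?_ ?_ ?_
    · intro h; exact n3 (by simpa using h)
    · intro h; exact n1 (by simpa using h.symm)
    · intro h; exact n2 (by simpa using h.symm)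
    · rw [levP_mk]
      have : v - (v + uvec 0) = - uvec 0 := by abel
      rw [this, lev_neg, l1]; exact hg1
    · rw [levP_mk]
      have : v - (v + uvec 1) = - uvec 1 := by abel
      rw [this, lev_neg, l2]; exact hg2
    · rw [levP_mk]
      have : (v + uvec 0) - (v + uvec 1) = uvec 0 - uvec 1 := by abel
      rw [this, l3]; exact hg2
  have hq3 : q0 ^ 3 ≤ 1 := pow_le_one₀ hq0 hq01
  have := bad_bound hKH (levP_trans f) hσ hhalf hσs (by rw [hcard]; exact hsn) hp' hpp blk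
    (fun v => v + uvec 0) (fun v => v + uvec 1) (pow_nonneg hq0 3) hq3 hb1 hb2 hq
    (card_blk hn) k hK hK2
  rw [hcard] at this
  exact this

end Pool.Agent.H890.C
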